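import Pool.Agent.Work.MP_9a767b_pr.Defs

/-!
# Metric: elementary properties of the passage time (deterministic)
-/

open MeasureTheory ProbabilityTheory Filter Topology

namespace Pool.Agent.Work.MP_9a767b_pr

theorem adj_iff (x y : V) : lattice.Adj x y ↔ |x.1 - y.1| + |x.2 - y.2| = 1 := by
  unfold lattice
  rw [SimpleGraph.fromRel_adj]
  constructor
  · rintro ⟨-, h | h⟩
    · exact h
    · rw [abs_sub_comm, abs_sub_comm x.2]; exact h
  · intro h
    refine ⟨?_, Or.inl h⟩
    rintro rfl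
    simp at h

private theorem walk_h (x : V) (k : ℕ) : Nonempty (lattice.Walk x (x.1 + k, x.2)) := by
  induction k with
  | zero => exact ⟨SimpleGraph.Walk.nil.copy rfl (by simp)⟩
  | succ k ih =>
    obtain ⟨w⟩ := ih
    refine ⟨w.concat ?_⟩
    rw [adj_iff]
    push_cast
    have : x.1 + (k : ℤ) - (x.1 + ((k : ℤ) + 1)) = -1 := by ring
    rw [this]; simp

private theorem walk_v (x : V) (k : ℕ) : Nonempty (lattice.Walk x (x.1, x.2 + k)) := by
  induction k with
  | zero => exact ⟨SimpleGraph.Walk.nil.copy rfl (by simp)⟩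
  | succ k ih =>
    obtain ⟨w⟩ := ih
    refine ⟨w.concat ?_⟩
    rw [adj_iff]
    push_cast
    have : x.2 + (k : ℤ) - (x.2 + ((k : ℤ) + 1)) = -1 := by ring
    rw [this]; simp

private theorem walk_h' (a a' b : ℤ) : Nonempty (lattice.Walk ((a, b) : V) (a', b)) := by
  rcases le_total a a' with h | h
  · obtain ⟨w⟩ := walk_h (a, b) (a' - a).toNat
    have e : (((a, b) : V).1 + ((a' - a).toNat : ℤ), ((a, b) : V).2) = (a', b) := by
      ext <;> simp [h]
    exact ⟨w.copy rfl e⟩
  · obtain ⟨w⟩ := walk_h (a', b) (a - a').toNat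
    have e : (((a', b) : V).1 + ((a - a').toNat : ℤ), ((a', b) : V).2) = (a, b) := by
      ext <;> simp [h]
    exact ⟨(w.copy rfl e).reverse⟩

private theorem walk_v' (a b b' : ℤ) : Nonempty (lattice.Walk ((a, b) : V) (a, b')) := by
  rcases le_total b b' with h | h
  · obtain ⟨w⟩ := walk_v (a, b) (b' - b).toNat
    have e : (((a, b) : V).1, ((a, b) : V).2 + ((b' - b).toNat : ℤ)) = (a, b') := by
      ext <;> simp [h]
    exact ⟨w.copy rfl e⟩
  · obtain ⟨w⟩ := walk_v (a, b') (b - b').toNat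
    have e : (((a, b') : V).1, ((a, b') : V).2 + ((b - b').toNat : ℤ)) = (a, b) := by
      ext <;> simp [h]
    exact ⟨(w.copy rfl e).reverse⟩

theorem nonempty_walk (x y : V) : Nonempty (lattice.Walk x y) := by
  obtain ⟨a, b⟩ := x
  obtain ⟨a', b'⟩ := y
  obtain ⟨w⟩ := walk_h' a a' b
  obtain ⟨w'⟩ := walk_v' a' b b'
  exact ⟨w.append w'⟩

instance (x y : V) : Nonempty (lattice.Walk x y) := nonempty_walk x y

theorem len_nonneg {c : Sym2 V → ℝ} (hc : ∀ e, 0 ≤ c e) {x y : V} (w : lattice.Walk x y) :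
    0 ≤ len c w := by
  unfold len
  refine List.sum_nonneg ?_
  intro r hr
  obtain ⟨e, -, rfl⟩ := List.mem_map.1 hr
  exact hc e

theorem len_append (c : Sym2 V → ℝ) {x y z : V} (w : lattice.Walk x y) (w' : lattice.Walk y z) :
    len c (w.append w') = len c w + len c w' := by
  simp [len, SimpleGraph.Walk.edges_append]

theorem len_reverse (c : Sym2 V → ℝ) {x y : V} (w : lattice.Walk x y) :
    len c w.reverse = len c w := by
  simp [len, SimpleGraph.Walk.edges_reverse, List.map_reverse, List.sum_reverse]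

theorem bddBelow_len {c : Sym2 V → ℝ} (hc : ∀ e, 0 ≤ c e) (x y : V) :
    BddBelow (Set.range fun w : lattice.Walk x y => len c w) :=
  ⟨0, by rintro _ ⟨w, rfl⟩; exact len_nonneg hc w⟩

theorem pt_nonneg {c : Sym2 V → ℝ} (hc : ∀ e, 0 ≤ c e) (x y : V) : 0 ≤ pt c x y :=
  le_ciInf fun w => len_nonneg hc w

theorem pt_le_len {c : Sym2 V → ℝ} (hc : ∀ e, 0 ≤ c e) {x y : V} (w : lattice.Walk x y) :
    pt c x y ≤ len c w := ciInf_le (bddBelow_len hc x y) w

theorem pt_self {c : Sym2 V → ℝ} (hc : ∀ e, 0 ≤ c e) (x : V) : pt c x x = 0 := by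
  refine le_antisymm ?_ (pt_nonneg hc x x)
  refine (pt_le_len hc (SimpleGraph.Walk.nil : lattice.Walk x x)).trans ?_
  simp [len]

theorem pt_comm (c : Sym2 V → ℝ) (x y : V) : pt c x y = pt c y x := by
  unfold pt
  refine Equiv.iInf_congr ⟨fun w => w.reverse, fun w => w.reverse, fun w => by simp,
    fun w => by simp⟩ fun w => ?_
  exact len_reverse c w

theorem exists_near (c : Sym2 V → ℝ) (x y : V) {δ : ℝ} (hδ : 0 < δ) :
    ∃ w : lattice.Walk x y, len c w < pt c x y + δ :=
  exists_lt_of_ciInf_lt (lt_add_of_pos_right _ hδ)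

theorem pt_triangle {c : Sym2 V → ℝ} (hc : ∀ e, 0 ≤ c e) (x y z : V) :
    pt c x z ≤ pt c x y + pt c y z := by
  refine le_of_forall_pos_lt_add fun δ hδ => ?_
  obtain ⟨w, hw⟩ := exists_near c x y (half_pos hδ)
  obtain ⟨w', hw'⟩ := exists_near c y z (half_pos hδ)
  have := pt_le_len hc (w.append w')
  rw [len_append] at this
  linarith

theorem pt_split {c : Sym2 V → ℝ} (hc : ∀ e, 0 ≤ c e) {x y z : V} (w : lattice.Walk x y)
    (hz : z ∈ w.support) : pt c x z + pt c z y ≤ len c w := by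
  classical
  have h := len_append c (w.takeUntil z hz) (w.dropUntil z hz)
  rw [w.take_spec hz] at h
  rw [h]
  exact add_le_add (pt_le_len hc _) (pt_le_len hc _)

theorem T_nonneg (ω : Cfg) (x y : V) : 0 ≤ T ω x y := pt_nonneg (fun _ => abs_nonneg _) x y

theorem T_self (ω : Cfg) (x : V) : T ω x x = 0 := pt_self (fun _ => abs_nonneg _) x

theorem T_comm (ω : Cfg) (x y : V) : T ω x y = T ω y x := pt_comm _ x y

theorem T_triangle (ω : Cfg) (x y z : V) : T ω x z ≤ T ω x y + T ω y z :=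
  pt_triangle (fun _ => abs_nonneg _) x y z

end Pool.Agent.Work.MP_9a767b_pr
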