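import Pool.Agent.Work.MP_9a767b_pr.Metric

/-!
# Cross: a discrete planar crossing lemma (parity)
-/

open MeasureTheory ProbabilityTheory Filter Topology

namespace Pool.Agent.Work.MP_9a767b_pr

namespace CrossAux

/-- Sum of a `ZMod 2` valued function over the darts of a walk. -/
def cnt {x y : V} (P : lattice.Walk x y) (F : V → V → ZMod 2) : ZMod 2 :=
  (P.darts.map (fun d => F d.fst d.snd)).sum

theorem cnt_congr {x y : V} (P : lattice.Walk x y) {F G : V → V → ZMod 2}
    (h : ∀ u v, lattice.Adj u v → u ∈ P.support → v ∈ P.support → F u v = G u v) :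
    cnt P F = cnt P G := by
  unfold cnt
  congr 1
  refine List.map_congr_left fun d hd => ?_
  exact h _ _ d.adj (P.dart_fst_mem_support_of_mem_darts hd) (P.dart_snd_mem_support_of_mem_darts hd)

theorem cnt_add {x y : V} (P : lattice.Walk x y) (F G : V → V → ZMod 2) :
    cnt P (fun u v => F u v + G u v) = cnt P F + cnt P G := by
  unfold cnt
  exact List.sum_map_add

theorem cnt_zero {x y : V} (P : lattice.Walk x y) : cnt P (fun _ _ => 0) = 0 := by
  simp [cnt]

theorem cnt_bd {x y : V} (P : lattice.Walk x y) (s : V → ZMod 2) :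
    cnt P (fun u v => s u + s v) = s x + s y := by
  induction P with
  | nil => simp [cnt, CharTwo.add_self_eq_zero]
  | @cons u v w h p ih =>
    have : cnt (SimpleGraph.Walk.cons h p) (fun u v => s u + s v) =
        (s u + s v) + cnt p (fun u v => s u + s v) := by
      simp [cnt]
    rw [this, ih]
    have h2 : s v + s v = 0 := CharTwo.add_self_eq_zero _
    calc s u + s v + (s v + s w) = s u + (s v + s v) + s w := by ring
      _ = s u + s w := by rw [h2, add_zero]

/-- Indicator of the steps between the columns `a` and `a + 1` at height at most `b`. -/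
def H (a b : ℤ) (u v : V) : ZMod 2 :=
  if ((u.1 = a ∧ v.1 = a + 1) ∨ (u.1 = a + 1 ∧ v.1 = a)) ∧ u.2 ≤ b then 1 else 0

/-- Axis contribution. -/
def A (n a b : ℤ) : ZMod 2 := if 0 ≤ b ∧ (a ≤ -1 ∨ n ≤ a) then 1 else 0

/-- The parity. -/
def W {n : ℤ} (P : lattice.Walk (0 : V) (n, 0)) (u : V) : ZMod 2 :=
  cnt P (H u.1 u.2) + A n u.1 u.2

theorem adj_cases {u v : V} (h : lattice.Adj u v) :
    v = (u.1, u.2 + 1) ∨ u = (v.1, v.2 + 1) ∨ v = (u.1 + 1, u.2) ∨ u = (v.1 + 1, v.2) := by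
  rw [adj_iff] at h
  obtain ⟨a, b⟩ := u
  obtain ⟨c, d⟩ := v
  simp only [Prod.mk.injEq] at *
  rcases abs_cases (a - c) with h1 | h1 <;> rcases abs_cases (b - d) with h2 | h2 <;> omega

theorem W_vert {n : ℤ} (P : lattice.Walk (0 : V) (n, 0)) (a b : ℤ)
    (hP : ((a, b + 1) : V) ∉ P.support) (hax : ¬ (b + 1 = 0 ∧ (a ≤ 0 ∨ n ≤ a))) :
    W P (a, b + 1) = W P (a, b) := by
  unfold W
  congr 1
  · refine cnt_congr P fun u v huv hu hv => ?_
    unfold H
    have key : (((u.1 = a ∧ v.1 = a + 1) ∨ (u.1 = a + 1 ∧ v.1 = a)) ∧ u.2 ≤ b + 1) ↔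
        (((u.1 = a ∧ v.1 = a + 1) ∨ (u.1 = a + 1 ∧ v.1 = a)) ∧ u.2 ≤ b) := by
      refine ⟨fun ⟨h1, h2⟩ => ⟨h1, ?_⟩, fun ⟨h1, h2⟩ => ⟨h1, by omega⟩⟩
      by_contra h3
      have hu2 : u.2 = b + 1 := by omega
      rw [adj_iff] at huv
      have hv2 : v.2 = b + 1 := by
        rcases abs_cases (u.1 - v.1) with h4 | h4 <;> rcases abs_cases (u.2 - v.2) with h5 | h5 <;>
          omega
      rcases h1 with ⟨h6, h7⟩ | ⟨h6, h7⟩
      · exact hP (by rw [← h6, ← hu2]; exact hu)
      · exact hP (by rw [← h7, ← hv2]; exact hv)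
    simp only [key]
  · unfold A
    have key : (0 ≤ b + 1 ∧ (a ≤ -1 ∨ n ≤ a)) ↔ (0 ≤ b ∧ (a ≤ -1 ∨ n ≤ a)) := by
      omega
    simp only [key]

theorem H_sum (a b : ℤ) {u v : V} (h : lattice.Adj u v) (hu : u ≠ (a + 1, b))
    (hv : v ≠ (a + 1, b)) :
    (if u.1 = a + 1 ∧ u.2 ≤ b then (1 : ZMod 2) else 0) +
      (if v.1 = a + 1 ∧ v.2 ≤ b then (1 : ZMod 2) else 0) = H a b u v + H (a + 1) b u v := by
  obtain ⟨u1, u2⟩ := u
  obtain ⟨v1, v2⟩ := v
  have hu' : ¬ (u1 = a + 1 ∧ u2 = b) := fun h => hu (by rw [h.1, h.2])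
  have hv' : ¬ (v1 = a + 1 ∧ v2 = b) := fun h => hv (by rw [h.1, h.2])
  unfold H
  rcases adj_cases h with h | h | h | h <;> simp only [Prod.mk.injEq] at h <;>
    obtain ⟨h1, h2⟩ := h <;> simp only [h1, h2] at * <;> split_ifs <;>
    first
    | rfl
    | (exfalso; omega)
    | decide

theorem A_sum {n : ℤ} (hn : 0 < n) (a b : ℤ) :
    A n a b + A n (a + 1) b =
      (if (0 : ℤ) = a + 1 ∧ (0 : ℤ) ≤ b then 1 else 0) +
      (if n = a + 1 ∧ (0 : ℤ) ≤ b then 1 else 0) := by
  unfold A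
  split_ifs <;>
    first
    | rfl
    | (exfalso; omega)
    | decide

theorem W_hor {n : ℤ} (hn : 0 < n) (P : lattice.Walk (0 : V) (n, 0)) (a b : ℤ)
    (hP : ((a + 1, b) : V) ∉ P.support) : W P (a, b) = W P (a + 1, b) := by
  classical
  have hsum : cnt P (H a b) + cnt P (H (a + 1) b) =
      (if (0 : ℤ) = a + 1 ∧ (0 : ℤ) ≤ b then 1 else 0) +
      (if n = a + 1 ∧ (0 : ℤ) ≤ b then 1 else 0) := by
    rw [← cnt_add]
    rw [← cnt_congr P (fun u v huv hu hv => H_sum a b huv (fun h => hP (h ▸ hu))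
      (fun h => hP (h ▸ hv)))]
    exact cnt_bd P (fun u : V => if u.1 = a + 1 ∧ u.2 ≤ b then (1 : ZMod 2) else 0)
  have hA := A_sum hn a b
  unfold W
  simp only
  have h3 : (cnt P (H a b) + A n a b) + (cnt P (H (a + 1) b) + A n (a + 1) b) = 0 := by
    calc _ = (cnt P (H a b) + cnt P (H (a + 1) b)) + (A n a b + A n (a + 1) b) := by ring
      _ = 0 := by rw [hsum, hA]; exact CharTwo.add_self_eq_zero _
  exact (CharTwo.add_eq_zero).1 h3

theorem W_step {n : ℤ} (hn : 0 < n) (P : lattice.Walk (0 : V) (n, 0)) {u v : V}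
    (h : lattice.Adj u v) (hu : u ∉ P.support) (hv : v ∉ P.support)
    (hu' : ¬ (u.2 = 0 ∧ (u.1 ≤ 0 ∨ n ≤ u.1))) (hv' : ¬ (v.2 = 0 ∧ (v.1 ≤ 0 ∨ n ≤ v.1))) :
    W P u = W P v := by
  obtain ⟨u1, u2⟩ := u
  obtain ⟨v1, v2⟩ := v
  rcases adj_cases h with h | h | h | h <;> simp only [Prod.mk.injEq] at h <;>
    obtain ⟨rfl, rfl⟩ := h
  · exact (W_vert P _ _ hv hv').symm
  · exact W_vert P _ _ hu hu'
  · exact W_hor hn P _ _ hv
  · exact (W_hor hn P _ _ hu).symm

theorem W_const {n : ℤ} (hn : 0 < n) (P : lattice.Walk (0 : V) (n, 0)) {x y : V}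
    (G : lattice.Walk x y) (h : ∀ v ∈ G.support, v ∉ P.support ∧ ¬ (v.2 = 0 ∧ (v.1 ≤ 0 ∨ n ≤ v.1))) :
    W P x = W P y := by
  induction G with
  | nil => rfl
  | @cons u v w huv p ih =>
    have h1 := h u (by simp)
    have h2 := h v (by simp)
    rw [W_step hn P huv h1.1 h2.1 h1.2 h2.2]
    exact ih fun z hz => h z (by simp [hz])

end CrossAux

open CrossAux in
theorem cross {n X m : ℤ} (hn : 0 < n) (hm : 0 < m) (P : lattice.Walk (0 : V) (n, 0))
    (G : lattice.Walk ((X, -m) : V) (X, m)) (hG1 : ∀ i : ℤ, i ≤ 0 → ((i, 0) : V) ∉ G.support)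
    (hG2 : ∀ t : ℤ, n ≤ t → ((t, 0) : V) ∉ G.support)
    (hP : ∀ y : ℤ, m ≤ |y| → ((X, y) : V) ∉ P.support) :
    ∃ v, v ∈ P.support ∧ v ∈ G.support := by
  by_contra hcon
  push Not at hcon
  have hgood : ∀ v ∈ G.support, v ∉ P.support ∧ ¬ (v.2 = 0 ∧ (v.1 ≤ 0 ∨ n ≤ v.1)) := by
    rintro ⟨a, b⟩ hv
    refine ⟨fun h => hcon _ h hv, ?_⟩
    rintro ⟨h1, h2⟩
    simp only at h1 h2
    subst h1
    rcases h2 with h2 | h2
    · exact hG1 _ h2 hv
    · exact hG2 _ h2 hv
  have hW := W_const hn P G hgood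
  -- bottom value
  have hbot : W P (X, -m) = 0 := by
    unfold W
    have h1 : cnt P (H X (-m)) = 0 := by
      rw [← cnt_zero P]
      refine cnt_congr P fun u v huv hu hv => ?_
      unfold H
      rw [if_neg]
      rintro ⟨h1, h2⟩
      have hv2 : u.2 = v.2 := by
        rcases adj_cases huv with h | h | h | h <;> rw [Prod.ext_iff] at h <;> simp at h <;> omega
      rcases h1 with ⟨h3, -⟩ | ⟨-, h3⟩
      · exact hP u.2 (by rw [abs_of_neg (by omega)]; omega) (by rw [← h3]; exact hu)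
      · exact hP v.2 (by rw [abs_of_neg (by omega)]; omega) (by rw [← h3]; exact hv)
    have h2 : A n X (-m) = 0 := by
      unfold A
      rw [if_neg]
      omega
    simp only [h1, h2, add_zero]
  have htop : W P (X, m) = 1 := by
    unfold W
    have h1 : cnt P (H X m) = (if (0 : ℤ) ≤ X then 1 else 0) + (if n ≤ X then 1 else 0) := by
      have h2 := cnt_bd P (fun u : V => if u.1 ≤ X then (1 : ZMod 2) else 0)
      simp only [Prod.fst_zero] at h2
      rw [← h2]
      refine cnt_congr P fun u v huv hu hv => ?_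
      have hnu : u.1 = X → u.2 < m := by
        intro h
        by_contra h3
        exact hP u.2 (by rw [abs_of_nonneg (by omega)]; omega) (by rw [← h]; exact hu)
      have hnv : v.1 = X → v.2 < m := by
        intro h
        by_contra h3
        exact hP v.2 (by rw [abs_of_nonneg (by omega)]; omega) (by rw [← h]; exact hv)
      obtain ⟨u1, u2⟩ := u
      obtain ⟨v1, v2⟩ := v
      unfold H
      simp only at hnu hnv
      rcases adj_cases huv with h | h | h | h <;> simp only [Prod.mk.injEq] at h <;>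
        obtain ⟨h1, h2⟩ := h <;> simp only [h1, h2] at * <;> split_ifs <;>
        first
        | rfl
        | (exfalso; omega)
        | decide
    simp only [h1]
    unfold A
    split_ifs <;>
      first
      | rfl
      | (exfalso; omega)
      | decide
  rw [hbot, htop] at hW
  exact absurd hW (by decide)

end Pool.Agent.Work.MP_9a767b_pr
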