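import Pool.Agent.Work.MP_9a767b_pr.Meas

/-!
# Act: invariance of the product measure under lattice automorphisms
-/

open MeasureTheory ProbabilityTheory Filter Topology

namespace Pool.Agent.Work.MP_9a767b_pr

theorem measurable_act (σ : V ≃ V) : Measurable (act σ) :=
  measurable_pi_lambda _ fun e => measurable_pi_apply _

theorem act_mp (ν : Measure ℝ) [IsProbabilityMeasure ν] (σ : V ≃ V) :
    MeasurePreserving (act σ) (Q ν) (Q ν) := by
  refine ⟨measurable_act σ, ?_⟩
  unfold Q
  exact Measure.map_infinitePi_infinitePi_of_inj (P := fun _ : Sym2 V => ν)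
    (f := fun e : Sym2 V => e.map σ) (Sym2.map.injective σ.injective)

private theorem T_act_le (σ : V ≃ V) (hσ : ∀ x y, lattice.Adj x y → lattice.Adj (σ x) (σ y))
    (ω : Cfg) (x y : V) : T ω (σ x) (σ y) ≤ T (act σ ω) x y := by
  refine le_ciInf fun w => ?_
  let f : lattice →g lattice := ⟨σ, fun {a b} h => hσ a b h⟩
  refine (pt_le_len (fun _ => abs_nonneg _) (w.map f)).trans (le_of_eq ?_)
  unfold len act
  rw [SimpleGraph.Walk.edges_map, List.map_map]
  rfl

theorem T_act (σ : V ≃ V) (hσ : ∀ x y, lattice.Adj (σ x) (σ y) ↔ lattice.Adj x y) (ω : Cfg)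
    (x y : V) : T (act σ ω) x y = T ω (σ x) (σ y) := by
  refine le_antisymm ?_ (T_act_le σ (fun x y h => (hσ x y).2 h) ω x y)
  have h := T_act_le σ.symm (fun x y h => by
    rw [← hσ]; simpa using h) (act σ ω) (σ x) (σ y)
  simp only [Equiv.symm_apply_apply] at h
  refine h.trans (le_of_eq ?_)
  have : act σ.symm (act σ ω) = ω := by
    funext e
    simp only [act, Sym2.map_map]
    congr 1
    have : (σ : V → V) ∘ σ.symm = id := by ext1 z; simp
    rw [this, Sym2.map_id]; rfl
  rw [this]

/-- Translation by `z`. -/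
def trans (z : V) : V ≃ V := Equiv.addLeft z

/-- The reflection `(a, b) ↦ (s - a, b)`. -/
def refl1 (s : ℤ) : V ≃ V where
  toFun x := (s - x.1, x.2)
  invFun x := (s - x.1, x.2)
  left_inv x := by ext <;> simp
  right_inv x := by ext <;> simp

/-- The reflection `(a, b) ↦ (a, -b)`. -/
def refl2 : V ≃ V where
  toFun x := (x.1, -x.2)
  invFun x := (x.1, -x.2)
  left_inv x := by ext <;> simp
  right_inv x := by ext <;> simp

/-- The reflection `(a, b) ↦ (b, a)`. -/
def swp : V ≃ V := Equiv.prodComm ℤ ℤ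

theorem T_trans (z : V) (ω : Cfg) (x y : V) : T (act (trans z) ω) x y = T ω (z + x) (z + y) :=
  T_act (trans z) (fun x y => by
    simp only [adj_iff, trans, Equiv.coe_addLeft, Prod.fst_add, Prod.snd_add, add_sub_add_left_eq_sub])
    ω x y

theorem T_refl1 (s : ℤ) (ω : Cfg) (x y : V) :
    T (act (refl1 s) ω) x y = T ω (s - x.1, x.2) (s - y.1, y.2) :=
  T_act (refl1 s) (fun x y => by
    simp only [adj_iff, refl1, Equiv.coe_fn_mk]
    have : s - x.1 - (s - y.1) = -(x.1 - y.1) := by ring
    rw [this, abs_neg]) ω x y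

theorem T_refl2 (ω : Cfg) (x y : V) :
    T (act refl2 ω) x y = T ω (x.1, -x.2) (y.1, -y.2) :=
  T_act refl2 (fun x y => by
    simp only [adj_iff, refl2, Equiv.coe_fn_mk]
    have : -x.2 - -y.2 = -(x.2 - y.2) := by ring
    rw [this, abs_neg]) ω x y

theorem T_swp (ω : Cfg) (x y : V) : T (act swp ω) x y = T ω (x.2, x.1) (y.2, y.1) :=
  T_act swp (fun x y => by
    simp only [adj_iff, swp, Equiv.prodComm_apply, Prod.fst_swap, Prod.snd_swap]
    rw [add_comm]) ω x y

end Pool.Agent.Work.MP_9a767b_pr
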