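import Mathlib

/-!
# Backtrack: a deterministic bound for the number of backtracking positions
-/

namespace Pool.Agent.Work.MP_9a767b_pr

namespace BacktrackAux

variable (T : ℕ → ℕ → ℝ)

theorem chain (hT0 : ∀ i j, 0 ≤ T i j) (hTs : ∀ i, T i i = 0)
    (hTt : ∀ i j l, T i l ≤ T i j + T j l) (s a b n : ℕ) (hab : a ≤ b) (hb : b ≤ n) :
    T (s + a) (s + b) ≤ ∑ i ∈ Finset.range n, T (s + i) (s + i + 1) := by
  have h1 : ∀ b, a ≤ b → T (s + a) (s + b) ≤ ∑ i ∈ Finset.Ico a b, T (s + i) (s + i + 1) := by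
    intro b hab
    induction b, hab using Nat.le_induction with
    | base => simp [hTs]
    | succ b hab ih =>
      rw [Finset.sum_Ico_succ_top hab]
      have := hTt (s + a) (s + b) (s + b + 1)
      rw [← add_assoc]
      linarith
  refine (h1 b hab).trans ?_
  refine Finset.sum_le_sum_of_subset_of_nonneg ?_ fun i _ _ => hT0 _ _
  intro i hi
  simp only [Finset.mem_Ico, Finset.mem_range] at *
  omega

end BacktrackAux

open BacktrackAux in
theorem backtrack (T : ℕ → ℕ → ℝ) (φ : ℕ → ℝ) (hT0 : ∀ i j, 0 ≤ T i j) (hTs : ∀ i, T i i = 0)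
    (hTc : ∀ i j, T i j = T j i) (hTt : ∀ i j l, T i l ≤ T i j + T j l)
    (hφ : ∀ i j, φ i ≤ T i j + φ j) (k K m : ℕ) (hk : 0 < k) (hkK : k ≤ K) (F Cw δ : ℝ)
    (hF : 0 < F) (hC : 0 ≤ Cw) (hδ : 0 ≤ δ) (bad : Finset ℕ)
    (hbad : ∀ r ∈ bad, r ≤ m * k) (hb : ∀ r ∈ bad, ∃ i, i + K ≤ r ∧ T i r + φ i ≤ φ r + δ) :
    (2 * F / k) * bad.card ≤ (1 + 2 * (k : ℝ) / K) *
      ((2 * F / k) * ((m : ℝ) * k) - T 0 (m * k) - (φ 0 - φ (m * k))
        + 2 * ∑ l ∈ Finset.range m, max (T (l * k) ((l + 1) * k) - F) 0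
        + 4 * ∑ l ∈ Finset.range m,
            max ((∑ i ∈ Finset.range k, T (l * k + i) (l * k + i + 1)) - Cw * k) 0
        + ((m : ℝ) * k / K) * (4 * Cw * k + δ)) := by
  classical
  set E1 : ℕ → ℝ := fun l => max (T (l * k) ((l + 1) * k) - F) 0 with hE1
  set E2 : ℕ → ℝ := fun l =>
    max ((∑ i ∈ Finset.range k, T (l * k + i) (l * k + i + 1)) - Cw * k) 0 with hE2
  have hE1n : ∀ l, 0 ≤ E1 l := fun l => le_max_right _ _
  have hE2n : ∀ l, 0 ≤ E2 l := fun l => le_max_right _ _
  have hTb : ∀ l, T (l * k) ((l + 1) * k) ≤ F + E1 l := fun l => by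
    have := le_max_left (T (l * k) ((l + 1) * k) - F) 0
    simp only [hE1]; linarith
  have hW : ∀ l, (∑ i ∈ Finset.range k, T (l * k + i) (l * k + i + 1)) ≤ Cw * k + E2 l :=
    fun l => by
      have := le_max_left ((∑ i ∈ Finset.range k, T (l * k + i) (l * k + i + 1)) - Cw * k) 0
      simp only [hE2]; linarith
  have hK : 0 < K := lt_of_lt_of_le hk hkK
  -- the main induction
  have main : ∀ l ≤ m, ∃ n1 M L : ℕ, (bad.filter (fun r => r ≤ l * k)).card ≤ L + 2 * k * M ∧
      M * K ≤ L ∧ n1 * k + L ≤ l * k ∧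
      T 0 (l * k) + φ 0 - φ (l * k) ≤ 2 * F * n1 + 2 * ∑ l' ∈ Finset.range l, E1 l' +
        M * (4 * Cw * k + δ) + 4 * ∑ l' ∈ Finset.range l, E2 l' := by
    intro l
    induction l using Nat.strong_induction_on with
    | _ l ih =>
    intro hlm
    rcases Nat.eq_zero_or_pos l with rfl | hl
    · refine ⟨0, 0, 0, ?_, by simp, by simp, by simp [hTs]⟩
      simp only [zero_mul, nonpos_iff_eq_zero, add_zero, mul_zero, Finset.card_eq_zero]
      rw [Finset.filter_eq_empty_iff]
      rintro r hr rfl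
      obtain ⟨i, hi, -⟩ := hb 0 hr
      omega
    obtain ⟨q, rfl⟩ : ∃ q, l = q + 1 := ⟨l - 1, by omega⟩
    by_cases hex : ∃ r ∈ bad, q * k < r ∧ r ≤ (q + 1) * k
    · obtain ⟨r, hr, hr1, hr2⟩ := hex
      obtain ⟨i, hi, hi2⟩ := hb r hr
      set l'' := i / k with hl''
      have hi3 : l'' * k ≤ i := Nat.div_mul_le_self i k
      have hi4 : i < (l'' + 1) * k := by
        rw [add_mul, one_mul]; exact Nat.lt_div_mul_add hk
      have hq1 : (q + 1) * k = q * k + k := by ring
      have hl1 : (l'' + 1) * k = l'' * k + k := by ring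
      have hlq : l'' ≤ q := by
        by_contra hcon
        have : q + 1 ≤ l'' := by omega
        have : (q + 1) * k ≤ l'' * k := Nat.mul_le_mul_right k this
        omega
      obtain ⟨n1, M, L, h1, h2, h3, h4⟩ := ih l'' (by omega) (by omega)
      have hlqk : l'' * k ≤ q * k := Nat.mul_le_mul_right k hlq
      refine ⟨n1, M + 1, L + (r - i), ?_, ?_, ?_, ?_⟩
      · have hsub : bad.filter (fun r => r ≤ (q + 1) * k) ⊆
            bad.filter (fun r => r ≤ l'' * k) ∪ Finset.Ioc (l'' * k) ((q + 1) * k) := by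
          intro x hx
          simp only [Finset.mem_union, Finset.mem_filter, Finset.mem_Ioc] at *
          by_cases hxx : x ≤ l'' * k
          · exact Or.inl ⟨hx.1, hxx⟩
          · exact Or.inr ⟨by omega, hx.2⟩
        have hc := (Finset.card_le_card hsub).trans (Finset.card_union_le _ _)
        rw [Nat.card_Ioc] at hc
        have : 2 * k * (M + 1) = 2 * k * M + 2 * k := by ring
        omega
      · have : (M + 1) * K = M * K + K := by ring
        omega
      · omega
      · have c1 : T (l'' * k) i ≤ Cw * k + E2 l'' := by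
          refine le_trans ?_ (hW l'')
          have := chain T hT0 hTs hTt (l'' * k) 0 (i - l'' * k) k (by omega) (by omega)
          rw [add_zero, Nat.add_sub_cancel' hi3] at this
          exact this
        have c2 : T r ((q + 1) * k) ≤ Cw * k + E2 q := by
          refine le_trans ?_ (hW q)
          have := chain T hT0 hTs hTt (q * k) (r - q * k) k k (by omega) le_rfl
          rw [Nat.add_sub_cancel' hr1.le, ← hq1] at this
          exact this
        have t1 := hTt 0 (l'' * k) ((q + 1) * k)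
        have t2 := hTt (l'' * k) i ((q + 1) * k)
        have t3 := hTt i r ((q + 1) * k)
        have p1 := hφ (l'' * k) i
        have p2 := hφ r ((q + 1) * k)
        have p3 : φ (l'' * k) - φ i ≤ T (l'' * k) i := by linarith
        have p4 : φ r - φ ((q + 1) * k) ≤ T r ((q + 1) * k) := by linarith
        have hs1 : ∑ l' ∈ Finset.range l'', E1 l' ≤ ∑ l' ∈ Finset.range (q + 1), E1 l' := by
          refine Finset.sum_le_sum_of_subset_of_nonneg ?_ fun _ _ _ => hE1n _
          exact Finset.range_mono (by omega)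
        have hs2 : ∑ l' ∈ Finset.range l'', E2 l' + (E2 l'' + E2 q) / 2 ≤
            ∑ l' ∈ Finset.range (q + 1), E2 l' := by
          rcases Nat.lt_or_ge l'' q with hlt | hge
          · have e1 : ∑ l' ∈ Finset.range l'', E2 l' + E2 l'' ≤ ∑ l' ∈ Finset.range q, E2 l' := by
              rw [← Finset.sum_range_succ]
              refine Finset.sum_le_sum_of_subset_of_nonneg ?_ fun _ _ _ => hE2n _
              exact Finset.range_mono (by omega)
            rw [Finset.sum_range_succ]
            have := hE2n l''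
            have := hE2n q
            linarith
          · have : l'' = q := le_antisymm hlq hge
            rw [this, Finset.sum_range_succ]
            linarith
        push_cast
        nlinarith [hE2n l'', hE2n q]
    · push Not at hex
      obtain ⟨n1, M, L, h1, h2, h3, h4⟩ := ih q (by omega) (by omega)
      refine ⟨n1 + 1, M, L, ?_, h2, ?_, ?_⟩
      · refine le_trans (Finset.card_le_card ?_) h1
        intro x hx
        simp only [Finset.mem_filter] at *
        refine ⟨hx.1, ?_⟩
        by_contra hcon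
        exact absurd (hex x hx.1 (by omega)) (by omega)
      · have : (n1 + 1) * k = n1 * k + k := by ring
        have : (q + 1) * k = q * k + k := by ring
        omega
      · have t1 := hTt 0 (q * k) ((q + 1) * k)
        have p1 := hφ (q * k) ((q + 1) * k)
        have := hTb q
        rw [Finset.sum_range_succ, Finset.sum_range_succ]
        have := hE2n q
        push_cast
        linarith
  obtain ⟨n1, M, L, h1, h2, h3, h4⟩ := main m le_rfl
  have hcard : bad.card ≤ L + 2 * k * M := by
    rw [Finset.filter_true_of_mem hbad] at h1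
    exact h1
  have hkR : (0 : ℝ) < k := by exact_mod_cast hk
  have hKR : (0 : ℝ) < K := by exact_mod_cast hK
  have h2R : (M : ℝ) * K ≤ L := by exact_mod_cast h2
  have h3R : (n1 : ℝ) * k + L ≤ (m : ℝ) * k := by exact_mod_cast h3
  have hcR : (bad.card : ℝ) ≤ L + 2 * k * M := by exact_mod_cast hcard
  have hLm : (L : ℝ) ≤ (m : ℝ) * k := by
    have : (0 : ℝ) ≤ (n1 : ℝ) * k := by positivity
    linarith
  have hM : (M : ℝ) ≤ L / K := by rw [le_div_iff₀ hKR]; exact h2R
  have hM2 : (M : ℝ) ≤ (m : ℝ) * k / K := hM.trans (by gcongr)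
  set a : ℝ := 2 * F / k with ha
  have ha0 : 0 < a := by positivity
  have hn1 : 2 * F * n1 ≤ a * ((m : ℝ) * k - L) := by
    have : 2 * F * n1 = a * (n1 * k) := by rw [ha]; field_simp
    rw [this]
    exact mul_le_mul_of_nonneg_left (by linarith) ha0.le
  have hMb : (M : ℝ) * (4 * Cw * k + δ) ≤ ((m : ℝ) * k / K) * (4 * Cw * k + δ) :=
    mul_le_mul_of_nonneg_right hM2 (by positivity)
  have hB : a * L ≤ a * ((m : ℝ) * k) - T 0 (m * k) - (φ 0 - φ (m * k))
        + 2 * ∑ l ∈ Finset.range m, E1 l + 4 * ∑ l ∈ Finset.range m, E2 l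
        + ((m : ℝ) * k / K) * (4 * Cw * k + δ) := by
    have : a * ((m : ℝ) * k - L) = a * ((m : ℝ) * k) - a * L := by ring
    linarith
  have hcR2 : (bad.card : ℝ) ≤ (1 + 2 * (k : ℝ) / K) * L := by
    refine hcR.trans ?_
    have : 2 * (k : ℝ) * M ≤ 2 * k * (L / K) := by gcongr
    calc (L : ℝ) + 2 * k * M ≤ L + 2 * k * (L / K) := by linarith
      _ = (1 + 2 * (k : ℝ) / K) * L := by ring
  calc a * bad.card ≤ a * ((1 + 2 * (k : ℝ) / K) * L) := by gcongr
    _ = (1 + 2 * (k : ℝ) / K) * (a * L) := by ring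
    _ ≤ _ := by gcongr

end Pool.Agent.Work.MP_9a767b_pr
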