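import Pool.Agent.Work.MP_9a767b_pr.BadIncl
import Pool.Agent.Work.MP_9a767b_pr.Backtrack

/-!
# BadExp: bound for the expected number of bad positions
-/

open MeasureTheory ProbabilityTheory Filter Topology

namespace Pool.Agent.Work.MP_9a767b_pr

theorem bad_exp {ν : Measure ℝ} [IsProbabilityMeasure ν]
    (hI : Integrable (fun ω => T ω 0 (1, 0)) (Q ν)) (n K k m : ℕ) (A : ℤ) (hk : 0 < k)
    (hkK : k ≤ K) (hg : 0 < g ν (k, 0)) (η : ℝ)
    (h1 : ∫ ω, |T ω 0 (k, 0) - g ν (k, 0)| ∂(Q ν) ≤ η)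
    (h2 : ∫ ω, |(∑ j ∈ Finset.range k, T ω (j, 0) ((j : ℤ) + 1, 0)) - k * g ν (1, 0)| ∂(Q ν) ≤ η) :
    (2 * g ν (k, 0) / k) * ∫ ω, ((badSet ω A n K (m * k)).card : ℝ) ∂(Q ν) ≤
      (1 + 2 * (k : ℝ) / K) * ((2 * g ν (k, 0) / k) * ((m : ℝ) * k) - g ν ((m : ℤ) * k, 0)
        - (g ν (-A, n) - g ν (-A - (m : ℤ) * k, n)) + 6 * m * η
        + ((m : ℝ) * k / K) * (4 * g ν (1, 0) * k + 1)) := by
  have hsub := subSym_g hI
  set F := g ν (k, 0) with hF
  set f1 := g ν (1, 0) with hf1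
  have hf0 : 0 ≤ f1 := hsub.nonneg _
  have hkR : (0 : ℝ) < k := by exact_mod_cast hk
  have hK : 0 < K := lt_of_lt_of_le hk hkK
  have hKR : (0 : ℝ) < K := by exact_mod_cast hK
  -- pointwise bound
  set D1 : ℕ → Cfg → ℝ := fun l ω =>
    |T ω (A + (l * k : ℕ), 0) (A + ((l + 1) * k : ℕ), 0) - F| with hD1
  set D2 : ℕ → Cfg → ℝ := fun l ω =>
    |(∑ i ∈ Finset.range k, T ω (A + (l * k + i : ℕ), 0) (A + (l * k + i + 1 : ℕ), 0)) - f1 * k|
    with hD2
  have hpt : ∀ ω, (2 * F / k) * ((badSet ω A n K (m * k)).card : ℝ) ≤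
      (1 + 2 * (k : ℝ) / K) * (((((2 * F / k) * ((m : ℝ) * k) -
        T ω (A + (0 : ℕ), 0) (A + (m * k : ℕ), 0)) - (T ω (A + (0 : ℕ), 0) (0, n) -
        T ω (A + (m * k : ℕ), 0) (0, n))) + 2 * ∑ l ∈ Finset.range m, D1 l ω)
        + 4 * ∑ l ∈ Finset.range m, D2 l ω
        + ((m : ℝ) * k / K) * (4 * f1 * k + 1)) := by
    intro ω
    have hb := backtrack (fun i j => T ω (A + i, 0) (A + j, 0)) (fun i => T ω (A + i, 0) (0, n))
      (fun i j => T_nonneg _ _ _) (fun i => T_self _ _) (fun i j => T_comm _ _ _)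
      (fun i j l => T_triangle _ _ _ _) (fun i j => T_triangle _ _ _ _) k K m hk hkK F f1 1 hg hf0
      zero_le_one (badSet ω A n K (m * k))
      (fun r hr => by
        simp only [badSet, Finset.mem_filter, Finset.mem_range] at hr
        omega)
      (fun r hr => by
        simp only [badSet, Finset.mem_filter, Finset.mem_range] at hr
        exact hr.2)
    refine hb.trans ?_
    have hc : (0 : ℝ) ≤ 1 + 2 * (k : ℝ) / K := by positivity
    refine mul_le_mul_of_nonneg_left ?_ hc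
    have e1 : ∑ l ∈ Finset.range m, max (T ω (A + (l * k : ℕ), 0) (A + ((l + 1) * k : ℕ), 0) - F) 0
        ≤ ∑ l ∈ Finset.range m, D1 l ω :=
      Finset.sum_le_sum fun l _ => max_le (le_abs_self _) (abs_nonneg _)
    have e2 : ∑ l ∈ Finset.range m, max ((∑ i ∈ Finset.range k,
        T ω (A + (l * k + i : ℕ), 0) (A + (l * k + i + 1 : ℕ), 0)) - f1 * k) 0
        ≤ ∑ l ∈ Finset.range m, D2 l ω :=
      Finset.sum_le_sum fun l _ => max_le (le_abs_self _) (abs_nonneg _)
    linarith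
  -- integrability
  have iT := fun x y => integrable_T hI x y
  have iD1 : ∀ l, Integrable (D1 l) (Q ν) := fun l => ((iT _ _).sub (integrable_const _)).abs
  have iD2 : ∀ l, Integrable (D2 l) (Q ν) := fun l =>
    ((integrable_finsetSum _ fun _ _ => iT _ _).sub (integrable_const _)).abs
  have iS1 : Integrable (fun ω => ∑ l ∈ Finset.range m, D1 l ω) (Q ν) :=
    integrable_finsetSum _ fun l _ => iD1 l
  have iS2 : Integrable (fun ω => ∑ l ∈ Finset.range m, D2 l ω) (Q ν) :=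
    integrable_finsetSum _ fun l _ => iD2 l
  have icard : Integrable (fun ω => ((badSet ω A n K (m * k)).card : ℝ)) (Q ν) := by
    refine (integrable_const ((m * k + 1 : ℕ) : ℝ)).mono'
      (measurable_badSet A n K (m * k)).aestronglyMeasurable (Eventually.of_forall fun ω => ?_)
    rw [Real.norm_eq_abs, abs_of_nonneg (by positivity)]
    have : (badSet ω A n K (m * k)).card ≤ m * k + 1 := by
      classical
      unfold badSet
      exact (Finset.card_filter_le _ _).trans (by simp)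
    exact_mod_cast this
  have i1 := iT (A + (0 : ℕ), 0) (A + (m * k : ℕ), 0)
  have i2 := iT (A + (0 : ℕ), 0) (0, n)
  have i3 := iT (A + (m * k : ℕ), 0) (0, n)
  have ii1 := (integrable_const (μ := Q ν) ((2 * F / k) * ((m : ℝ) * k))).sub i1
  have ii2 := ii1.sub (i2.sub i3)
  have ii3 := ii2.add (iS1.const_mul 2)
  have ii4 := ii3.add (iS2.const_mul 4)
  have ii5 := ii4.add (integrable_const (μ := Q ν) (((m : ℝ) * k / K) * (4 * f1 * k + 1)))
  have hint := integral_mono (icard.const_mul (2 * F / k)) (ii5.const_mul (1 + 2 * (k : ℝ) / K)) hpt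
  rw [integral_const_mul, integral_const_mul] at hint
  refine hint.trans ?_
  have hc : (0 : ℝ) ≤ 1 + 2 * (k : ℝ) / K := by positivity
  refine mul_le_mul_of_nonneg_left ?_ hc
  have a5 := integral_add (μ := Q ν) ii4 (integrable_const (((m : ℝ) * k / K) * (4 * f1 * k + 1)))
  have a4 := integral_add (μ := Q ν) ii3 (iS2.const_mul 4)
  have a3 := integral_add (μ := Q ν) ii2 (iS1.const_mul 2)
  have a2 := integral_sub (μ := Q ν) ii1 (i2.sub i3)
  have a1 := integral_sub (μ := Q ν) (integrable_const ((2 * F / k) * ((m : ℝ) * k))) i1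
  have a0 := integral_sub (μ := Q ν) i2 i3
  simp only [Pi.add_apply, Pi.sub_apply] at a5 a4 a3 a2 a1 a0 ⊢
  have s1 : ∫ ω, 2 * ∑ l ∈ Finset.range m, D1 l ω ∂(Q ν) =
      2 * ∑ l ∈ Finset.range m, ∫ ω, D1 l ω ∂(Q ν) := by
    rw [integral_const_mul, integral_finsetSum _ fun l _ => iD1 l]
  have s2 : ∫ ω, 4 * ∑ l ∈ Finset.range m, D2 l ω ∂(Q ν) =
      4 * ∑ l ∈ Finset.range m, ∫ ω, D2 l ω ∂(Q ν) := by
    rw [integral_const_mul, integral_finsetSum _ fun l _ => iD2 l]
  rw [a5, a4, a3, a2, a1, a0, s1, s2, integral_T, integral_T, integral_T, integral_const,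
    integral_const]
  have b1 : ∀ l, ∫ ω, D1 l ω ∂(Q ν) ≤ η := by
    intro l
    refine le_trans (le_of_eq ?_) h1
    have hm : Measurable (fun ω : Cfg => |T ω 0 (k, 0) - F|) :=
      ((measurable_T _ _).sub measurable_const).abs
    rw [← integral_comp_act ν (trans (A + (l * k : ℕ), 0)) _ hm]
    refine integral_congr_ae (Eventually.of_forall fun ω => ?_)
    simp only [hD1, T_trans, add_zero, Prod.mk_add_mk]
    congr 3
    push_cast; ring_nf
  have b2 : ∀ l, ∫ ω, D2 l ω ∂(Q ν) ≤ η := by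
    intro l
    refine le_trans (le_of_eq ?_) h2
    have hm : Measurable (fun ω : Cfg =>
        |(∑ j ∈ Finset.range k, T ω (j, 0) ((j : ℤ) + 1, 0)) - k * f1|) :=
      ((Finset.measurable_sum _ fun _ _ => measurable_T _ _).sub measurable_const).abs
    rw [← integral_comp_act ν (trans (A + (l * k : ℕ), 0)) _ hm]
    refine integral_congr_ae (Eventually.of_forall fun ω => ?_)
    simp only [hD2, T_trans, Prod.mk_add_mk, add_zero]
    rw [mul_comm f1]
    congr 2
    refine Finset.sum_congr rfl fun i _ => ?_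
    congr 2 <;> (push_cast; ring)
  have c1 : ∑ l ∈ Finset.range m, ∫ ω, D1 l ω ∂(Q ν) ≤ m * η := by
    refine (Finset.sum_le_sum fun l _ => b1 l).trans ?_
    simp
  have c2 : ∑ l ∈ Finset.range m, ∫ ω, D2 l ω ∂(Q ν) ≤ m * η := by
    refine (Finset.sum_le_sum fun l _ => b2 l).trans ?_
    simp
  have d1 : ((A + ((m * k : ℕ) : ℤ), 0) : V) - (A + ((0 : ℕ) : ℤ), 0) = (((m : ℤ) * k, 0) : V) := by
    ext <;> simp
  have d2 : ((0, (n : ℤ)) : V) - (A + ((0 : ℕ) : ℤ), 0) = ((-A, (n : ℤ)) : V) := by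
    ext <;> simp
  have d3 : ((0, (n : ℤ)) : V) - (A + ((m * k : ℕ) : ℤ), 0) = ((-A - (m : ℤ) * k, (n : ℤ)) : V) := by
    ext
    · simp; ring
    · simp
  rw [d1, d2, d3]
  simp only [probReal_univ, one_smul]
  linarith

end Pool.Agent.Work.MP_9a767b_pr
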