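import Pool.Agent.Work.MP_9a767b_pr.GFacts

/-!
# BadIncl: the sum of the probabilities of near backtracking as the expected number of bad positions
-/

open MeasureTheory ProbabilityTheory Filter Topology

namespace Pool.Agent.Work.MP_9a767b_pr

open Classical in
/-- The positions `r ≤ N` from which one can go back by at least `K` at almost no loss (the target is `(0, n)`, the
position `r` is the point `(A + r, 0)`). -/
noncomputable def badSet (ω : Cfg) (A : ℤ) (n K N : ℕ) : Finset ℕ :=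
  (Finset.range (N + 1)).filter (fun r => ∃ i : ℕ, i + K ≤ r ∧
    T ω (A + i, 0) (A + r, 0) + T ω (A + i, 0) (0, n) ≤ T ω (A + r, 0) (0, n) + 1)

/-- The event that the position `r` is bad. -/
def badEv (A : ℤ) (n K r : ℕ) : Set Cfg := {ω | ∃ i : ℕ, i + K ≤ r ∧
    T ω (A + i, 0) (A + r, 0) + T ω (A + i, 0) (0, n) ≤ T ω (A + r, 0) (0, n) + 1}

theorem measurableSet_badEv (A : ℤ) (n K r : ℕ) : MeasurableSet (badEv A n K r) := by
  have : badEv A n K r = ⋃ i : ℕ, {ω | i + K ≤ r ∧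
    T ω (A + i, 0) (A + r, 0) + T ω (A + i, 0) (0, n) ≤ T ω (A + r, 0) (0, n) + 1} := by
    ext ω; simp [badEv]
  rw [this]
  refine MeasurableSet.iUnion fun i => ?_
  by_cases h : i + K ≤ r
  · simp only [h, true_and]
    exact measurableSet_le ((measurable_T _ _).add (measurable_T _ _))
      ((measurable_T _ _).add measurable_const)
  · simp only [h, false_and]
    exact MeasurableSet.empty

theorem card_badSet (ω : Cfg) (A : ℤ) (n K N : ℕ) :
    ((badSet ω A n K N).card : ℝ) =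
      ∑ r ∈ Finset.range (N + 1), (badEv A n K r).indicator (fun _ => (1 : ℝ)) ω := by
  classical
  unfold badSet
  rw [Finset.card_filter]
  push_cast
  refine Finset.sum_congr rfl fun r _ => ?_
  unfold badEv
  rw [Set.indicator_apply]
  rfl

theorem measurable_badSet (A : ℤ) (n K N : ℕ) :
    Measurable (fun ω : Cfg => ((badSet ω A n K N).card : ℝ)) := by
  simp_rw [card_badSet]
  exact Finset.measurable_sum _ fun r _ =>
    measurable_const.indicator (measurableSet_badEv A n K r)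

theorem integral_badSet {ν : Measure ℝ} [IsProbabilityMeasure ν] (A : ℤ) (n K N : ℕ) :
    ∫ ω, ((badSet ω A n K N).card : ℝ) ∂(Q ν) =
      ∑ r ∈ Finset.range (N + 1), (Q ν).real (badEv A n K r) := by
  simp_rw [card_badSet]
  rw [integral_finsetSum]
  · refine Finset.sum_congr rfl fun r _ => ?_
    exact integral_indicator_one (measurableSet_badEv A n K r)
  · intro r _
    exact (integrable_const (1 : ℝ)).indicator (measurableSet_badEv A n K r)

theorem bad_incl {ν : Measure ℝ} [IsProbabilityMeasure ν] (n K N : ℕ) (A a b : ℤ) (B : ℝ)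
    (h1 : ∀ X ∈ Finset.Icc a b, (K : ℤ) - X - A ≤ N)
    (h2 : ∀ X ∈ Finset.Icc a b, ∀ i : ℤ, -B ≤ (i : ℝ) → A ≤ i - X) :
    ∑ X ∈ Finset.Icc a b,
        (Q ν).real {ω | ∃ i : ℤ, -B ≤ (i : ℝ) ∧ i ≤ 0 ∧
          T ω (K, 0) (i, 0) + T ω (i, 0) (X, n) ≤ T ω (K, 0) (X, n) + 1}
      ≤ ∫ ω, ((badSet ω A n K N).card : ℝ) ∂(Q ν) := by
  classical
  rw [integral_badSet]
  rcases lt_or_ge B 0 with hB | hB
  · have h0 : ∀ X ∈ Finset.Icc a b, (Q ν).real {ω | ∃ i : ℤ, -B ≤ (i : ℝ) ∧ i ≤ 0 ∧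
          T ω (K, 0) (i, 0) + T ω (i, 0) (X, n) ≤ T ω (K, 0) (X, n) + 1} = 0 := by
      intro X _
      have : {ω : Cfg | ∃ i : ℤ, -B ≤ (i : ℝ) ∧ i ≤ 0 ∧
          T ω (K, 0) (i, 0) + T ω (i, 0) (X, n) ≤ T ω (K, 0) (X, n) + 1} = ∅ := by
        ext ω
        simp only [Set.mem_setOf_eq, Set.mem_empty_iff_false, iff_false]
        rintro ⟨i, hi1, hi2, -⟩
        have : (i : ℝ) ≤ 0 := by exact_mod_cast hi2
        linarith
      rw [this, measureReal_empty]
    rw [Finset.sum_congr rfl h0, Finset.sum_const_zero]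
    exact Finset.sum_nonneg fun _ _ => measureReal_nonneg
  have hpos : ∀ X ∈ Finset.Icc a b, 0 ≤ -X - A := by
    intro X hX
    have := h2 X hX 0 (by simpa using hB)
    omega
  have hmeas : ∀ X : ℤ, MeasurableSet {ω : Cfg | ∃ i : ℤ, -B ≤ (i : ℝ) ∧ i ≤ 0 ∧
          T ω (K, 0) (i, 0) + T ω (i, 0) (X, n) ≤ T ω (K, 0) (X, n) + 1} := by
    intro X
    have : {ω : Cfg | ∃ i : ℤ, -B ≤ (i : ℝ) ∧ i ≤ 0 ∧
          T ω (K, 0) (i, 0) + T ω (i, 0) (X, n) ≤ T ω (K, 0) (X, n) + 1} =
        ⋃ i : ℤ, {ω : Cfg | -B ≤ (i : ℝ) ∧ i ≤ 0 ∧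
          T ω (K, 0) (i, 0) + T ω (i, 0) (X, n) ≤ T ω (K, 0) (X, n) + 1} := by
      ext ω; simp
    rw [this]
    refine MeasurableSet.iUnion fun i => ?_
    by_cases hi1 : -B ≤ (i : ℝ)
    · by_cases hi2 : i ≤ 0
      · simp only [hi1, hi2, true_and]
        exact measurableSet_le ((measurable_T _ _).add (measurable_T _ _))
          ((measurable_T _ _).add measurable_const)
      · simp only [hi2, false_and, and_false]
        exact MeasurableSet.empty
    · simp only [hi1, false_and]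
      exact MeasurableSet.empty
  have hle : ∀ X ∈ Finset.Icc a b, (Q ν).real {ω | ∃ i : ℤ, -B ≤ (i : ℝ) ∧ i ≤ 0 ∧
          T ω (K, 0) (i, 0) + T ω (i, 0) (X, n) ≤ T ω (K, 0) (X, n) + 1} ≤
        (Q ν).real (badEv A n K ((K : ℤ) - X - A).toNat) := by
    intro X hX
    rw [← real_act ν (trans (-X, 0)) _ (hmeas X)]
    refine measureReal_mono ?_ (measure_ne_top _ _)
    rintro ω ⟨i, hi1, hi2, hi3⟩
    have hi4 := h2 X hX i hi1
    have hp := hpos X hX
    refine ⟨(i - X - A).toNat, by omega, ?_⟩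
    have e1 : A + ((i - X - A).toNat : ℤ) = -X + i := by
      rw [Int.toNat_of_nonneg (by omega)]; ring
    have e2 : A + (((K : ℤ) - X - A).toNat : ℤ) = -X + K := by
      rw [Int.toNat_of_nonneg (by omega)]; ring
    rw [e1, e2]
    simp only [T_trans, Prod.mk_add_mk, zero_add, neg_add_cancel] at hi3
    rw [T_comm ω (-X + i, 0) (-X + K, 0)]
    exact hi3
  refine (Finset.sum_le_sum hle).trans ?_
  have hinj : Set.InjOn (fun X : ℤ => ((K : ℤ) - X - A).toNat) (Finset.Icc a b : Set ℤ) := by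
    intro X hX Y hY h
    have h3 := hpos X (by exact_mod_cast hX)
    have h4 := hpos Y (by exact_mod_cast hY)
    simp only at h
    omega
  rw [← Finset.sum_image (f := fun r => (Q ν).real (badEv A n K r)) hinj]
  refine Finset.sum_le_sum_of_subset_of_nonneg ?_ fun _ _ _ => measureReal_nonneg
  intro r hr
  obtain ⟨X, hX, rfl⟩ := Finset.mem_image.1 hr
  have := h1 X hX
  rw [Finset.mem_range]
  omega

end Pool.Agent.Work.MP_9a767b_pr
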