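import Pool.Agent.Work.MP_9a767b_pr.NormA

/-!
# NormB: properties of the limiting norm (deterministic)
-/

open Filter Topology

namespace Pool.Agent.Work.MP_9a767b_pr

namespace NormAux

theorem lim_le {u v : ℕ → ℝ} {A B : ℝ} (c : ℝ) (h : ∀ n, u n ≤ v n + c)
    (hu : Tendsto (fun n : ℕ => u n / (n : ℝ)) atTop (𝓝 A))
    (hv : Tendsto (fun n : ℕ => v n / (n : ℝ)) atTop (𝓝 B)) : A ≤ B := by
  have h2 : Tendsto (fun n : ℕ => c / (n : ℝ)) atTop (𝓝 0) :=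
    tendsto_const_div_atTop_nhds_zero_nat _
  have h3 := hv.add h2
  rw [add_zero] at h3
  refine le_of_tendsto_of_tendsto' hu h3 fun n => ?_
  rw [← add_div]
  exact div_le_div_of_nonneg_right (h n) (by positivity)

theorem lim_eq {u v : ℕ → ℝ} {A B : ℝ} (c : ℝ) (h : ∀ n, |u n - v n| ≤ c)
    (hu : Tendsto (fun n : ℕ => u n / (n : ℝ)) atTop (𝓝 A))
    (hv : Tendsto (fun n : ℕ => v n / (n : ℝ)) atTop (𝓝 B)) : A = B := by
  refine le_antisymm (lim_le c (fun n => ?_) hu hv) (lim_le c (fun n => ?_) hv hu)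
  · have := (abs_le.1 (h n)).2; linarith
  · have := (abs_le.1 (h n)).1; linarith

theorem floor_sub (x y : ℝ) : |((⌊x⌋ : ℤ) : ℝ) - ((⌊y⌋ : ℤ) : ℝ)| ≤ |x - y| + 1 := by
  have h1 := Int.floor_le x
  have h2 := Int.lt_floor_add_one x
  have h3 := Int.floor_le y
  have h4 := Int.lt_floor_add_one y
  rw [abs_le]
  constructor
  · have := neg_abs_le (x - y); linarith
  · have := le_abs_self (x - y); linarith

theorem h_diff {h : V → ℝ} (hh : SubSym h) (a b a' b' : ℤ) :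
    |h (a, b) - h (a', b')| ≤ h (1, 0) * (|(a : ℝ) - a'| + |(b : ℝ) - b'|) := by
  refine (sub_lip hh _ _).trans ?_
  rw [Prod.mk_sub_mk]
  refine (sub_le hh _ _).trans (le_of_eq ?_)
  push_cast
  rfl

end NormAux

open NormAux

theorem nm_lip {h : V → ℝ} (hh : SubSym h) (a b a' b' : ℝ) :
    |Nm h a b - Nm h a' b'| ≤ h (1, 0) * (|a - a'| + |b - b'|) := by
  have hf0 : 0 ≤ h (1, 0) := hh.nonneg _
  have key : ∀ a b a' b' : ℝ, Nm h a b ≤ Nm h a' b' + h (1, 0) * (|a - a'| + |b - b'|) := by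
    intro a b a' b'
    have h1 := nm_tendsto hh a b
    have h2 := (nm_tendsto hh a' b').add (tendsto_const_nhds
      (x := h (1, 0) * (|a - a'| + |b - b'|)))
    have h3 : Tendsto (fun n : ℕ => (h (1, 0) * 2) / (n : ℝ)) atTop (𝓝 0) :=
      tendsto_const_div_atTop_nhds_zero_nat _
    have h4 := h2.add h3
    rw [add_zero] at h4
    refine le_of_tendsto_of_tendsto h1 h4 ?_
    filter_upwards [eventually_gt_atTop 0] with n hn
    have hn' : (0 : ℝ) < n := by exact_mod_cast hn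
    have e1 := (abs_le.1 (h_diff hh ⌊(n : ℝ) * a⌋ ⌊(n : ℝ) * b⌋ ⌊(n : ℝ) * a'⌋ ⌊(n : ℝ) * b'⌋)).2
    have e2 := floor_sub ((n : ℝ) * a) ((n : ℝ) * a')
    have e3 := floor_sub ((n : ℝ) * b) ((n : ℝ) * b')
    rw [← mul_sub, abs_mul, abs_of_pos hn'] at e2 e3
    have e4 : h (1, 0) * (|((⌊(n : ℝ) * a⌋ : ℤ) : ℝ) - ((⌊(n : ℝ) * a'⌋ : ℤ) : ℝ)| +
        |((⌊(n : ℝ) * b⌋ : ℤ) : ℝ) - ((⌊(n : ℝ) * b'⌋ : ℤ) : ℝ)|) ≤
        h (1, 0) * ((n * |a - a'| + 1) + (n * |b - b'| + 1)) := by gcongr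
    rw [div_add' _ _ _ hn'.ne', ← add_div]
    refine div_le_div_of_nonneg_right ?_ hn'.le
    nlinarith
  rw [abs_le]
  constructor
  · have := key a' b' a b
    rw [abs_sub_comm a' a, abs_sub_comm b' b] at this
    linarith
  · have := key a b a' b'
    linarith

theorem nm_swap {h : V → ℝ} (hh : SubSym h) (a b : ℝ) : Nm h a b = Nm h b a := by
  refine tendsto_nhds_unique (nm_tendsto hh a b) ((nm_tendsto hh b a).congr fun n => ?_)
  rw [hh.swap]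

namespace NormAux

theorem nm_neg1 {h : V → ℝ} (hh : SubSym h) (a b : ℝ) : Nm h (-a) b = Nm h a b := by
  refine lim_eq (h (1, 0)) (fun n => ?_) (nm_tendsto hh (-a) b) (nm_tendsto hh a b)
  rw [← hh.flip1 ⌊(n : ℝ) * a⌋]
  refine (h_diff hh _ _ _ _).trans ?_
  rw [sub_self, abs_zero, add_zero]
  have hf0 : 0 ≤ h (1, 0) := hh.nonneg _
  refine mul_le_of_le_one_right hf0 ?_
  have e : (n : ℝ) * (-a) = -((n : ℝ) * a) := by ring
  rw [e]
  have h1 := Int.floor_le ((n : ℝ) * a)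
  have h2 := Int.lt_floor_add_one ((n : ℝ) * a)
  have h3 := Int.floor_le (-((n : ℝ) * a))
  have h4 := Int.lt_floor_add_one (-((n : ℝ) * a))
  push_cast
  have h5 : ((⌊-((n : ℝ) * a)⌋ : ℤ) : ℝ) - -((⌊(n : ℝ) * a⌋ : ℤ) : ℝ) > -2 := by linarith
  have h6 : (⌊-((n : ℝ) * a)⌋ : ℤ) + ⌊(n : ℝ) * a⌋ > -2 := by
    have : ((⌊-((n : ℝ) * a)⌋ + ⌊(n : ℝ) * a⌋ : ℤ) : ℝ) > -2 := by push_cast; linarith
    exact_mod_cast this
  have h7 : ((⌊-((n : ℝ) * a)⌋ + ⌊(n : ℝ) * a⌋ : ℤ) : ℝ) ≥ -1 := by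
    exact_mod_cast (by omega : (⌊-((n : ℝ) * a)⌋ : ℤ) + ⌊(n : ℝ) * a⌋ ≥ -1)
  push_cast at h7
  rw [abs_le]
  constructor <;> linarith

theorem nm_neg2 {h : V → ℝ} (hh : SubSym h) (a b : ℝ) : Nm h a (-b) = Nm h a b := by
  rw [nm_swap hh, nm_neg1 hh, nm_swap hh]

theorem nm_zero {h : V → ℝ} (hh : SubSym h) : Nm h 0 0 = 0 := by
  refine tendsto_nhds_unique (nm_tendsto hh 0 0) ?_
  have : h ((0 : ℤ), (0 : ℤ)) = 0 := hh.zero
  simp [this]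

theorem nm_smul {h : V → ℝ} (hh : SubSym h) (t : ℝ) (ht : 0 ≤ t) (a b : ℝ) :
    Nm h (t * a) (t * b) = t * Nm h a b := by
  rcases eq_or_lt_of_le ht with rfl | ht
  · simp [nm_zero hh]
  have hN : Tendsto (fun n : ℕ => ⌊t * (n : ℝ)⌋₊) atTop atTop := by
    refine tendsto_nat_floor_atTop.comp ?_
    exact (tendsto_natCast_atTop_atTop).const_mul_atTop ht
  have h1 := (nm_tendsto hh a b).comp hN
  have h2 : Tendsto (fun n : ℕ => (⌊t * (n : ℝ)⌋₊ : ℝ) / (n : ℝ)) atTop (𝓝 t) :=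
    (tendsto_nat_floor_mul_div_atTop ht.le).comp tendsto_natCast_atTop_atTop
  have h3 := h2.mul h1
  have h4 : Tendsto (fun n : ℕ => h (⌊(⌊t * (n : ℝ)⌋₊ : ℝ) * a⌋, ⌊(⌊t * (n : ℝ)⌋₊ : ℝ) * b⌋) /
      (n : ℝ)) atTop (𝓝 (t * Nm h a b)) := by
    refine h3.congr' ?_
    filter_upwards [hN.eventually_gt_atTop 0, eventually_gt_atTop 0] with n h5 h6
    simp only [Function.comp]
    have h7 : (0 : ℝ) < (⌊t * (n : ℝ)⌋₊ : ℝ) := by exact_mod_cast h5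
    have h8 : (0 : ℝ) < (n : ℝ) := by exact_mod_cast h6
    field_simp
  have hf0 : 0 ≤ h (1, 0) := hh.nonneg _
  refine lim_eq (h (1, 0) * ((|a| + 1) + (|b| + 1))) (fun n => ?_)
    (nm_tendsto hh (t * a) (t * b)) h4
  refine (h_diff hh _ _ _ _).trans ?_
  have key : ∀ c : ℝ, |((⌊(n : ℝ) * (t * c)⌋ : ℤ) : ℝ) -
      ((⌊(⌊t * (n : ℝ)⌋₊ : ℝ) * c⌋ : ℤ) : ℝ)| ≤ |c| + 1 := by
    intro c
    refine (floor_sub _ _).trans ?_
    have e : (n : ℝ) * (t * c) - (⌊t * (n : ℝ)⌋₊ : ℝ) * c =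
      (t * (n : ℝ) - (⌊t * (n : ℝ)⌋₊ : ℝ)) * c := by ring
    rw [e, abs_mul]
    have h5 : |t * (n : ℝ) - (⌊t * (n : ℝ)⌋₊ : ℝ)| ≤ 1 := by
      have h6 := Nat.floor_le (by positivity : 0 ≤ t * (n : ℝ))
      have h7 := Nat.lt_floor_add_one (t * (n : ℝ))
      rw [abs_le]; constructor <;> linarith
    have := mul_le_mul_of_nonneg_right h5 (abs_nonneg c)
    linarith
  have k1 := key a
  have k2 := key b
  gcongr

theorem nm_add {h : V → ℝ} (hh : SubSym h) (a b a' b' : ℝ) :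
    Nm h (a + a') (b + b') ≤ Nm h a b + Nm h a' b' := by
  have hf0 : 0 ≤ h (1, 0) := hh.nonneg _
  have h1 : Tendsto (fun n : ℕ => (h (⌊(n : ℝ) * a⌋, ⌊(n : ℝ) * b⌋) +
      h (⌊(n : ℝ) * a'⌋, ⌊(n : ℝ) * b'⌋)) / (n : ℝ)) atTop (𝓝 (Nm h a b + Nm h a' b')) := by
    refine ((nm_tendsto hh a b).add (nm_tendsto hh a' b')).congr fun n => ?_
    rw [add_div]
  refine lim_le (h (1, 0) * 2) (fun n => ?_) (nm_tendsto hh (a + a') (b + b')) h1
  have e1 := hh.add_le (⌊(n : ℝ) * a⌋, ⌊(n : ℝ) * b⌋) (⌊(n : ℝ) * a'⌋, ⌊(n : ℝ) * b'⌋)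
  rw [Prod.mk_add_mk] at e1
  have e2 := (abs_le.1 (h_diff hh ⌊(n : ℝ) * (a + a')⌋ ⌊(n : ℝ) * (b + b')⌋
    (⌊(n : ℝ) * a⌋ + ⌊(n : ℝ) * a'⌋) (⌊(n : ℝ) * b⌋ + ⌊(n : ℝ) * b'⌋))).2
  have key : ∀ c c' : ℝ, |((⌊(n : ℝ) * (c + c')⌋ : ℤ) : ℝ) -
      ((⌊(n : ℝ) * c⌋ + ⌊(n : ℝ) * c'⌋ : ℤ) : ℝ)| ≤ 1 := by
    intro c c'
    rw [mul_add]
    have h1 := Int.le_floor_add ((n : ℝ) * c) ((n : ℝ) * c')
    have h2 := Int.le_floor_add_floor ((n : ℝ) * c) ((n : ℝ) * c')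
    have h1' : (((⌊(n : ℝ) * c⌋ + ⌊(n : ℝ) * c'⌋ : ℤ)) : ℝ) ≤
      ((⌊(n : ℝ) * c + (n : ℝ) * c'⌋ : ℤ) : ℝ) := by exact_mod_cast h1
    have h2' : ((⌊(n : ℝ) * c + (n : ℝ) * c'⌋ : ℤ) : ℝ) ≤
      (((⌊(n : ℝ) * c⌋ + ⌊(n : ℝ) * c'⌋ : ℤ)) : ℝ) + 1 := by
      have : ⌊(n : ℝ) * c + (n : ℝ) * c'⌋ ≤ ⌊(n : ℝ) * c⌋ + ⌊(n : ℝ) * c'⌋ + 1 := by linarith
      exact_mod_cast this
    rw [abs_le]; constructor <;> linarith
  have e3 : h (1, 0) * (|((⌊(n : ℝ) * (a + a')⌋ : ℤ) : ℝ) -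
      ((⌊(n : ℝ) * a⌋ + ⌊(n : ℝ) * a'⌋ : ℤ) : ℝ)| + |((⌊(n : ℝ) * (b + b')⌋ : ℤ) : ℝ) -
      ((⌊(n : ℝ) * b⌋ + ⌊(n : ℝ) * b'⌋ : ℤ) : ℝ)|) ≤ h (1, 0) * 2 := by
    have k1 := key a a'
    have k2 := key b b'
    have : (2 : ℝ) = 1 + 1 := by norm_num
    rw [this]
    gcongr
  linarith

theorem nm_axis {h : V → ℝ} (hh : SubSym h) (a : ℝ) : Nm h a 0 = Nm h 1 0 * |a| := by
  have h1 : Nm h |a| 0 = Nm h 1 0 * |a| := by
    have := nm_smul hh |a| (abs_nonneg a) 1 0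
    rw [mul_one, mul_zero] at this
    rw [this]; ring
  rcases le_total 0 a with ha | ha
  · rw [abs_of_nonneg ha] at h1 ⊢; exact h1
  · rw [abs_of_nonpos ha] at h1 ⊢
    rw [← nm_neg1 hh]; exact h1

end NormAux

theorem isNm {h : V → ℝ} (hh : SubSym h) : IsNm (Nm h) (Nm h 1 0) where
  add_le := nm_add hh
  smul t ht a b := nm_smul hh t ht a b
  neg1 := nm_neg1 hh
  neg2 := nm_neg2 hh
  one := rfl
  ge1 a b := by
    have h1 := nm_add hh a b a (-b)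
    rw [add_neg_cancel, nm_neg2 hh, nm_axis hh] at h1
    have : |a + a| = 2 * |a| := by rw [← two_mul, abs_mul]; norm_num
    rw [this] at h1
    linarith
  ge2 a b := by
    have h1 := nm_add hh b a b (-a)
    rw [add_neg_cancel, nm_neg2 hh, nm_axis hh, nm_swap hh b a] at h1
    have : |b + b| = 2 * |b| := by rw [← two_mul, abs_mul]; norm_num
    rw [this] at h1
    linarith
  le a b := by
    have h1 := nm_add hh a 0 0 b
    rw [add_zero, zero_add, nm_axis hh a, nm_swap hh 0 b, nm_axis hh b] at h1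
    linarith

theorem nm_le {h : V → ℝ} (hh : SubSym h) (x : V) : Nm h x.1 x.2 ≤ h x := by
  have key : ∀ n : ℕ, h ((n : ℤ) * x.1, (n : ℤ) * x.2) ≤ n * h x := by
    intro n
    induction n with
    | zero =>
      have : h ((0 : ℤ), (0 : ℤ)) = 0 := hh.zero
      simp [this]
    | succ n ih =>
      have h1 := hh.add_le ((n : ℤ) * x.1, (n : ℤ) * x.2) x
      have e : (((n : ℤ) * x.1, (n : ℤ) * x.2) : V) + x =
        (((n + 1 : ℕ) : ℤ) * x.1, ((n + 1 : ℕ) : ℤ) * x.2) := by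
        ext
        · simp; ring
        · simp; ring
      rw [e] at h1
      push_cast at h1 ⊢
      linarith
  refine le_of_tendsto (nm_tendsto_int hh x.1 x.2) ?_
  filter_upwards [eventually_gt_atTop 0] with n hn
  have hn' : (0 : ℝ) < n := by exact_mod_cast hn
  rw [div_le_iff₀ hn']
  linarith [key n]

theorem nm_mono {h : V → ℝ} (hh : SubSym h) {a a' : ℝ} (b : ℝ) (h0 : 0 ≤ a) (h1 : a ≤ a') :
    Nm h a b ≤ Nm h a' b := by
  rcases eq_or_lt_of_le (h0.trans h1) with ha | ha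
  · have : a = a' := by linarith
    rw [this]
  · set s : ℝ := (1 + a / a') / 2 with hs
    have hr : a / a' ≤ 1 := by rw [div_le_one ha]; exact h1
    have hr0 : 0 ≤ a / a' := by positivity
    have hs0 : 0 ≤ s := by positivity
    have hs1 : 0 ≤ 1 - s := by rw [hs]; linarith
    have h2 := nm_add hh (s * a') (s * b) ((1 - s) * (-a')) ((1 - s) * b)
    rw [nm_smul hh s hs0, nm_smul hh (1 - s) hs1, nm_neg1 hh] at h2
    have e1 : s * a' + (1 - s) * -a' = a := by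
      rw [hs]; field_simp; ring
    have e2 : s * b + (1 - s) * b = b := by ring
    rw [e1, e2] at h2
    linarith

end Pool.Agent.Work.MP_9a767b_pr
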