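import Pool.Agent.Work.MP_9a767b_pr.StepLLN
import Pool.Agent.Work.MP_9a767b_pr.NormB

/-!
# LLN: L¹ convergence of the passage times in a fixed direction
-/

open MeasureTheory ProbabilityTheory Filter Topology

namespace Pool.Agent.Work.MP_9a767b_pr

theorem T_chain (ω : Cfg) (z : ℕ → V) (q : ℕ) :
    T ω (z 0) (z q) ≤ ∑ j ∈ Finset.range q, T ω (z j) (z (j + 1)) := by
  induction q with
  | zero => simp [T_self]
  | succ q ih =>
    rw [Finset.sum_range_succ]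
    have := T_triangle ω (z 0) (z q) (z (q + 1))
    linarith

theorem integrable_step {ν : Measure ℝ} [IsProbabilityMeasure ν]
    (hI : Integrable (fun ω => T ω 0 (1, 0)) (Q ν)) (s : Finset ℕ) (x y : ℕ → V) (c : ℝ) :
    Integrable (fun ω => |(∑ j ∈ s, T ω (x j) (y j)) - c|) (Q ν) :=
  ((integrable_finsetSum _ fun _ _ => integrable_T hI _ _).sub (integrable_const _)).abs

theorem lln {ν : Measure ℝ} [IsProbabilityMeasure ν]
    (hI : Integrable (fun ω => T ω 0 (1, 0)) (Q ν)) (u : V) {ε : ℝ} (hε : 0 < ε) :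
    ∃ m0 : ℕ, ∀ m : ℕ, m0 ≤ m →
      ∫ ω, |T ω 0 ((m : ℤ) • u) - m * Nm (g ν) u.1 u.2| ∂(Q ν) ≤ ε * m := by
  have hsub := subSym_g hI
  set N := Nm (g ν) u.1 u.2 with hN
  have hf0 : 0 ≤ g ν (1, 0) := hsub.nonneg _
  obtain ⟨k, hk0, hk⟩ : ∃ k : ℕ, 0 < k ∧ g ν ((k : ℤ) * u.1, (k : ℤ) * u.2) ≤ k * (N + ε / 8) := by
    have h1 := (nm_tendsto_int hsub u.1 u.2).eventually_lt_const
      (show N < N + ε / 8 by linarith)
    obtain ⟨k, hk1, hk2⟩ := (h1.and (eventually_gt_atTop 0)).exists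
    refine ⟨k, hk2, ?_⟩
    have : (0 : ℝ) < k := by exact_mod_cast hk2
    rw [div_lt_iff₀ this] at hk1
    linarith
  have hkR : (0 : ℝ) < k := by exact_mod_cast hk0
  set w : V := (k : ℤ) • u with hw
  have hgw : g ν w ≤ k * (N + ε / 8) := hk
  obtain ⟨q0, hq0⟩ := step_lln hI w (show 0 < ε / 8 by positivity)
  set c0 : ℝ := g ν (1, 0) * (k * (|(u.1 : ℝ)| + |(u.2 : ℝ)|)) with hc0
  have hc00 : 0 ≤ c0 := by positivity
  obtain ⟨m1, hm1⟩ := exists_nat_ge (4 * c0 / ε)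
  refine ⟨q0 * k + m1 + 1, fun m hm => ?_⟩
  set q := m / k with hq
  have hqq : q0 ≤ q := by
    rw [hq, Nat.le_div_iff_mul_le hk0]; omega
  have hqk : q * k ≤ m := Nat.div_mul_le_self m k
  have hqk2 : m < q * k + k := Nat.lt_div_mul_add hk0
  have hqkR : (q : ℝ) * k ≤ m := by exact_mod_cast hqk
  have hmpos : (0 : ℝ) < m := by exact_mod_cast (by omega : 0 < m)
  have hstep := hq0 q hqq 0
  simp only [zero_add] at hstep
  -- the remainder
  have hrem : ∫ ω, T ω ((q : ℤ) • w) ((m : ℤ) • u) ∂(Q ν) ≤ c0 := by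
    rw [integral_T]
    have e : (m : ℤ) • u - (q : ℤ) • w = (((m : ℤ) - q * k) * u.1, ((m : ℤ) - q * k) * u.2) := by
      rw [hw]; ext
      · simp; ring
      · simp; ring
    rw [e]
    refine (sub_le hsub _ _).trans ?_
    rw [hc0]
    push_cast
    rw [abs_mul, abs_mul, ← mul_add]
    have h1 : |((m : ℝ) - q * k)| ≤ k := by
      rw [abs_of_nonneg (by linarith)]
      have : (m : ℝ) ≤ q * k + k := by exact_mod_cast hqk2.le
      linarith
    gcongr
  have hgm : m * N ≤ g ν ((m : ℤ) • u) := by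
    have h1 := nm_le hsub ((m : ℤ) • u)
    have h2 := (isNm hsub).smul (m : ℝ) (by positivity) u.1 u.2
    have e1 : ((((m : ℤ) • u).1 : ℤ) : ℝ) = (m : ℝ) * u.1 := by simp
    have e2 : ((((m : ℤ) • u).2 : ℤ) : ℝ) = (m : ℝ) * u.2 := by simp
    rw [e1, e2, h2] at h1
    exact h1
  have hN0 : 0 ≤ N := by
    have h1 := (isNm hsub).ge1 u.1 u.2
    have h2 : 0 ≤ Nm (g ν) 1 0 := by
      refine ge_of_tendsto (nm_tendsto hsub 1 0) (Eventually.of_forall fun n => ?_)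
      have := hsub.nonneg (⌊(n : ℝ) * 1⌋, ⌊(n : ℝ) * 0⌋)
      positivity
    exact (mul_nonneg h2 (abs_nonneg _)).trans h1
  have hqg : q * g ν w ≤ m * N + m * (ε / 8) := by
    calc (q : ℝ) * g ν w ≤ q * (k * (N + ε / 8)) := by gcongr
      _ = (q * k) * (N + ε / 8) := by ring
      _ ≤ m * (N + ε / 8) := by gcongr
      _ = _ := by ring
  have hpt : ∀ ω, |T ω 0 ((m : ℤ) • u) - m * N| ≤
      (2 * |(∑ j ∈ Finset.range q, T ω ((j : ℤ) • w) (((j : ℤ) + 1) • w)) - q * g ν w| +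
        (2 * T ω ((q : ℤ) • w) ((m : ℤ) • u) - T ω 0 ((m : ℤ) • u))) +
        (m * (ε / 4) + m * N) := by
    intro ω
    have h1 := T_chain ω (fun j => (j : ℤ) • w) q
    simp only [Nat.cast_zero, zero_smul, Nat.cast_add, Nat.cast_one] at h1
    have h2 := T_triangle ω 0 ((q : ℤ) • w) ((m : ℤ) • u)
    have h3 := le_abs_self ((∑ j ∈ Finset.range q, T ω ((j : ℤ) • w) (((j : ℤ) + 1) • w)) -
      q * g ν w)
    have h4 := T_nonneg ω ((q : ℤ) • w) ((m : ℤ) • u)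
    have h5 := abs_nonneg ((∑ j ∈ Finset.range q, T ω ((j : ℤ) • w) (((j : ℤ) + 1) • w)) -
      q * g ν w)
    have h6 : 0 ≤ m * (ε / 8) := by positivity
    rw [abs_le]
    constructor
    · nlinarith
    · nlinarith
  have i1 := integrable_step hI (Finset.range q) (fun j => (j : ℤ) • w)
    (fun j => ((j : ℤ) + 1) • w) (q * g ν w)
  have i2 := integrable_T hI ((q : ℤ) • w) ((m : ℤ) • u)
  have i3 := integrable_T hI 0 ((m : ℤ) • u)
  have hint := integral_mono ((i3.sub (integrable_const (m * N))).abs)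
    (((i1.const_mul 2).add ((i2.const_mul 2).sub i3)).add (integrable_const _)) hpt
  have e1 : ∫ ω, ((2 * |(∑ j ∈ Finset.range q, T ω ((j : ℤ) • w) (((j : ℤ) + 1) • w)) -
        q * g ν w| + (2 * T ω ((q : ℤ) • w) ((m : ℤ) • u) - T ω 0 ((m : ℤ) • u))) +
        (m * (ε / 4) + m * N)) ∂(Q ν) =
      2 * (∫ ω, |(∑ j ∈ Finset.range q, T ω ((j : ℤ) • w) (((j : ℤ) + 1) • w)) -
        q * g ν w| ∂(Q ν)) + (2 * (∫ ω, T ω ((q : ℤ) • w) ((m : ℤ) • u) ∂(Q ν)) -
        g ν ((m : ℤ) • u)) + (m * (ε / 4) + m * N) := by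
    have a1 := integral_add (μ := Q ν) ((i1.const_mul 2).add ((i2.const_mul 2).sub i3))
      (integrable_const (m * (ε / 4) + m * N))
    have a2 := integral_add (μ := Q ν) (i1.const_mul 2) ((i2.const_mul 2).sub i3)
    have a3 := integral_sub (μ := Q ν) (i2.const_mul 2) i3
    simp only [Pi.add_apply, Pi.sub_apply] at a1 a2 a3
    rw [a1, a2, a3, integral_const_mul, integral_const_mul]
    simp [g]
  have hint2 : ∫ ω, |T ω 0 ((m : ℤ) • u) - m * N| ∂(Q ν) ≤ 2 * (∫ ω, |(∑ j ∈ Finset.range q,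
      T ω ((j : ℤ) • w) (((j : ℤ) + 1) • w)) - q * g ν w| ∂(Q ν)) +
      (2 * (∫ ω, T ω ((q : ℤ) • w) ((m : ℤ) • u) ∂(Q ν)) -
        g ν ((m : ℤ) • u)) + (m * (ε / 4) + m * N) := hint.trans (le_of_eq e1)
  have hq1 : (q : ℝ) ≤ m := by exact_mod_cast Nat.div_le_self m k
  have h7 : ε / 8 * (q : ℝ) ≤ ε / 8 * m := by gcongr
  have h8 : 4 * c0 ≤ ε * m := by
    have : 4 * c0 / ε ≤ m := hm1.trans (by exact_mod_cast (by omega : m1 ≤ m))
    rw [div_le_iff₀ hε] at this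
    linarith
  nlinarith

end Pool.Agent.Work.MP_9a767b_pr
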