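import Pool.Agent.Work.MP_9a767b_pr.NormB

/-!
# NormUnif: uniform convergence to the norm (deterministic)
-/

open Filter Topology

namespace Pool.Agent.Work.MP_9a767b_pr

/-- Approximation of an integer of size `≤ C n` by a multiple of `n / J` with bounded factor. -/
theorem grid_pt {C : ℝ} (hC : 0 < C) {J n : ℕ} (hJ : 0 < J) (hn : 0 < n) (x : ℤ)
    (hx : |(x : ℝ)| ≤ C * n) :
    ∃ a : ℤ, |(a : ℝ)| ≤ C * J + 1 ∧
      |(x : ℝ) - (((n / J : ℕ) : ℤ) * a : ℤ)| ≤ (n : ℝ) / J + C * J + 1 := by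
  have hJ' : (0 : ℝ) < J := by exact_mod_cast hJ
  have hn' : (0 : ℝ) < n := by exact_mod_cast hn
  refine ⟨⌊(x : ℝ) * J / n⌋, ?_, ?_⟩
  · have h1 := Int.floor_le ((x : ℝ) * J / n)
    have h2 := Int.lt_floor_add_one ((x : ℝ) * J / n)
    have h3 : |(x : ℝ) * J / n| ≤ C * J := by
      rw [abs_div, abs_mul, abs_of_pos hJ', abs_of_pos hn', div_le_iff₀ hn']
      calc |(x : ℝ)| * J ≤ C * n * J := by gcongr
        _ = C * J * n := by ring
    rw [abs_le] at h3 ⊢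
    constructor <;> linarith
  · set a := ⌊(x : ℝ) * J / n⌋ with ha
    have h1 := Int.floor_le ((x : ℝ) * J / n)
    have h2 := Int.lt_floor_add_one ((x : ℝ) * J / n)
    rw [← ha] at h1 h2
    have h3 : |(x : ℝ) * J / n| ≤ C * J := by
      rw [abs_div, abs_mul, abs_of_pos hJ', abs_of_pos hn', div_le_iff₀ hn']
      calc |(x : ℝ)| * J ≤ C * n * J := by gcongr
        _ = C * J * n := by ring
    have hab : |(a : ℝ)| ≤ C * J + 1 := by
      rw [abs_le] at h3 ⊢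
      constructor <;> linarith
    have e1 : (x : ℝ) - (((n / J : ℕ) : ℤ) * a : ℤ) =
        ((x : ℝ) * J / n - a) * (n / J) + ((n : ℝ) / J - ((n / J : ℕ) : ℝ)) * a := by
      rw [Int.cast_mul, Int.cast_natCast]
      field_simp
      ring
    rw [e1]
    have h4 : |(x : ℝ) * J / n - a| ≤ 1 := by rw [abs_le]; constructor <;> linarith
    have h5 : |(n : ℝ) / J - ((n / J : ℕ) : ℝ)| ≤ 1 := by
      have h6 : ((n / J : ℕ) : ℝ) ≤ (n : ℝ) / J := Nat.cast_div_le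
      have h7 : n < (n / J + 1) * J := by
        have e1 := Nat.div_add_mod n J
        have e2 := Nat.mod_lt n hJ
        calc n = J * (n / J) + n % J := e1.symm
          _ < J * (n / J) + J := by omega
          _ = (n / J + 1) * J := by ring
      have h8 : (n : ℝ) < (((n / J : ℕ) : ℝ) + 1) * J := by exact_mod_cast h7
      rw [← div_lt_iff₀ hJ'] at h8
      rw [abs_le]; constructor <;> linarith
    have h9 : |((x : ℝ) * J / n - a) * (n / J)| ≤ 1 * (n / J) := by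
      rw [abs_mul, abs_of_pos (by positivity : (0 : ℝ) < n / J)]
      gcongr
    have h10 : |((n : ℝ) / J - ((n / J : ℕ) : ℝ)) * a| ≤ 1 * (C * J + 1) := by
      rw [abs_mul]; gcongr
    refine (abs_add_le _ _).trans ?_
    linarith

theorem nm_unif {h : V → ℝ} (hh : SubSym h) {ε C : ℝ} (hε : 0 < ε) (hC : 0 < C) :
    ∃ n0 : ℕ, ∀ n : ℕ, n0 ≤ n → ∀ x : V, |(x.1 : ℝ)| ≤ C * n → |(x.2 : ℝ)| ≤ C * n →
      |h x - Nm h x.1 x.2| ≤ ε * n := by
  set f1 := h (1, 0) with hf1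
  have hf0 : 0 ≤ f1 := hh.nonneg _
  obtain ⟨J, hJ⟩ := exists_nat_gt (16 * f1 / ε)
  have hJ0 : (0 : ℝ) < J := lt_of_le_of_lt (by positivity) hJ
  have hJn : 0 < J := by exact_mod_cast hJ0
  obtain ⟨D, hD⟩ := exists_nat_ge (C * J + 1)
  have hev : ∀ᶠ k : ℕ in atTop, ∀ a ∈ Finset.Icc (-(D : ℤ)) D, ∀ b ∈ Finset.Icc (-(D : ℤ)) D,
      |h ((k : ℤ) * a, (k : ℤ) * b) - k * Nm h a b| ≤ ε / 4 * k := by
    rw [eventually_all_finset]
    intro a _
    rw [eventually_all_finset]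
    intro b _
    have := (Metric.tendsto_nhds.1 (nm_tendsto_int hh a b)) (ε / 4) (by positivity)
    filter_upwards [this, eventually_gt_atTop 0] with k hk hk0
    have hk' : (0 : ℝ) < k := by exact_mod_cast hk0
    rw [Real.dist_eq] at hk
    have e : h ((k : ℤ) * a, (k : ℤ) * b) - k * Nm h a b =
        (h ((k : ℤ) * a, (k : ℤ) * b) / k - Nm h a b) * k := by field_simp
    rw [e, abs_mul, abs_of_pos hk']
    gcongr
  obtain ⟨k0, hk0⟩ := eventually_atTop.1 hev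
  obtain ⟨n1, hn1⟩ := exists_nat_ge (16 * f1 * (C * J + 1) / ε)
  refine ⟨J * k0 + n1 + 1, fun n hn x hx1 hx2 => ?_⟩
  have hn0 : 0 < n := by omega
  have hn' : (0 : ℝ) < n := by exact_mod_cast hn0
  obtain ⟨a, ha1, ha2⟩ := grid_pt hC hJn hn0 x.1 hx1
  obtain ⟨b, hb1, hb2⟩ := grid_pt hC hJn hn0 x.2 hx2
  set k := n / J with hk
  have hkk : k0 ≤ k := by
    rw [hk, Nat.le_div_iff_mul_le hJn]; nlinarith
  have hmem : ∀ c : ℤ, |(c : ℝ)| ≤ C * J + 1 → c ∈ Finset.Icc (-(D : ℤ)) D := by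
    intro c hc
    have := abs_le.1 (hc.trans hD)
    rw [Finset.mem_Icc]
    constructor
    · exact_mod_cast this.1
    · exact_mod_cast this.2
  have h1 := hk0 k hkk a (hmem a ha1) b (hmem b hb1)
  have h2 := NormAux.h_diff hh x.1 x.2 ((k : ℤ) * a) ((k : ℤ) * b)
  have h3 := nm_lip hh ((k : ℝ) * a) ((k : ℝ) * b) (x.1 : ℝ) (x.2 : ℝ)
  rw [(isNm hh).smul k (by positivity)] at h3
  have ha2' : |(x.1 : ℝ) - (k : ℝ) * a| ≤ (n : ℝ) / J + C * J + 1 := by
    push_cast at ha2; exact ha2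
  have hb2' : |(x.2 : ℝ) - (k : ℝ) * b| ≤ (n : ℝ) / J + C * J + 1 := by
    push_cast at hb2; exact hb2
  have h4 : f1 * (|(x.1 : ℝ) - (k : ℝ) * a| + |(x.2 : ℝ) - (k : ℝ) * b|) ≤
      f1 * (((n : ℝ) / J + C * J + 1) + ((n : ℝ) / J + C * J + 1)) := by gcongr
  push_cast at h2
  rw [abs_sub_comm ((k : ℝ) * a), abs_sub_comm ((k : ℝ) * b)] at h3
  have hkn : (k : ℝ) ≤ n := by exact_mod_cast Nat.div_le_self n J
  have h5 : |h x - Nm h x.1 x.2| ≤ |h (x.1, x.2) - h ((k : ℤ) * a, (k : ℤ) * b)| +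
      |h ((k : ℤ) * a, (k : ℤ) * b) - k * Nm h a b| + |k * Nm h a b - Nm h x.1 x.2| := by
    have e : h x - Nm h x.1 x.2 = (h (x.1, x.2) - h ((k : ℤ) * a, (k : ℤ) * b)) +
      (h ((k : ℤ) * a, (k : ℤ) * b) - k * Nm h a b) + (k * Nm h a b - Nm h x.1 x.2) := by
      ring
    rw [e]
    exact (abs_add_le _ _).trans (add_le_add (abs_add_le _ _) le_rfl)
  have h6 : 4 * f1 * ((n : ℝ) / J) ≤ ε / 4 * n := by
    have : 16 * f1 / ε < J := hJ
    rw [div_lt_iff₀ hε] at this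
    rw [← mul_div_assoc, div_le_iff₀ hJ0]
    nlinarith
  have h7 : 4 * f1 * (C * J + 1) ≤ ε / 4 * n := by
    have : 16 * f1 * (C * J + 1) / ε ≤ n := hn1.trans (by exact_mod_cast (by omega : n1 ≤ n))
    rw [div_le_iff₀ hε] at this
    linarith
  have h8 : ε / 4 * (k : ℝ) ≤ ε / 4 * n := by gcongr
  nlinarith

end Pool.Agent.Work.MP_9a767b_pr
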