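import Pool.Agent.Work.MP_9a767b_pr.BadExp
import Pool.Agent.Work.MP_9a767b_pr.LLN
import Pool.Agent.Work.MP_9a767b_pr.NormUnif

/-!
# BadSum: near backtracking is rare on average
-/

open MeasureTheory ProbabilityTheory Filter Topology

namespace Pool.Agent.Work.MP_9a767b_pr

theorem exists_block {ν : Measure ℝ} [IsProbabilityMeasure ν]
    (hI : Integrable (fun ω => T ω 0 (1, 0)) (Q ν)) {ε : ℝ} (hε : 0 < ε) :
    ∃ k : ℕ, 0 < k ∧ g ν (k, 0) ≤ k * (Nm (g ν) 1 0 + ε) ∧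
      ∫ ω, |T ω 0 (k, 0) - g ν (k, 0)| ∂(Q ν) ≤ ε * k ∧
      ∫ ω, |(∑ j ∈ Finset.range k, T ω (j, 0) ((j : ℤ) + 1, 0)) - k * g ν (1, 0)| ∂(Q ν)
        ≤ ε * k := by
  set μ := Nm (g ν) 1 0 with hμ
  obtain ⟨m1, hm1⟩ := lln hI (1, 0) (half_pos hε)
  obtain ⟨m2, hm2⟩ := step_lln hI (1, 0) hε
  refine ⟨m1 + m2 + 1, by omega, ?_⟩
  set k := m1 + m2 + 1 with hk
  have h1 := hm1 k (by omega)
  have h2 := hm2 k (by omega) 0
  have e0 : (k : ℤ) • ((1, 0) : V) = ((k : ℤ), 0) := by ext <;> simp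
  rw [e0] at h1
  simp only [Int.cast_one, Int.cast_zero] at h1
  rw [← hμ] at h1
  have iT := integrable_T hI 0 ((k : ℤ), 0)
  have h3 : |g ν (k, 0) - k * μ| ≤ ε / 2 * k := by
    refine le_trans ?_ h1
    have e : g ν (k, 0) - k * μ = ∫ ω, (T ω 0 (k, 0) - k * μ) ∂(Q ν) := by
      rw [integral_sub iT (integrable_const _)]
      simp [g]
    rw [e]
    exact abs_integral_le_integral_abs
  have hk0 : (0 : ℝ) < k := by exact_mod_cast (by omega : 0 < k)
  refine ⟨?_, ?_, ?_⟩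
  · have := (abs_le.1 h3).2
    nlinarith
  · have hpt : ∀ ω, |T ω 0 (k, 0) - g ν (k, 0)| ≤ |T ω 0 (k, 0) - k * μ| + |g ν (k, 0) - k * μ| := by
      intro ω
      have e : T ω 0 (k, 0) - g ν (k, 0) = (T ω 0 (k, 0) - k * μ) - (g ν (k, 0) - k * μ) := by ring
      rw [e]
      exact abs_sub _ _
    have i1 : Integrable (fun ω => |T ω 0 (k, 0) - k * μ|) (Q ν) :=
      (iT.sub (integrable_const _)).abs
    have hint := integral_mono ((iT.sub (integrable_const (g ν (k, 0)))).abs)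
      (i1.add (integrable_const |g ν (k, 0) - k * μ|)) hpt
    have e1 : ∫ ω, (|T ω 0 (k, 0) - k * μ| + |g ν (k, 0) - k * μ|) ∂(Q ν) =
        ∫ ω, |T ω 0 (k, 0) - k * μ| ∂(Q ν) + |g ν (k, 0) - k * μ| := by
      rw [integral_add i1 (integrable_const _)]; simp
    have h4 : ∫ ω, |T ω 0 (k, 0) - g ν (k, 0)| ∂(Q ν) ≤
        ∫ ω, |T ω 0 (k, 0) - k * μ| ∂(Q ν) + |g ν (k, 0) - k * μ| := hint.trans (le_of_eq e1)
    linarith
  · refine le_trans (le_of_eq ?_) h2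
    refine integral_congr_ae (Eventually.of_forall fun ω => ?_)
    simp only
    congr 2
    refine Finset.sum_congr rfl fun j _ => ?_
    have e1 : (0 : V) + (j : ℤ) • ((1, 0) : V) = ((j : ℤ), 0) := by ext <;> simp
    have e2 : (0 : V) + ((j : ℤ) + 1) • ((1, 0) : V) = ((j : ℤ) + 1, 0) := by ext <;> simp
    rw [e1, e2]

theorem bad_sum {ν : Measure ℝ} [IsProbabilityMeasure ν]
    (hI : Integrable (fun ω => T ω 0 (1, 0)) (Q ν)) (hμ : 0 < Nm (g ν) 1 0) {x1 x3 ε : ℝ}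
    (hx1 : 0 < x1) (hx : x1 < x3) (hε : 0 < ε)
    (hs : (Nm (g ν) 1 0 - ε) * (x3 - x1) ≤ Nm (g ν) x3 1 - Nm (g ν) x1 1) :
    ∃ K0 : ℕ, ∀ K : ℕ, K0 ≤ K → ∃ n0 : ℕ, ∀ n : ℕ, n0 ≤ n →
      ∑ X ∈ Finset.Icc ⌈x1 * n⌉ ⌊(x1 + x3) / 2 * n⌋,
        (Q ν).real {ω | ∃ i : ℤ, -((x3 - x1) / 2 * n) ≤ (i : ℝ) ∧ i ≤ 0 ∧
          T ω (K, 0) (i, 0) + T ω (i, 0) (X, n) ≤ T ω (K, 0) (X, n) + 1}
        ≤ 40 * (ε / Nm (g ν) 1 0) * ((x3 - x1) * n) := by
  have hsub := subSym_g hI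
  set μ := Nm (g ν) 1 0 with hμd
  set f1 := g ν (1, 0) with hf1
  have hf0 : 0 ≤ f1 := hsub.nonneg _
  set D := x3 - x1 with hD
  have hD0 : 0 < D := by rw [hD]; linarith
  obtain ⟨k, hk, hkF, hk1, hk2⟩ := exists_block hI (half_pos hε)
  have hkR : (0 : ℝ) < k := by exact_mod_cast hk
  set F := g ν (k, 0) with hF
  have hFk : k * μ ≤ F := by
    have h1 := (isNm hsub).ge1 (k : ℝ) 0
    have h2 := nm_le hsub ((k : ℤ), 0)
    simp only [Int.cast_natCast, Int.cast_zero] at h2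
    rw [abs_of_pos hkR] at h1
    linarith
  have hFpos : 0 < F := lt_of_lt_of_le (by positivity) hFk
  obtain ⟨c1, hc1⟩ := exists_nat_ge ((4 * f1 * k + 1) / ε)
  refine ⟨k + c1 + 1, fun K hK => ?_⟩
  have hKR : (0 : ℝ) < K := by exact_mod_cast (by omega : 0 < K)
  have hkK : k ≤ K := by omega
  have hkKR : (k : ℝ) ≤ K := by exact_mod_cast hkK
  have hKε : (4 * f1 * k + 1) / K ≤ ε := by
    rw [div_le_iff₀ hKR]
    have : (4 * f1 * k + 1) / ε ≤ K := hc1.trans (by exact_mod_cast (by omega : c1 ≤ K))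
    rw [div_le_iff₀ hε] at this
    linarith
  obtain ⟨n1, hn1⟩ := nm_unif hsub (show 0 < ε * D by positivity) (show 0 < |x1| + 1 by positivity)
  obtain ⟨n2, hn2⟩ := exists_nat_ge (((μ + 8 * ε) * (K + k + 2) + f1 * (K + k + 4)) / (ε * D))
  refine ⟨n1 + n2 + K + k + 3, fun n hn => ?_⟩
  have hn0 : (0 : ℝ) < n := by exact_mod_cast (by omega : 0 < n)
  have hsmall : (μ + 8 * ε) * (K + k + 2) + f1 * (K + k + 4) ≤ ε * D * n := by
    have : ((μ + 8 * ε) * (K + k + 2) + f1 * (K + k + 4)) / (ε * D) ≤ n :=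
      hn2.trans (by exact_mod_cast (by omega : n2 ≤ n))
    rw [div_le_iff₀ (by positivity)] at this
    linarith
  set A : ℤ := -⌊x3 * n⌋ with hA
  set m : ℕ := ⌈(D * n + K + 2) / k⌉₊ with hm
  have hm1 : D * n + K + 2 ≤ m * k := by
    have := Nat.le_ceil ((D * n + K + 2) / k)
    rw [div_le_iff₀ hkR] at this
    exact this
  have hm2 : (m : ℝ) * k ≤ D * n + K + 2 + k := by
    have := Nat.ceil_lt_add_one (show 0 ≤ (D * n + K + 2) / k by positivity)
    rw [← hm] at this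
    have h3 : (m : ℝ) * k < ((D * n + K + 2) / k + 1) * k := by gcongr
    have h4 : ((D * n + K + 2) / k + 1) * k = D * n + K + 2 + k := by field_simp
    linarith
  have hfl1 := Int.floor_le (x3 * (n : ℝ))
  have hfl2 := Int.lt_floor_add_one (x3 * (n : ℝ))
  have hAR1 : -(x3 * n) ≤ (A : ℝ) := by rw [hA]; push_cast; linarith
  have hAR2 : (A : ℝ) < -(x3 * n) + 1 := by rw [hA]; push_cast; linarith
  -- inclusion
  have hincl := bad_incl (ν := ν) n K (m * k) A ⌈x1 * n⌉ ⌊(x1 + x3) / 2 * n⌋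
    ((x3 - x1) / 2 * n)
    (fun X hX => by
      rw [Finset.mem_Icc] at hX
      have h3 : x1 * n ≤ X := Int.ceil_le.1 hX.1
      have h4 : (K : ℝ) - X - A ≤ m * k := by rw [hD] at hm1; linarith
      exact_mod_cast h4)
    (fun X hX i hi => by
      rw [Finset.mem_Icc] at hX
      have h3 : (X : ℝ) ≤ (x1 + x3) / 2 * n := Int.le_floor.1 hX.2
      have h4 : ((X - i : ℤ) : ℝ) ≤ x3 * n := by push_cast; linarith
      have h5 := Int.le_floor.2 h4
      rw [hA]; omega)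
  refine hincl.trans ?_
  set S := ∫ ω, ((badSet ω A n K (m * k)).card : ℝ) ∂(Q ν) with hS
  have hS0 : 0 ≤ S := integral_nonneg fun ω => by positivity
  have hexp := bad_exp hI n K k m A hk hkK hFpos (ε / 2 * k) hk1 hk2
  rw [← hS, ← hF, ← hf1] at hexp
  -- bounds
  have b1 : (2 * F / k) * ((m : ℝ) * k) ≤ (2 * μ + ε) * (m * k) := by
    refine mul_le_mul_of_nonneg_right ?_ (by positivity)
    rw [div_le_iff₀ hkR]; nlinarith
  have b2 : μ * (m * k) ≤ g ν ((m : ℤ) * k, 0) := by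
    have h1 := (isNm hsub).ge1 ((m : ℝ) * k) 0
    have h2 := nm_le hsub ((m : ℤ) * k, 0)
    simp only [Int.cast_mul, Int.cast_natCast, Int.cast_zero] at h2
    rw [abs_of_nonneg (by positivity)] at h1
    linarith
  have b3 : n * Nm (g ν) x3 1 - f1 ≤ g ν (-A, n) := by
    have h2 := nm_le hsub (-A, (n : ℤ))
    have h3 := (abs_le.1 (nm_lip hsub (x3 * n) n ((-A : ℤ) : ℝ) n)).2
    rw [sub_self, abs_zero, add_zero] at h3
    have h4 : |x3 * n - ((-A : ℤ) : ℝ)| ≤ 1 := by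
      push_cast; rw [abs_le]; constructor <;> linarith
    have h5 : f1 * |x3 * n - ((-A : ℤ) : ℝ)| ≤ f1 * 1 := by gcongr
    have h6 := (isNm hsub).smul n hn0.le x3 1
    rw [mul_one, mul_comm (n : ℝ) x3] at h6
    simp only [Int.cast_natCast] at h2
    linarith
  have b4 : g ν (-A - (m : ℤ) * k, n) ≤ n * Nm (g ν) x1 1 + f1 * (K + k + 3) + ε * D * n := by
    have hdiff : |((-A - (m : ℤ) * k : ℤ) : ℝ) - x1 * n| ≤ K + k + 3 := by
      push_cast; rw [abs_le]; constructor <;> linarith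
    have hKn : (K : ℝ) + k + 3 ≤ n := by exact_mod_cast (by omega : K + k + 3 ≤ n)
    have h1 := hn1 n (by omega) (-A - (m : ℤ) * k, n)
      (by
        have h3 : ((-A - (m : ℤ) * k : ℤ) : ℝ) = (((-A - (m : ℤ) * k : ℤ) : ℝ) - x1 * n) + x1 * n := by
          ring
        simp only
        rw [h3]
        refine (abs_add_le _ _).trans ?_
        rw [abs_mul, abs_of_pos hn0]
        linarith)
      (by
        simp only [Int.cast_natCast]
        rw [abs_of_pos hn0]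
        nlinarith [abs_nonneg x1])
    have h2 := (abs_le.1 h1).2
    simp only [Int.cast_natCast] at h2
    have h3 := (abs_le.1 (nm_lip hsub ((-A - (m : ℤ) * k : ℤ) : ℝ) n (x1 * n) n)).2
    rw [sub_self, abs_zero, add_zero] at h3
    have h5 : f1 * |((-A - (m : ℤ) * k : ℤ) : ℝ) - x1 * n| ≤ f1 * (K + k + 3) := by gcongr
    have h6 := (isNm hsub).smul n hn0.le x1 1
    rw [mul_one, mul_comm (n : ℝ) x1] at h6
    linarith
  have b5 : ((m : ℝ) * k / K) * (4 * f1 * k + 1) ≤ ε * (m * k) := by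
    have : ((m : ℝ) * k / K) * (4 * f1 * k + 1) = ((4 * f1 * k + 1) / K) * (m * k) := by ring
    rw [this]
    gcongr
  have b6 : n * ((μ - ε) * D) ≤ n * (Nm (g ν) x3 1 - Nm (g ν) x1 1) := by gcongr
  have hbr : (2 * F / k) * ((m : ℝ) * k) - g ν ((m : ℤ) * k, 0)
        - (g ν (-A, n) - g ν (-A - (m : ℤ) * k, n)) + 6 * m * (ε / 2 * k)
        + ((m : ℝ) * k / K) * (4 * f1 * k + 1) ≤ 11 * ε * D * n := by
    have h7 : (μ + 8 * ε) * (m * k) ≤ (μ + 8 * ε) * (D * n + K + 2 + k) := by gcongr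
    have h8 : 0 ≤ ε * (m * k) := by positivity
    nlinarith
  have hc3 : 1 + 2 * (k : ℝ) / K ≤ 3 := by
    have : 2 * (k : ℝ) / K ≤ 2 := by rw [div_le_iff₀ hKR]; linarith
    linarith
  have hc0 : 0 ≤ 1 + 2 * (k : ℝ) / K := by positivity
  have h9 : (2 * F / k) * S ≤ 3 * (11 * ε * D * n) := by
    refine hexp.trans ((mul_le_mul_of_nonneg_left hbr hc0).trans ?_)
    gcongr
  have h10 : 2 * μ * S ≤ (2 * F / k) * S := by
    refine mul_le_mul_of_nonneg_right ?_ hS0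
    rw [le_div_iff₀ hkR]; linarith
  have h11 : 40 * (ε / μ) * (D * n) = 40 * ε * D * n / μ := by ring
  rw [h11, le_div_iff₀ hμ]
  have h12 : 0 ≤ ε * D * n := by positivity
  nlinarith

end Pool.Agent.Work.MP_9a767b_pr
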