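import Pool.Agent.Work.MP_9a767b_pr.Metric

/-!
# Boundary: far vertices are separated from the origin by the boundary of a square
-/

open MeasureTheory ProbabilityTheory Filter Topology

namespace Pool.Agent.Work.MP_9a767b_pr

private theorem step_max {u v : V} (h : lattice.Adj u v) :
    max |v.1| |v.2| ≤ max |u.1| |u.2| + 1 := by
  rw [adj_iff] at h
  rcases abs_cases (u.1 - v.1) with h1 | h1 <;> rcases abs_cases (u.2 - v.2) with h2 | h2 <;>
  rcases abs_cases u.1 with h3 | h3 <;> rcases abs_cases u.2 with h4 | h4 <;>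
  rcases abs_cases v.1 with h5 | h5 <;> rcases abs_cases v.2 with h6 | h6 <;> omega

private theorem exists_level (m : ℤ) {x y : V} (w : lattice.Walk x y)
    (hx : max |x.1| |x.2| ≤ m) (hy : m ≤ max |y.1| |y.2|) :
    ∃ v ∈ w.support, max |v.1| |v.2| = m := by
  induction w with
  | @nil u => exact ⟨u, by simp, le_antisymm hx hy⟩
  | @cons u v w h p ih =>
    rcases eq_or_lt_of_le hx with h1 | h1
    · exact ⟨u, by simp, h1⟩
    · have h2 : max |v.1| |v.2| ≤ m := by
        have := step_max h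
        omega
      obtain ⟨z, hz, hz2⟩ := ih h2 hy
      exact ⟨z, by simp [hz], hz2⟩

theorem pt_boundary {c : Sym2 V → ℝ} (hc : ∀ e, 0 ≤ c e) (m : ℤ) (hm : 0 ≤ m) (w : V)
    (hw : m ≤ |w.1| ∨ m ≤ |w.2|) {δ : ℝ} (hδ : 0 < δ) :
    ∃ v : V, ((|v.1| = m ∧ |v.2| ≤ m) ∨ (|v.1| ≤ m ∧ |v.2| = m)) ∧ pt c 0 v < pt c 0 w + δ := by
  obtain ⟨P, hP⟩ := exists_near c 0 w hδ
  obtain ⟨v, hv, hv2⟩ := exists_level m P (by simpa using hm) (le_max_iff.2 hw)
  refine ⟨v, ?_, ?_⟩
  · rcases max_cases |v.1| |v.2| with h | h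
    · left; omega
    · right; omega
  · have h1 := pt_split hc P hv
    have h2 := pt_nonneg hc v w
    linarith

end Pool.Agent.Work.MP_9a767b_pr
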