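import Pool.Agent.Work.MP_9a767b_pr.LineV
import Pool.Agent.Work.MP_9a767b_pr.Boundary

/-!
# Box: passage times to all far points are large

Let `μ = Nm (g ν) 1 0 > 0`. If `T 0 w ≤ μ m/2` for some `w` with `|w|_∞ ≥ m`, then by `pt_boundary` with
`δ = μ m / 8` there is `v` with `|v|_∞ = m` and `T 0 v < 5 μ m/8`. But `Nm v ≥ μ m` (`ge1`, `ge2`), so
`|T 0 v - Nm v| > 3 μ m/8`. The four sides of the square are segments of the lines `(±m, t)`, `(t, ±m)`,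
`|t| ≤ m`: apply `line_h`, `line_v` with `p = 0`, `b = ±m`, `C = 1`, `ε' = min (ε/4) (μ/4)`, `n = m`.
-/

open MeasureTheory ProbabilityTheory Filter Topology

namespace Pool.Agent.Work.MP_9a767b_pr

theorem box {ν : Measure ℝ} [IsProbabilityMeasure ν]
    (hI : Integrable (fun ω => T ω 0 (1, 0)) (Q ν)) (hμ : 0 < Nm (g ν) 1 0) {ε : ℝ} (hε : 0 < ε) :
    ∃ m0 : ℕ, ∀ m : ℕ, m0 ≤ m →
      (Q ν).real {ω | ∃ w : V, ((m : ℤ) ≤ |w.1| ∨ (m : ℤ) ≤ |w.2|) ∧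
        T ω 0 w ≤ Nm (g ν) 1 0 * m / 2} ≤ ε := by
  set μ := Nm (g ν) 1 0 with hμd
  have hN := isNm (subSym_g hI)
  set e : ℝ := min (ε / 4) (μ / 4) with he
  have he0 : 0 < e := lt_min (by positivity) (by positivity)
  obtain ⟨n1, h1⟩ := line_h hI (ε := e) (C := 1) he0 one_pos
  obtain ⟨n2, h2⟩ := line_v hI (ε := e) (C := 1) he0 one_pos
  refine ⟨max (max n1 n2) 1, fun m hm => ?_⟩
  have hm1 : n1 ≤ m := (le_max_left _ _).trans ((le_max_left _ _).trans hm)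
  have hm2 : n2 ≤ m := (le_max_right _ _).trans ((le_max_left _ _).trans hm)
  have hm3 : (1 : ℝ) ≤ m := by exact_mod_cast (le_max_right _ _).trans hm
  have z1 : |(((0 : V).1 : ℤ) : ℝ)| ≤ 1 * (m : ℝ) := by simp
  have z2 : |(((0 : V).2 : ℤ) : ℝ)| ≤ 1 * (m : ℝ) := by simp
  have zm : |(((m : ℤ)) : ℝ)| ≤ 1 * (m : ℝ) := by simp
  have zm' : |((-(m : ℤ) : ℤ) : ℝ)| ≤ 1 * (m : ℝ) := by simp
  have a1 := h1 m hm1 0 m z1 z2 zm
  have a2 := h1 m hm1 0 (-m) z1 z2 zm'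
  have a3 := h2 m hm2 0 m z1 z2 zm
  have a4 := h2 m hm2 0 (-m) z1 z2 zm'
  set A1 := {ω : Cfg | ∃ t : ℤ, |(t : ℝ)| ≤ 1 * m ∧
        e * m < |T ω 0 (t, (m : ℤ)) - Nm (g ν) (t - (0 : V).1) (((m : ℤ) : ℝ) - (0 : V).2)|}
    with hA1
  set A2 := {ω : Cfg | ∃ t : ℤ, |(t : ℝ)| ≤ 1 * m ∧
        e * m < |T ω 0 (t, -(m : ℤ)) - Nm (g ν) (t - (0 : V).1) (((-(m : ℤ) : ℤ) : ℝ) - (0 : V).2)|}
    with hA2
  set A3 := {ω : Cfg | ∃ t : ℤ, |(t : ℝ)| ≤ 1 * m ∧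
        e * m < |T ω 0 ((m : ℤ), t) - Nm (g ν) (((m : ℤ) : ℝ) - (0 : V).1) (t - (0 : V).2)|}
    with hA3
  set A4 := {ω : Cfg | ∃ t : ℤ, |(t : ℝ)| ≤ 1 * m ∧
        e * m < |T ω 0 (-(m : ℤ), t) - Nm (g ν) (((-(m : ℤ) : ℤ) : ℝ) - (0 : V).1) (t - (0 : V).2)|}
    with hA4
  have hincl : {ω : Cfg | ∃ w : V, ((m : ℤ) ≤ |w.1| ∨ (m : ℤ) ≤ |w.2|) ∧
        T ω 0 w ≤ μ * m / 2} ⊆ (A1 ∪ A2) ∪ (A3 ∪ A4) := by
    rintro ω ⟨w, hw, hT⟩
    have hδ : 0 < μ * m / 8 := by positivity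
    obtain ⟨v, hv, hlt⟩ := pt_boundary (c := fun e => |ω e|) (fun _ => abs_nonneg _) (m : ℤ)
      (by positivity) w hw hδ
    have hTv : T ω 0 v < 5 * (μ * m) / 8 := by
      have : T ω 0 v < T ω 0 w + μ * m / 8 := hlt
      linarith
    have hem : e * m ≤ μ * m / 4 := by
      have : e ≤ μ / 4 := min_le_right _ _
      nlinarith
    have key : ∀ a b : ℝ, (v.1 : ℝ) = a → (v.2 : ℝ) = b → μ * m ≤ Nm (g ν) a b →
        e * m < |T ω 0 v - Nm (g ν) a b| := by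
      intro a b _ _ h3
      rw [abs_sub_comm]
      refine lt_of_lt_of_le ?_ (le_abs_self _)
      have : 0 < μ * m := by positivity
      linarith
    rcases hv with ⟨hv1, hv2⟩ | ⟨hv1, hv2⟩
    · have hv2' : |(v.2 : ℝ)| ≤ 1 * m := by rw [one_mul]; exact_mod_cast hv2
      right
      have hge : μ * m ≤ Nm (g ν) v.1 v.2 := by
        have h3 := hN.ge1 v.1 v.2
        have h4 : |(v.1 : ℝ)| = m := by exact_mod_cast hv1
        rw [h4] at h3; exact h3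
      have h5 := key _ _ rfl rfl hge
      rcases abs_eq (by positivity : (0 : ℤ) ≤ m) |>.1 hv1 with h | h
      · left
        refine ⟨v.2, hv2', ?_⟩
        have h6 : (((m : ℤ), v.2) : V) = v := by ext <;> simp [h]
        have h7 : (((m : ℤ) : ℝ)) = (v.1 : ℝ) := by rw [h]
        rw [h6, h7]; simpa using h5
      · right
        refine ⟨v.2, hv2', ?_⟩
        have h6 : ((-(m : ℤ), v.2) : V) = v := by ext <;> simp [h]
        have h7 : (((-(m : ℤ) : ℤ) : ℝ)) = (v.1 : ℝ) := by rw [h]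
        rw [h6, h7]; simpa using h5
    · have hv1' : |(v.1 : ℝ)| ≤ 1 * m := by rw [one_mul]; exact_mod_cast hv1
      left
      have hge : μ * m ≤ Nm (g ν) v.1 v.2 := by
        have h3 := hN.ge2 v.1 v.2
        have h4 : |(v.2 : ℝ)| = m := by exact_mod_cast hv2
        rw [h4] at h3; exact h3
      have h5 := key _ _ rfl rfl hge
      rcases abs_eq (by positivity : (0 : ℤ) ≤ m) |>.1 hv2 with h | h
      · left
        refine ⟨v.1, hv1', ?_⟩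
        have h6 : ((v.1, (m : ℤ)) : V) = v := by ext <;> simp [h]
        have h7 : (((m : ℤ) : ℝ)) = (v.2 : ℝ) := by rw [h]
        rw [h6, h7]; simpa using h5
      · right
        refine ⟨v.1, hv1', ?_⟩
        have h6 : ((v.1, -(m : ℤ)) : V) = v := by ext <;> simp [h]
        have h7 : (((-(m : ℤ) : ℤ) : ℝ)) = (v.2 : ℝ) := by rw [h]
        rw [h6, h7]; simpa using h5
  have hee : e ≤ ε / 4 := min_le_left _ _
  calc (Q ν).real _ ≤ (Q ν).real ((A1 ∪ A2) ∪ (A3 ∪ A4)) := measureReal_mono hincl (measure_ne_top _ _)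
    _ ≤ ((Q ν).real A1 + (Q ν).real A2) + ((Q ν).real A3 + (Q ν).real A4) :=
      (measureReal_union_le _ _).trans
        (add_le_add (measureReal_union_le _ _) (measureReal_union_le _ _))
    _ ≤ ε := by linarith

end Pool.Agent.Work.MP_9a767b_pr
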