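import Pool.Agent.Work.MP_9a767b_pr.Cross

/-!
# CrossIneq: lower bound for the increment from the crossing lemma (deterministic)
-/

open MeasureTheory ProbabilityTheory Filter Topology

namespace Pool.Agent.Work.MP_9a767b_pr

/-- If `P : 0 → (n,0)` and `G : (K,0) → z` meet, the increments are comparable. -/
theorem inc_of_meet {c : Sym2 V → ℝ} (hc : ∀ e, 0 ≤ c e) {o a k z v : V} {δ : ℝ}
    (P : lattice.Walk o a) (hP : len c P < pt c o a + δ) (G : lattice.Walk k z)
    (hG : len c G < pt c k z + δ) (h1 : v ∈ P.support) (h2 : v ∈ G.support) :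
    pt c o z - pt c k z - 2 * δ ≤ pt c o a - pt c k a := by
  have e1 := pt_split hc P h1
  have e2 := pt_split hc G h2
  have e3 := pt_triangle hc o v z
  have e4 := pt_triangle hc k v a
  linarith

theorem cross_ineq {c : Sym2 V → ℝ} (hc : ∀ e, 0 ≤ c e) {n X m K : ℤ} (hn : 0 < n) (hm : 0 < m)
    {δ : ℝ} (hδ : 0 < δ)
    (hL : ∀ i : ℤ, i ≤ 0 →
      pt c (K, 0) (X, m) + δ < pt c (K, 0) (i, 0) + pt c (i, 0) (X, m))
    (hL' : ∀ i : ℤ, i ≤ 0 →
      pt c (K, 0) (X, -m) + δ < pt c (K, 0) (i, 0) + pt c (i, 0) (X, -m))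
    (hR : ∀ t : ℤ, n ≤ t →
      pt c (K, 0) (X, m) + δ < pt c (K, 0) (t, 0) + pt c (t, 0) (X, m))
    (hR' : ∀ t : ℤ, n ≤ t →
      pt c (K, 0) (X, -m) + δ < pt c (K, 0) (t, 0) + pt c (t, 0) (X, -m))
    (hP : ∀ y : ℤ, m ≤ |y| → pt c 0 (n, 0) + δ < pt c 0 (X, y) + pt c (X, y) (n, 0)) :
    (pt c 0 (X, m) - pt c (K, 0) (X, m)) + (pt c 0 (X, -m) - pt c (K, 0) (X, -m))
      - pt c 0 (K, 0) - 2 * δ ≤ pt c 0 (n, 0) - pt c (K, 0) (n, 0) := by
  obtain ⟨P, hPl⟩ := exists_near c 0 (n, 0) hδ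
  obtain ⟨G, hGl⟩ := exists_near c (K, 0) (X, m) hδ
  obtain ⟨G', hGl'⟩ := exists_near c (K, 0) (X, -m) hδ
  have key : ∀ (z v : V) (W : lattice.Walk ((K, 0) : V) z), len c W < pt c (K, 0) z + δ →
      pt c (K, 0) z + δ < pt c (K, 0) v + pt c v z → v ∉ W.support := by
    intro z v W hW h1 h2
    have := pt_split hc W h2
    linarith
  obtain ⟨v, hv1, hv2⟩ := cross hn hm P (G'.reverse.append G)
    (fun i hi h => by
      rw [SimpleGraph.Walk.mem_support_append_iff, SimpleGraph.Walk.support_reverse,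
        List.mem_reverse] at h
      rcases h with h | h
      · exact key _ _ G' hGl' (hL' i hi) h
      · exact key _ _ G hGl (hL i hi) h)
    (fun i hi h => by
      rw [SimpleGraph.Walk.mem_support_append_iff, SimpleGraph.Walk.support_reverse,
        List.mem_reverse] at h
      rcases h with h | h
      · exact key _ _ G' hGl' (hR' i hi) h
      · exact key _ _ G hGl (hR i hi) h)
    (fun y hy h => by
      have := pt_split hc P h
      have := hP y hy
      linarith)
  rw [SimpleGraph.Walk.mem_support_append_iff, SimpleGraph.Walk.support_reverse,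
    List.mem_reverse] at hv2
  have t1 := pt_triangle hc 0 (K, 0) (X, m)
  have t2 := pt_triangle hc 0 (K, 0) (X, -m)
  rcases hv2 with h | h
  · have := inc_of_meet hc P hPl G' hGl' hv1 h
    linarith
  · have := inc_of_meet hc P hPl G hGl hv1 h
    linarith

end Pool.Agent.Work.MP_9a767b_pr
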