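import Mathlib

/-!
# First passage percolation on the square lattice: definitions

`V = ℤ × ℤ`, `lattice` is the nearest neighbour graph, `pt c x y` is the passage time between the
vertices `x` and `y` for the edge weights `c`. The canonical probability space is
`Cfg = (Sym2 V → ℝ)` with the product measure `Q ν`; the weight of the edge `e` is `|ω e|`.
`T ω x y` is the passage time, `g ν y = E T(0, y)`, and `Nm h a b` is the limit of
`h (⌊n a⌋, ⌊n b⌋) / n`.
-/

open MeasureTheory ProbabilityTheory Filter Topology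

namespace Pool.Agent.Work.MP_9a767b_pr

/-- The vertices of the square lattice. -/
abbrev V := ℤ × ℤ

/-- The square lattice. -/
def lattice : SimpleGraph V :=
  SimpleGraph.fromRel (fun x y : V => |x.1 - y.1| + |x.2 - y.2| = 1)

/-- The total weight of a walk. -/
def len (c : Sym2 V → ℝ) {x y : V} (w : lattice.Walk x y) : ℝ := (w.edges.map c).sum

/-- The passage time between two vertices. -/
noncomputable def pt (c : Sym2 V → ℝ) (x y : V) : ℝ := ⨅ w : lattice.Walk x y, len c w

/-- Configurations. -/
abbrev Cfg := Sym2 V → ℝ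

/-- The product measure. -/
noncomputable def Q (ν : Measure ℝ) : Measure Cfg := Measure.infinitePi (fun _ : Sym2 V => ν)

/-- The passage time in the configuration `ω` (weights `|ω e|`). -/
noncomputable def T (ω : Cfg) (x y : V) : ℝ := pt (fun e => |ω e|) x y

/-- The expected passage time from the origin. -/
noncomputable def g (ν : Measure ℝ) (y : V) : ℝ := ∫ ω, T ω 0 y ∂(Q ν)

/-- The asymptotic norm of a function on the lattice. -/
noncomputable def Nm (h : V → ℝ) (a b : ℝ) : ℝ :=
  limUnder atTop (fun n : ℕ => h (⌊(n : ℝ) * a⌋, ⌊(n : ℝ) * b⌋) / (n : ℝ))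

/-- A bijection of the vertices acts on the configurations. -/
def act (σ : V ≃ V) (ω : Cfg) : Cfg := fun e => ω (e.map σ)

/-- Nonnegative subadditive functions on the lattice with the symmetries of the square. -/
structure SubSym (h : V → ℝ) : Prop where
  nonneg : ∀ y, 0 ≤ h y
  zero : h 0 = 0
  add_le : ∀ x y, h (x + y) ≤ h x + h y
  flip1 : ∀ a b, h (-a, b) = h (a, b)
  flip2 : ∀ a b, h (a, -b) = h (a, b)
  swap : ∀ a b, h (b, a) = h (a, b)

/-- The properties of the limiting norm that are used. -/
structure IsNm (N : ℝ → ℝ → ℝ) (μ : ℝ) : Prop where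
  add_le : ∀ a b a' b', N (a + a') (b + b') ≤ N a b + N a' b'
  smul : ∀ t : ℝ, 0 ≤ t → ∀ a b, N (t * a) (t * b) = t * N a b
  neg1 : ∀ a b, N (-a) b = N a b
  neg2 : ∀ a b, N a (-b) = N a b
  one : N 1 0 = μ
  ge1 : ∀ a b, μ * |a| ≤ N a b
  ge2 : ∀ a b, μ * |b| ≤ N a b
  le : ∀ a b, N a b ≤ μ * (|a| + |b|)

end Pool.Agent.Work.MP_9a767b_pr
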