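import Pool.Agent.Work.MP_9a767b_pr.LineH

/-!
# GapH: a macroscopic gap of the norm gives a gap of the passage times (horizontal axis)
-/

open MeasureTheory ProbabilityTheory Filter Topology

namespace Pool.Agent.Work.MP_9a767b_pr

theorem gap_h {ν : Measure ℝ} [IsProbabilityMeasure ν]
    (hI : Integrable (fun ω => T ω 0 (1, 0)) (Q ν)) (K : ℕ) {ε C : ℝ} (hε : 0 < ε) (hC : 0 < C) :
    ∃ n0 : ℕ, ∀ n : ℕ, n0 ≤ n → ∀ z : V, |(z.1 : ℝ)| ≤ C * n → |(z.2 : ℝ)| ≤ C * n →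
      (Q ν).real {ω | ∃ t : ℤ, |(t : ℝ)| ≤ C * n ∧
        Nm (g ν) z.1 z.2 + ε * n ≤ Nm (g ν) t 0 + Nm (g ν) (z.1 - t) z.2 ∧
        T ω (K, 0) (t, 0) + T ω (t, 0) z ≤ T ω (K, 0) z + ε * n / 2} ≤ ε := by
  have hN := isNm (subSym_g hI)
  have he : 0 < ε / 16 := by positivity
  obtain ⟨n1, h1⟩ := line_h hI he hC
  obtain ⟨n2, h2⟩ := lh_point hI (δ := ε / 16) (c := ε / 16) (ε := ε / 16) he hC he le_rfl he
  obtain ⟨n3, h3⟩ := lh_fixed hI 0 (K, 0) he he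
  refine ⟨max (max n1 n2) (max n3 1), fun n hn z hz1 hz2 => ?_⟩
  have hn1 : n1 ≤ n := (le_max_left _ _).trans ((le_max_left _ _).trans hn)
  have hn2 : n2 ≤ n := (le_max_right _ _).trans ((le_max_left _ _).trans hn)
  have hn3 : n3 ≤ n := (le_max_left _ _).trans ((le_max_right _ _).trans hn)
  have hn4 : (1 : ℝ) ≤ n := by exact_mod_cast (le_max_right _ _).trans ((le_max_right _ _).trans hn)
  have z0 : |(((0 : V).1 : ℤ) : ℝ)| ≤ C * (n : ℝ) := by simp; positivity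
  have z0' : |(((0 : V).2 : ℤ) : ℝ)| ≤ C * (n : ℝ) := by simp; positivity
  have zb : |((0 : ℤ) : ℝ)| ≤ C * (n : ℝ) := by simp; positivity
  have a1 := h1 n hn1 0 0 z0 z0' zb
  have a2 := h1 n hn1 z 0 hz1 hz2 zb
  have a3 := h2 n hn2 0 z (by simpa using hz1) (by simpa using hz2)
  have a4 := h3 n hn3
  set A1 := {ω : Cfg | ∃ t : ℤ, |(t : ℝ)| ≤ C * n ∧
        ε / 16 * n < |T ω 0 (t, 0) - Nm (g ν) (t - (0 : V).1) (((0 : ℤ) : ℝ) - (0 : V).2)|}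
  set A2 := {ω : Cfg | ∃ t : ℤ, |(t : ℝ)| ≤ C * n ∧
        ε / 16 * n < |T ω z (t, 0) - Nm (g ν) (t - z.1) (((0 : ℤ) : ℝ) - z.2)|}
  set A3 := {ω : Cfg | ε / 16 * n ≤ |T ω 0 z - Nm (g ν) (z.1 - (0 : V).1) (z.2 - (0 : V).2)|}
  set A4 := {ω : Cfg | ε / 16 * n ≤ |T ω 0 (K, 0)|}
  have hincl : {ω : Cfg | ∃ t : ℤ, |(t : ℝ)| ≤ C * n ∧
        Nm (g ν) z.1 z.2 + ε * n ≤ Nm (g ν) t 0 + Nm (g ν) (z.1 - t) z.2 ∧
        T ω (K, 0) (t, 0) + T ω (t, 0) z ≤ T ω (K, 0) z + ε * n / 2} ⊆ (A1 ∪ A2) ∪ (A3 ∪ A4) := by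
    rintro ω ⟨t, ht, hgap, hω⟩
    by_contra hcon
    simp only [Set.mem_union, not_or, A1, A2, A3, A4, Set.mem_ofPred_eq, not_exists, not_and, not_lt,
      not_le] at hcon
    obtain ⟨⟨c1, c2⟩, c3, c4⟩ := hcon
    have d1 := (abs_le.1 (c1 t ht)).1
    have d2 := (abs_le.1 (c2 t ht)).1
    have d3 := (abs_lt.1 c3).2
    have d4 := lt_of_le_of_lt (le_abs_self _) c4
    simp only [Prod.fst_zero, Prod.snd_zero, Int.cast_zero, sub_zero, zero_sub] at d1 d2 d3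
    have e2 : Nm (g ν) (t - z.1) (-z.2) = Nm (g ν) (z.1 - t) z.2 := by
      rw [hN.neg2, ← hN.neg1]
      congr 1; ring
    rw [e2] at d2
    have f1 := T_triangle ω 0 (K, 0) (t, 0)
    have f2 := T_triangle ω (K, 0) 0 z
    rw [T_comm ω (K, 0) 0] at f2
    rw [T_comm ω (t, 0) z] at hω
    have : 0 < ε * n := by positivity
    linarith
  calc (Q ν).real _ ≤ (Q ν).real ((A1 ∪ A2) ∪ (A3 ∪ A4)) :=
        measureReal_mono hincl (measure_ne_top _ _)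
    _ ≤ ((Q ν).real A1 + (Q ν).real A2) + ((Q ν).real A3 + (Q ν).real A4) :=
      (measureReal_union_le _ _).trans
        (add_le_add (measureReal_union_le _ _) (measureReal_union_le _ _))
    _ ≤ ε := by linarith

end Pool.Agent.Work.MP_9a767b_pr
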