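import Pool.Agent.Work.MP_9a767b_pr.Far
import Pool.Agent.Work.MP_9a767b_pr.GapH

/-!
# EvL: the geodesic from `(K,0)` to `(X,n)` does not visit `(i,0)` with `i ≤ -κ n`
-/

open MeasureTheory ProbabilityTheory Filter Topology

namespace Pool.Agent.Work.MP_9a767b_pr

theorem ev_l {ν : Measure ℝ} [IsProbabilityMeasure ν]
    (hI : Integrable (fun ω => T ω 0 (1, 0)) (Q ν)) (hμ : 0 < Nm (g ν) 1 0) {x3 κ : ℝ}
    (hκ : 0 < κ) (K : ℕ) {ε : ℝ} (hε : 0 < ε) :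
    ∃ n0 : ℕ, ∀ n : ℕ, n0 ≤ n → ∀ X : ℤ, 0 ≤ X → (X : ℝ) ≤ x3 * n →
      (Q ν).real {ω | ∃ i : ℤ, (i : ℝ) ≤ -κ * n ∧
        T ω (K, 0) (i, 0) + T ω (i, 0) (X, n) ≤ T ω (K, 0) (X, n) + 1} ≤ ε := by
  have hN := isNm (subSym_g hI)
  set N := Nm (g ν) with hNd
  set μ := N 1 0 with hμd
  set C1 : ℝ := |x3| + 1 with hC1
  have hC10 : 0 < C1 := by positivity
  obtain ⟨D, hD0, hD⟩ := far hI hμ K hC10
  obtain ⟨n1, h1⟩ := hD (ε / 2) (by positivity)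
  set C2 : ℝ := max C1 D with hC2
  have hC20 : 0 < C2 := lt_max_of_lt_left hC10
  set e : ℝ := min (ε / 2) (μ * κ) with he
  have he0 : 0 < e := lt_min (by positivity) (by positivity)
  obtain ⟨n2, h2⟩ := gap_h hI K he0 hC20
  refine ⟨max (max n1 n2) (max ⌈2 / e⌉₊ 1), fun n hn X hX1 hX3 => ?_⟩
  have hn1 : n1 ≤ n := (le_max_left _ _).trans ((le_max_left _ _).trans hn)
  have hn2 : n2 ≤ n := (le_max_right _ _).trans ((le_max_left _ _).trans hn)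
  have hn3 : 2 / e ≤ n := (Nat.le_ceil _).trans
    (by exact_mod_cast (le_max_left _ _).trans ((le_max_right _ _).trans hn))
  have hn4 : (1 : ℝ) ≤ n := by exact_mod_cast (le_max_right _ _).trans ((le_max_right _ _).trans hn)
  rw [div_le_iff₀ he0] at hn3
  have hn0 : (0 : ℝ) < n := by linarith
  have hX0 : (0 : ℝ) ≤ X := by exact_mod_cast hX1
  have hX : |(X : ℝ)| ≤ C1 * n := by
    rw [abs_of_nonneg hX0]
    have b2 := le_abs_self x3
    rw [hC1]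
    nlinarith
  have hz' : |((n : ℤ) : ℝ)| ≤ C1 * n := by
    simp only [Int.cast_natCast, Nat.abs_cast]
    have : (1 : ℝ) ≤ C1 := by rw [hC1]; linarith [abs_nonneg x3]
    nlinarith
  have hXX : |(X : ℝ)| ≤ C2 * n := hX.trans (by gcongr; exact le_max_left _ _)
  have hzz' : |((n : ℤ) : ℝ)| ≤ C2 * n := hz'.trans (by gcongr; exact le_max_left _ _)
  have a1 := h1 n hn1 (X, n) hX hz'
  have a2 := h2 n hn2 (X, n) hXX hzz'
  set A1 := {ω : Cfg | ∃ w : V, (D * n ≤ |(w.1 : ℝ)| ∨ D * n ≤ |(w.2 : ℝ)|) ∧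
        T ω (K, 0) w + T ω w (X, n) ≤ T ω (K, 0) (X, n) + 1}
  set A2 := {ω : Cfg | ∃ t : ℤ, |(t : ℝ)| ≤ C2 * n ∧
        Nm (g ν) ((X, (n : ℤ)) : V).1 ((X, (n : ℤ)) : V).2 + e * n ≤
          Nm (g ν) t 0 + Nm (g ν) (((X, (n : ℤ)) : V).1 - t) ((X, (n : ℤ)) : V).2 ∧
        T ω (K, 0) (t, 0) + T ω (t, 0) (X, n) ≤ T ω (K, 0) (X, n) + e * n / 2}
  have hincl : {ω : Cfg | ∃ i : ℤ, (i : ℝ) ≤ -κ * n ∧
        T ω (K, 0) (i, 0) + T ω (i, 0) (X, n) ≤ T ω (K, 0) (X, n) + 1} ⊆ A1 ∪ A2 := by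
    rintro ω ⟨t, ht, hω⟩
    by_cases htD : D * n ≤ |(t : ℝ)|
    · left
      exact ⟨(t, 0), Or.inl htD, hω⟩
    · right
      push Not at htD
      have ht0 : (t : ℝ) ≤ 0 := ht.trans (by nlinarith)
      refine ⟨t, htD.le.trans (by gcongr; exact le_max_right _ _), ?_, ?_⟩
      · simp only [Int.cast_natCast]
        change N X n + e * n ≤ N t 0 + N (X - t) n
        have b1 := hN.ge1 t 0
        have b2 : κ * n ≤ |(t : ℝ)| := by rw [abs_of_nonpos ht0]; linarith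
        have b3 : μ * (κ * n) ≤ μ * |(t : ℝ)| := by gcongr
        have b4 : N X n ≤ N (X - t) n := nm_mono (subSym_g hI) n hX0 (by linarith)
        have b5 : e * n ≤ (μ * κ) * n := by gcongr; exact min_le_right _ _
        linarith
      · linarith
  calc (Q ν).real _ ≤ (Q ν).real (A1 ∪ A2) :=
        measureReal_mono hincl (measure_ne_top _ _)
    _ ≤ (Q ν).real A1 + (Q ν).real A2 := measureReal_union_le _ _
    _ ≤ ε := by
      have : e ≤ ε / 2 := min_le_left _ _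
      linarith

end Pool.Agent.Work.MP_9a767b_pr
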