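import Pool.Agent.Work.MP_9a767b_pr.LineV

/-!
# GapV: a macroscopic gap of the norm gives a gap of the passage times (vertical line)
-/

open MeasureTheory ProbabilityTheory Filter Topology

namespace Pool.Agent.Work.MP_9a767b_pr

theorem gap_v {ν : Measure ℝ} [IsProbabilityMeasure ν]
    (hI : Integrable (fun ω => T ω 0 (1, 0)) (Q ν)) {ε C : ℝ} (hε : 0 < ε) (hC : 0 < C) :
    ∃ n0 : ℕ, ∀ n : ℕ, n0 ≤ n → ∀ (z : V) (b : ℤ), |(z.1 : ℝ)| ≤ C * n → |(z.2 : ℝ)| ≤ C * n →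
      |(b : ℝ)| ≤ C * n →
      (Q ν).real {ω | ∃ t : ℤ, |(t : ℝ)| ≤ C * n ∧
        Nm (g ν) z.1 z.2 + ε * n ≤ Nm (g ν) b t + Nm (g ν) (z.1 - b) (z.2 - t) ∧
        T ω 0 (b, t) + T ω (b, t) z ≤ T ω 0 z + ε * n / 2} ≤ ε := by
  have hN := isNm (subSym_g hI)
  have he : 0 < ε / 16 := by positivity
  obtain ⟨n1, h1⟩ := line_v hI he hC
  obtain ⟨n2, h2⟩ := lh_point hI (δ := ε / 16) (c := ε / 16) (ε := ε / 16) he hC he le_rfl he
  refine ⟨max (max n1 n2) 1, fun n hn z b hz1 hz2 hb => ?_⟩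
  have hn1 : n1 ≤ n := (le_max_left _ _).trans ((le_max_left _ _).trans hn)
  have hn2 : n2 ≤ n := (le_max_right _ _).trans ((le_max_left _ _).trans hn)
  have hn4 : (1 : ℝ) ≤ n := by exact_mod_cast (le_max_right _ _).trans hn
  have z0 : |(((0 : V).1 : ℤ) : ℝ)| ≤ C * (n : ℝ) := by simp; positivity
  have z0' : |(((0 : V).2 : ℤ) : ℝ)| ≤ C * (n : ℝ) := by simp; positivity
  have a1 := h1 n hn1 0 b z0 z0' hb
  have a2 := h1 n hn1 z b hz1 hz2 hb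
  have a3 := h2 n hn2 0 z (by simpa using hz1) (by simpa using hz2)
  set A1 := {ω : Cfg | ∃ t : ℤ, |(t : ℝ)| ≤ C * n ∧
        ε / 16 * n < |T ω 0 (b, t) - Nm (g ν) (b - (0 : V).1) (t - (0 : V).2)|}
  set A2 := {ω : Cfg | ∃ t : ℤ, |(t : ℝ)| ≤ C * n ∧
        ε / 16 * n < |T ω z (b, t) - Nm (g ν) (b - z.1) (t - z.2)|}
  set A3 := {ω : Cfg | ε / 16 * n ≤ |T ω 0 z - Nm (g ν) (z.1 - (0 : V).1) (z.2 - (0 : V).2)|}
  have hincl : {ω : Cfg | ∃ t : ℤ, |(t : ℝ)| ≤ C * n ∧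
        Nm (g ν) z.1 z.2 + ε * n ≤ Nm (g ν) b t + Nm (g ν) (z.1 - b) (z.2 - t) ∧
        T ω 0 (b, t) + T ω (b, t) z ≤ T ω 0 z + ε * n / 2} ⊆ (A1 ∪ A2) ∪ A3 := by
    rintro ω ⟨t, ht, hgap, hω⟩
    by_contra hcon
    simp only [Set.mem_union, not_or, A1, A2, A3, Set.mem_ofPred_eq, not_exists, not_and, not_lt,
      not_le] at hcon
    obtain ⟨⟨c1, c2⟩, c3⟩ := hcon
    have d1 := (abs_le.1 (c1 t ht)).1
    have d2 := (abs_le.1 (c2 t ht)).1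
    have d3 := (abs_lt.1 c3).2
    simp only [Prod.fst_zero, Prod.snd_zero, Int.cast_zero, sub_zero] at d1 d3
    have e2 : Nm (g ν) (b - z.1) (t - z.2) = Nm (g ν) (z.1 - b) (z.2 - t) := by
      rw [← hN.neg1, ← hN.neg2]
      congr 1 <;> ring
    rw [e2] at d2
    rw [T_comm ω (b, t) z] at hω
    have : 0 < ε * n := by positivity
    linarith
  calc (Q ν).real _ ≤ (Q ν).real ((A1 ∪ A2) ∪ A3) :=
        measureReal_mono hincl (measure_ne_top _ _)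
    _ ≤ ((Q ν).real A1 + (Q ν).real A2) + (Q ν).real A3 :=
      (measureReal_union_le _ _).trans
        (add_le_add (measureReal_union_le _ _) le_rfl)
    _ ≤ ε := by linarith

end Pool.Agent.Work.MP_9a767b_pr
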