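import Pool.Agent.Work.MP_9a767b_pr.Far
import Pool.Agent.Work.MP_9a767b_pr.GapV

/-!
# EvP: the geodesic to `(n,0)` does not visit `(X, y)` with `|y| ≥ n`
-/

open MeasureTheory ProbabilityTheory Filter Topology

namespace Pool.Agent.Work.MP_9a767b_pr

theorem ev_p {ν : Measure ℝ} [IsProbabilityMeasure ν]
    (hI : Integrable (fun ω => T ω 0 (1, 0)) (Q ν)) (hμ : 0 < Nm (g ν) 1 0) {ε C : ℝ}
    (hε : 0 < ε) (hC : 0 < C) :
    ∃ n0 : ℕ, ∀ n : ℕ, n0 ≤ n → ∀ X : ℤ, |(X : ℝ)| ≤ C * n →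
      (Q ν).real {ω | ∃ y : ℤ, (n : ℤ) ≤ |y| ∧
        T ω 0 (X, y) + T ω (X, y) (n, 0) ≤ T ω 0 (n, 0) + 1} ≤ ε := by
  have hN := isNm (subSym_g hI)
  set μ := Nm (g ν) 1 0 with hμd
  set C1 : ℝ := max C 1 with hC1
  have hC10 : 0 < C1 := lt_max_of_lt_left hC
  obtain ⟨D, hD0, hD⟩ := far hI hμ 0 hC10
  obtain ⟨n1, h1⟩ := hD (ε / 2) (by positivity)
  set C2 : ℝ := max C1 D with hC2
  have hC20 : 0 < C2 := lt_max_of_lt_left hC10
  set e : ℝ := min (ε / 2) μ with he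
  have he0 : 0 < e := lt_min (by positivity) hμ
  obtain ⟨n2, h2⟩ := gap_v hI he0 hC20
  refine ⟨max (max n1 n2) ⌈2 / e⌉₊, fun n hn X hX => ?_⟩
  have hn1 : n1 ≤ n := (le_max_left _ _).trans ((le_max_left _ _).trans hn)
  have hn2 : n2 ≤ n := (le_max_right _ _).trans ((le_max_left _ _).trans hn)
  have hn3 : 2 / e ≤ n := (Nat.le_ceil _).trans (by exact_mod_cast (le_max_right _ _).trans hn)
  rw [div_le_iff₀ he0] at hn3
  have hn0 : (0 : ℝ) ≤ n := Nat.cast_nonneg _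
  have hX2 : |(X : ℝ)| ≤ C2 * n := hX.trans (by
    gcongr; exact (le_max_left _ _).trans (le_max_left _ _))
  have hz : |(((n : ℤ), (0 : ℤ)).1 : ℝ)| ≤ C1 * n := by
    simp only [Int.cast_natCast, Nat.abs_cast]
    have : (1 : ℝ) ≤ C1 := le_max_right _ _
    nlinarith
  have hz' : |((((n : ℤ), (0 : ℤ)).2 : ℤ) : ℝ)| ≤ C1 * n := by simp; positivity
  have hzz : |(((n : ℤ), (0 : ℤ)).1 : ℝ)| ≤ C2 * n := hz.trans (by gcongr; exact le_max_left _ _)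
  have hzz' : |((((n : ℤ), (0 : ℤ)).2 : ℤ) : ℝ)| ≤ C2 * n :=
    hz'.trans (by gcongr; exact le_max_left _ _)
  have a1 := h1 n hn1 (n, 0) hz hz'
  have a2 := h2 n hn2 (n, 0) X hzz hzz' hX2
  set A1 := {ω : Cfg | ∃ w : V, (D * n ≤ |(w.1 : ℝ)| ∨ D * n ≤ |(w.2 : ℝ)|) ∧
        T ω ((0 : ℕ), 0) w + T ω w (n, 0) ≤ T ω ((0 : ℕ), 0) (n, 0) + 1}
  set A2 := {ω : Cfg | ∃ t : ℤ, |(t : ℝ)| ≤ C2 * n ∧
        Nm (g ν) (((n : ℤ), (0 : ℤ)) : V).1 (((n : ℤ), (0 : ℤ)) : V).2 + e * n ≤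
          Nm (g ν) X t + Nm (g ν) ((((n : ℤ), (0 : ℤ)) : V).1 - X) ((((n : ℤ), (0 : ℤ)) : V).2 - t) ∧
        T ω 0 (X, t) + T ω (X, t) (n, 0) ≤ T ω 0 (n, 0) + e * n / 2}
  have hincl : {ω : Cfg | ∃ y : ℤ, (n : ℤ) ≤ |y| ∧
        T ω 0 (X, y) + T ω (X, y) (n, 0) ≤ T ω 0 (n, 0) + 1} ⊆ A1 ∪ A2 := by
    rintro ω ⟨y, hy, hω⟩
    by_cases hyD : D * n ≤ |(y : ℝ)|
    · left
      exact ⟨(X, y), Or.inr hyD, hω⟩
    · right
      push Not at hyD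
      have hy' : (n : ℝ) ≤ |(y : ℝ)| := by exact_mod_cast hy
      refine ⟨y, hyD.le.trans (by gcongr; exact le_max_right _ _), ?_, ?_⟩
      · simp only [Int.cast_natCast, Int.cast_zero, zero_sub]
        have b1 := hN.ge2 X y
        have b2 := hN.ge2 ((n : ℝ) - X) (-(y : ℝ))
        have b3 : Nm (g ν) n 0 = μ * n := by
          have := hN.smul n hn0 1 0
          rw [mul_one, mul_zero] at this
          rw [this]; ring
        rw [abs_neg] at b2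
        rw [b3]
        have b4 : e * n ≤ μ * n := by gcongr; exact min_le_right _ _
        have b5 : μ * n ≤ μ * |(y : ℝ)| := by gcongr
        linarith
      · linarith
  calc (Q ν).real _ ≤ (Q ν).real (A1 ∪ A2) :=
        measureReal_mono hincl (measure_ne_top _ _)
    _ ≤ (Q ν).real A1 + (Q ν).real A2 := measureReal_union_le _ _
    _ ≤ ε := by
      have : e ≤ ε / 2 := min_le_left _ _
      linarith

end Pool.Agent.Work.MP_9a767b_pr
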