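import Pool.Agent.Work.MP_9a767b_pr.Far
import Pool.Agent.Work.MP_9a767b_pr.GapH

/-!
# EvR: the geodesic from `(K,0)` to `(X,n)` does not visit `(t,0)` with `t ≥ n`
-/

open MeasureTheory ProbabilityTheory Filter Topology

namespace Pool.Agent.Work.MP_9a767b_pr

theorem ev_r {ν : Measure ℝ} [IsProbabilityMeasure ν]
    (hI : Integrable (fun ω => T ω 0 (1, 0)) (Q ν)) (hμ : 0 < Nm (g ν) 1 0) {x1 x3 c : ℝ}
    (hc : 0 < c) (hs : ∀ x, x1 ≤ x → x ≤ x3 → Nm (g ν) x 1 - Nm (g ν) (x - 1) 1 ≤ Nm (g ν) 1 0 - c)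
    (K : ℕ) {ε : ℝ} (hε : 0 < ε) :
    ∃ n0 : ℕ, ∀ n : ℕ, n0 ≤ n → ∀ X : ℤ, x1 * n ≤ (X : ℝ) → (X : ℝ) ≤ x3 * n →
      (Q ν).real {ω | ∃ t : ℤ, (n : ℤ) ≤ t ∧
        T ω (K, 0) (t, 0) + T ω (t, 0) (X, n) ≤ T ω (K, 0) (X, n) + 1} ≤ ε := by
  have hN := isNm (subSym_g hI)
  set N := Nm (g ν) with hNd
  set μ := N 1 0 with hμd
  set C1 : ℝ := |x1| + |x3| + 1 with hC1
  have hC10 : 0 < C1 := by positivity
  obtain ⟨D, hD0, hD⟩ := far hI hμ K hC10
  obtain ⟨n1, h1⟩ := hD (ε / 2) (by positivity)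
  set C2 : ℝ := max C1 D with hC2
  have hC20 : 0 < C2 := lt_max_of_lt_left hC10
  set e : ℝ := min (ε / 2) c with he
  have he0 : 0 < e := lt_min (by positivity) hc
  obtain ⟨n2, h2⟩ := gap_h hI K he0 hC20
  refine ⟨max (max n1 n2) (max ⌈2 / e⌉₊ 1), fun n hn X hX1 hX3 => ?_⟩
  have hn1 : n1 ≤ n := (le_max_left _ _).trans ((le_max_left _ _).trans hn)
  have hn2 : n2 ≤ n := (le_max_right _ _).trans ((le_max_left _ _).trans hn)
  have hn3 : 2 / e ≤ n := (Nat.le_ceil _).trans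
    (by exact_mod_cast (le_max_left _ _).trans ((le_max_right _ _).trans hn))
  have hn4 : (1 : ℝ) ≤ n := by exact_mod_cast (le_max_right _ _).trans ((le_max_right _ _).trans hn)
  rw [div_le_iff₀ he0] at hn3
  have hn0 : (0 : ℝ) < n := by linarith
  have hX : |(X : ℝ)| ≤ C1 * n := by
    rw [abs_le]
    have b1 := neg_abs_le x1
    have b2 := le_abs_self x3
    have b3 := abs_nonneg x1
    have b4 := abs_nonneg x3
    rw [hC1]
    constructor <;> nlinarith
  have hz' : |((n : ℤ) : ℝ)| ≤ C1 * n := by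
    simp only [Int.cast_natCast, Nat.abs_cast]
    have : (1 : ℝ) ≤ C1 := by rw [hC1]; linarith [abs_nonneg x1, abs_nonneg x3]
    nlinarith
  have hXX : |(X : ℝ)| ≤ C2 * n := hX.trans (by gcongr; exact le_max_left _ _)
  have hzz' : |((n : ℤ) : ℝ)| ≤ C2 * n := hz'.trans (by gcongr; exact le_max_left _ _)
  have a1 := h1 n hn1 (X, n) hX hz'
  have a2 := h2 n hn2 (X, n) hXX hzz'
  set A1 := {ω : Cfg | ∃ w : V, (D * n ≤ |(w.1 : ℝ)| ∨ D * n ≤ |(w.2 : ℝ)|) ∧
        T ω (K, 0) w + T ω w (X, n) ≤ T ω (K, 0) (X, n) + 1}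
  set A2 := {ω : Cfg | ∃ t : ℤ, |(t : ℝ)| ≤ C2 * n ∧
        Nm (g ν) ((X, (n : ℤ)) : V).1 ((X, (n : ℤ)) : V).2 + e * n ≤
          Nm (g ν) t 0 + Nm (g ν) (((X, (n : ℤ)) : V).1 - t) ((X, (n : ℤ)) : V).2 ∧
        T ω (K, 0) (t, 0) + T ω (t, 0) (X, n) ≤ T ω (K, 0) (X, n) + e * n / 2}
  have hincl : {ω : Cfg | ∃ t : ℤ, (n : ℤ) ≤ t ∧
        T ω (K, 0) (t, 0) + T ω (t, 0) (X, n) ≤ T ω (K, 0) (X, n) + 1} ⊆ A1 ∪ A2 := by
    rintro ω ⟨t, ht, hω⟩
    by_cases htD : D * n ≤ |(t : ℝ)|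
    · left
      exact ⟨(t, 0), Or.inl htD, hω⟩
    · right
      push Not at htD
      have ht' : (n : ℝ) ≤ t := by exact_mod_cast ht
      refine ⟨t, htD.le.trans (by gcongr; exact le_max_right _ _), ?_, ?_⟩
      · simp only [Int.cast_natCast]
        set x : ℝ := X / n with hx
        set s : ℝ := t / n with hsd
        have hxn : (n : ℝ) * x = X := by rw [hx]; field_simp
        have hsn : (n : ℝ) * s = t := by rw [hsd]; field_simp
        have hs1 : 1 ≤ s := by rw [hsd, le_div_iff₀ hn0]; linarith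
        have hx1 : x1 ≤ x := by rw [hx, le_div_iff₀ hn0]; exact hX1
        have hx3 : x ≤ x3 := by rw [hx, div_le_iff₀ hn0]; exact hX3
        have b1 : N X n = n * N x 1 := by
          rw [← hN.smul n hn0.le, hxn, mul_one]
        have b2 : N t 0 = n * (μ * s) := by
          have h3 := hN.smul t (by linarith) 1 0
          rw [mul_one, mul_zero] at h3
          rw [h3, ← hsn, hμd]; ring
        have b3 : N (X - t) n = n * N (x - s) 1 := by
          rw [← hN.smul n hn0.le, mul_sub, hxn, hsn, mul_one]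
        have b4 := hs x hx1 hx3
        have b5 := hN.add_le (x - s) 1 (s - 1) 0
        have b6 : N (s - 1) 0 = μ * (s - 1) := by
          have h3 := hN.smul (s - 1) (by linarith) 1 0
          rw [mul_one, mul_zero] at h3
          rw [h3, hμd]; ring
        have e1 : x - s + (s - 1) = x - 1 := by ring
        rw [e1, add_zero, b6] at b5
        change N X n + e * n ≤ N t 0 + N (X - t) n
        rw [b1, b2, b3]
        have b7 : e ≤ c := min_le_right _ _
        have b8 : N x 1 + e ≤ μ * s + N (x - s) 1 := by linarith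
        nlinarith
      · linarith
  calc (Q ν).real _ ≤ (Q ν).real (A1 ∪ A2) :=
        measureReal_mono hincl (measure_ne_top _ _)
    _ ≤ (Q ν).real A1 + (Q ν).real A2 := measureReal_union_le _ _
    _ ≤ ε := by
      have : e ≤ ε / 2 := min_le_left _ _
      linarith

end Pool.Agent.Work.MP_9a767b_pr
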