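import Pool.Agent.Work.MP_9a767b_pr.Box

/-!
# Far: geodesics do not visit far points
-/

open MeasureTheory ProbabilityTheory Filter Topology

namespace Pool.Agent.Work.MP_9a767b_pr

theorem far {ν : Measure ℝ} [IsProbabilityMeasure ν]
    (hI : Integrable (fun ω => T ω 0 (1, 0)) (Q ν)) (hμ : 0 < Nm (g ν) 1 0) (K : ℕ) {C : ℝ}
    (hC : 0 < C) :
    ∃ D : ℝ, 0 < D ∧ ∀ ε : ℝ, 0 < ε → ∃ n0 : ℕ, ∀ n : ℕ, n0 ≤ n → ∀ z : V,
      |(z.1 : ℝ)| ≤ C * n → |(z.2 : ℝ)| ≤ C * n →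
      (Q ν).real {ω | ∃ w : V, (D * n ≤ |(w.1 : ℝ)| ∨ D * n ≤ |(w.2 : ℝ)|) ∧
        T ω (K, 0) w + T ω w z ≤ T ω (K, 0) z + 1} ≤ ε := by
  have hN := isNm (subSym_g hI)
  set μ := Nm (g ν) 1 0 with hμd
  set D : ℝ := 4 * C + 16 / μ + 1 with hD
  have hD0 : 0 < D := by positivity
  have hDμ : D * μ = 4 * C * μ + 16 + μ := by rw [hD]; field_simp
  refine ⟨D, hD0, fun ε hε => ?_⟩
  have he : 0 < ε / 3 := by positivity
  obtain ⟨m1, h1⟩ := box hI hμ he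
  obtain ⟨n2, h2⟩ := lh_point hI (δ := 1) (c := 1) (ε := ε / 3) one_pos hC one_pos le_rfl he
  obtain ⟨n3, h3⟩ := lh_fixed hI 0 (K, 0) one_pos he
  refine ⟨max (max ⌈((m1 : ℝ) + 1) / D⌉₊ n2) (max n3 1), fun n hn z hz1 hz2 => ?_⟩
  have hn1 : ((m1 : ℝ) + 1) / D ≤ n := (Nat.le_ceil _).trans
    (by exact_mod_cast (le_max_left _ _).trans ((le_max_left _ _).trans hn))
  have hn2 : n2 ≤ n := (le_max_right _ _).trans ((le_max_left _ _).trans hn)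
  have hn3 : n3 ≤ n := (le_max_left _ _).trans ((le_max_right _ _).trans hn)
  have hn4 : (1 : ℝ) ≤ n := by exact_mod_cast (le_max_right _ _).trans ((le_max_right _ _).trans hn)
  rw [div_le_iff₀ hD0] at hn1
  set m : ℕ := ⌊D * n⌋₊ with hm
  have hmle : (m : ℝ) ≤ D * n := Nat.floor_le (by positivity)
  have hmlt : D * n < m + 1 := Nat.lt_floor_add_one _
  have hm1 : m1 ≤ m := by
    apply Nat.le_floor
    linarith
  have a1 := h1 m hm1
  have a2 := h2 n hn2 0 z (by simpa using hz1) (by simpa using hz2)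
  have a3 := h3 n hn3
  set A1 := {ω : Cfg | ∃ w : V, ((m : ℤ) ≤ |w.1| ∨ (m : ℤ) ≤ |w.2|) ∧ T ω 0 w ≤ μ * m / 2}
  set A2 := {ω : Cfg | 1 * (n : ℝ) ≤ |T ω 0 z - Nm (g ν) (z.1 - (0 : V).1) (z.2 - (0 : V).2)|}
  set A3 := {ω : Cfg | 1 * (n : ℝ) ≤ |T ω 0 (K, 0)|}
  have hincl : {ω : Cfg | ∃ w : V, (D * n ≤ |(w.1 : ℝ)| ∨ D * n ≤ |(w.2 : ℝ)|) ∧
        T ω (K, 0) w + T ω w z ≤ T ω (K, 0) z + 1} ⊆ (A1 ∪ A2) ∪ A3 := by
    rintro ω ⟨w, hw, hω⟩
    by_contra hcon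
    simp only [Set.mem_union, not_or, A1, A2, A3, Set.mem_ofPred_eq, not_exists, not_and, not_lt,
      not_le] at hcon
    obtain ⟨⟨c1, c2⟩, c3⟩ := hcon
    have hw' : (m : ℤ) ≤ |w.1| ∨ (m : ℤ) ≤ |w.2| := by
      rcases hw with h | h
      · left
        have : (m : ℝ) ≤ |(w.1 : ℝ)| := hmle.trans h
        exact_mod_cast this
      · right
        have : (m : ℝ) ≤ |(w.2 : ℝ)| := hmle.trans h
        exact_mod_cast this
    have d1 := c1 w hw'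
    have d2 := (abs_lt.1 c2).2
    have d3 := lt_of_le_of_lt (le_abs_self _) c3
    simp only [Prod.fst_zero, Prod.snd_zero, Int.cast_zero, sub_zero] at d2
    have f1 := T_triangle ω 0 (K, 0) w
    have f2 := T_triangle ω (K, 0) 0 z
    rw [T_comm ω (K, 0) 0] at f2
    have f3 := T_nonneg ω w z
    have f4 := hN.le z.1 z.2
    have f5 : μ * (|(z.1 : ℝ)| + |(z.2 : ℝ)|) ≤ μ * (C * n + C * n) := by gcongr
    have f6 : μ * (D * n - 1) ≤ μ * m := by gcongr; linarith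
    have f7 : μ * (D * n - 1) = (D * μ) * n - μ := by ring
    rw [f7, hDμ] at f6
    nlinarith
  calc (Q ν).real _ ≤ (Q ν).real ((A1 ∪ A2) ∪ A3) :=
        measureReal_mono hincl (measure_ne_top _ _)
    _ ≤ ((Q ν).real A1 + (Q ν).real A2) + (Q ν).real A3 :=
      (measureReal_union_le _ _).trans
        (add_le_add (measureReal_union_le _ _) le_rfl)
    _ ≤ ε := by linarith

end Pool.Agent.Work.MP_9a767b_pr
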