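import Pool.Agent.Work.MP_9a767b_pr.Lower

/-!
# FixedK: the L¹ statement for fixed window length
-/

open MeasureTheory ProbabilityTheory Filter Topology

namespace Pool.Agent.Work.MP_9a767b_pr

private theorem fk_smul (K : ℕ) : ((K : ℤ) • ((1, 0) : V)) = ((K : ℤ), 0) := by
  ext <;> simp

private theorem fk_nonneg {ν : Measure ℝ} [IsProbabilityMeasure ν]
    (hI : Integrable (fun ω => T ω 0 (1, 0)) (Q ν)) : 0 ≤ Nm (g ν) 1 0 := by
  have hsub := subSym_g hI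
  refine ge_of_tendsto (nm_tendsto hsub 1 0) (Eventually.of_forall fun n => ?_)
  have := hsub.nonneg (⌊(n : ℝ) * 1⌋, ⌊(n : ℝ) * 0⌋)
  positivity

private theorem fk_lln {ν : Measure ℝ} [IsProbabilityMeasure ν]
    (hI : Integrable (fun ω => T ω 0 (1, 0)) (Q ν)) {ε : ℝ} (hε : 0 < ε) :
    ∃ m0 : ℕ, ∀ m : ℕ, m0 ≤ m →
      ∫ ω, |T ω 0 ((m : ℤ), 0) - m * Nm (g ν) 1 0| ∂(Q ν) ≤ ε * m := by
  obtain ⟨m0, hm0⟩ := lln hI (1, 0) hε
  refine ⟨m0, fun m hm => ?_⟩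
  have h := hm0 m hm
  rw [fk_smul] at h
  simpa using h

theorem fixed_K {ν : Measure ℝ} [IsProbabilityMeasure ν]
    (hI : Integrable (fun ω => T ω 0 (1, 0)) (Q ν)) {ε : ℝ} (hε : 0 < ε) :
    ∃ K0 : ℕ, ∀ K : ℕ, K0 ≤ K → ∃ n0 : ℕ, ∀ n : ℕ, n0 ≤ n →
      ∫ ω, |T ω 0 ((n : ℤ) + K, 0) - T ω 0 (n, 0) - K * Nm (g ν) 1 0| ∂(Q ν) ≤ ε * K := by
  rcases (fk_nonneg hI).eq_or_lt with hμ | hμ
  · obtain ⟨K0, hK0⟩ := fk_lln hI hε
    refine ⟨K0, fun K hK => ⟨0, fun n _ => ?_⟩⟩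
    rw [← hμ]
    have h1 := hK0 K hK
    rw [← hμ] at h1
    simp only [mul_zero, sub_zero] at h1 ⊢
    have h2 : ∫ ω, |T ω 0 ((n : ℤ) + K, 0) - T ω 0 (n, 0)| ∂(Q ν) ≤
        ∫ ω, T ω (n, 0) ((n : ℤ) + K, 0) ∂(Q ν) := by
      refine integral_mono ((integrable_T hI _ _).sub (integrable_T hI _ _)).abs
        (integrable_T hI _ _) fun ω => ?_
      show |T ω 0 ((n : ℤ) + K, 0) - T ω 0 (n, 0)| ≤ T ω (n, 0) ((n : ℤ) + K, 0)
      have h3 := T_triangle ω 0 (n, 0) ((n : ℤ) + K, 0)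
      have h4 := T_triangle ω 0 ((n : ℤ) + K, 0) (n, 0)
      rw [T_comm ω ((n : ℤ) + K, 0) (n, 0)] at h4
      rw [abs_le]
      constructor <;> linarith
    have h3 : ∫ ω, T ω (n, 0) ((n : ℤ) + K, 0) ∂(Q ν) = ∫ ω, |T ω 0 ((K : ℤ), 0)| ∂(Q ν) := by
      rw [integral_T]
      have e : (((n : ℤ) + K, 0) : V) - ((n : ℤ), 0) = ((K : ℤ), 0) := by ext <;> simp
      rw [e]
      unfold g
      refine integral_congr_ae (Eventually.of_forall fun ω => ?_)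
      exact (abs_of_nonneg (T_nonneg _ _ _)).symm
    rw [h3] at h2
    exact h2.trans h1
  · obtain ⟨K1, hK1⟩ := fk_lln hI (show 0 < ε / 3 by positivity)
    obtain ⟨K2, hK2⟩ := lower hI hμ (show 0 < ε / 3 by positivity)
    refine ⟨max K1 K2, fun K hK => ?_⟩
    obtain ⟨n0, hn0⟩ := hK2 K (le_trans (le_max_right _ _) hK)
    refine ⟨n0, fun n hn => ?_⟩
    have h1 := hK1 K (le_trans (le_max_left _ _) hK)
    have h2 := hn0 n hn
    set μ := Nm (g ν) 1 0 with hμd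
    have i1 := integrable_T hI 0 ((n : ℤ) + K, 0)
    have i2 := integrable_T hI ((K : ℤ), 0) ((n : ℤ) + K, 0)
    have i3 := integrable_T hI 0 ((K : ℤ), 0)
    have hrefl : ∫ ω, |T ω 0 ((n : ℤ) + K, 0) - T ω 0 (n, 0) - K * μ| ∂(Q ν) =
        ∫ ω, |T ω 0 ((n : ℤ) + K, 0) - T ω ((K : ℤ), 0) ((n : ℤ) + K, 0) - K * μ| ∂(Q ν) := by
      have hm : Measurable (fun ω : Cfg => |T ω 0 ((n : ℤ) + K, 0) - T ω 0 (n, 0) - K * μ|) :=
        (((measurable_T _ _).sub (measurable_T _ _)).sub_const _).abs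
      rw [← integral_comp_act ν (refl1 ((n : ℤ) + K)) _ hm]
      refine integral_congr_ae (Eventually.of_forall fun ω => ?_)
      simp only [T_refl1]
      have e1 : (((n : ℤ) + K - (0 : V).1, (0 : V).2) : V) = ((n : ℤ) + K, 0) := by simp
      have e2 : (((n : ℤ) + K - ((n : ℤ) + K), 0) : V) = 0 := by ext <;> simp
      have e3 : (((n : ℤ) + K - (n : ℤ), 0) : V) = ((K : ℤ), 0) := by ext <;> simp
      rw [e1, e2, e3, T_comm ω ((n : ℤ) + K, 0) 0, T_comm ω ((n : ℤ) + K, 0) ((K : ℤ), 0)]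
    rw [hrefl]
    have hpt : ∀ ω, |T ω 0 ((n : ℤ) + K, 0) - T ω ((K : ℤ), 0) ((n : ℤ) + K, 0) - K * μ| ≤
        2 * |T ω 0 ((K : ℤ), 0) - K * μ| -
          ((T ω 0 ((n : ℤ) + K, 0) - T ω ((K : ℤ), 0) ((n : ℤ) + K, 0)) - K * μ) := by
      intro ω
      have h3 := T_triangle ω 0 ((K : ℤ), 0) ((n : ℤ) + K, 0)
      have h4 := le_abs_self (T ω 0 ((K : ℤ), 0) - K * μ)
      have h5 := abs_nonneg (T ω 0 ((K : ℤ), 0) - K * μ)
      rw [abs_le]
      constructor <;> linarith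
    have hint := integral_mono (((i1.sub i2).sub (integrable_const (K * μ))).abs)
      ((((i3.sub (integrable_const (K * μ))).abs).const_mul 2).sub
        ((i1.sub i2).sub (integrable_const (K * μ)))) hpt
    have e0 : ∫ ω, (2 * |T ω 0 ((K : ℤ), 0) - K * μ| -
          ((T ω 0 ((n : ℤ) + K, 0) - T ω ((K : ℤ), 0) ((n : ℤ) + K, 0)) - K * μ)) ∂(Q ν) =
        2 * (∫ ω, |T ω 0 ((K : ℤ), 0) - K * μ| ∂(Q ν)) -
          ((g ν ((n : ℤ) + K, 0) - g ν (n, 0)) - K * μ) := by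
      have a1 := integral_sub (μ := Q ν) (((i3.sub (integrable_const (K * μ))).abs).const_mul 2)
        ((i1.sub i2).sub (integrable_const (K * μ)))
      have a2 := integral_sub (μ := Q ν) (i1.sub i2) (integrable_const (K * μ))
      have a3 := integral_sub (μ := Q ν) i1 i2
      simp only [Pi.sub_apply] at a1 a2 a3
      rw [a1, a2, a3, integral_const_mul, integral_T, integral_T]
      have e1 : (((n : ℤ) + K, 0) : V) - 0 = ((n : ℤ) + K, 0) := by simp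
      have e2 : (((n : ℤ) + K, 0) : V) - ((K : ℤ), 0) = ((n : ℤ), 0) := by ext <;> simp
      rw [e1, e2]
      simp
    have hint2 := hint.trans (le_of_eq e0)
    refine hint2.trans ?_
    have h6 : ε * K = ε / 3 * K + ε / 3 * K + ε / 3 * K := by ring
    rw [h6]
    have h7 : (μ - ε / 3) * K = K * μ - ε / 3 * K := by ring
    rw [h7] at h2
    linarith

end Pool.Agent.Work.MP_9a767b_pr
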