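import Pool.Agent.Work.MP_9a767b_pr.Act

/-!
# GFacts: integrability, expectations and symmetries
-/

open MeasureTheory ProbabilityTheory Filter Topology

namespace Pool.Agent.Work.MP_9a767b_pr

theorem integral_comp_act (ν : Measure ℝ) [IsProbabilityMeasure ν] (σ : V ≃ V) (f : Cfg → ℝ)
    (hf : Measurable f) : ∫ ω, f (act σ ω) ∂(Q ν) = ∫ ω, f ω ∂(Q ν) := by
  have h := act_mp ν σ
  rw [← integral_map (φ := act σ) (f := f) (measurable_act σ).aemeasurable
    (by rw [h.map_eq]; exact hf.aestronglyMeasurable), h.map_eq]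

theorem integrable_comp_act (ν : Measure ℝ) [IsProbabilityMeasure ν] (σ : V ≃ V) {f : Cfg → ℝ}
    (hf : Integrable f (Q ν)) : Integrable (fun ω => f (act σ ω)) (Q ν) :=
  (act_mp ν σ).integrable_comp_of_integrable hf

theorem real_act (ν : Measure ℝ) [IsProbabilityMeasure ν] (σ : V ≃ V) (A : Set Cfg)
    (hA : MeasurableSet A) : (Q ν).real {ω | act σ ω ∈ A} = (Q ν).real A :=
  (act_mp ν σ).measureReal_preimage hA.nullMeasurableSet

variable {ν : Measure ℝ} [IsProbabilityMeasure ν]

private theorem integrable_adj (hI : Integrable (fun ω => T ω 0 (1, 0)) (Q ν)) {x y : V}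
    (h : lattice.Adj x y) : Integrable (fun ω => T ω x y) (Q ν) := by
  have h1 : Integrable (fun ω => T ω 0 (-1, 0)) (Q ν) := by
    refine (integrable_comp_act ν (refl1 0) hI).congr (Eventually.of_forall fun ω => ?_)
    simp only [T_refl1]; simp; rfl
  have h2 : Integrable (fun ω => T ω 0 (0, 1)) (Q ν) := by
    refine (integrable_comp_act ν swp hI).congr (Eventually.of_forall fun ω => ?_)
    simp only [T_swp]; simp; rfl
  have h3 : Integrable (fun ω => T ω 0 (0, -1)) (Q ν) := by
    refine (integrable_comp_act ν refl2 h2).congr (Eventually.of_forall fun ω => ?_)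
    simp only [T_refl2]; simp; rfl
  have h4 : Integrable (fun ω => T ω 0 (y - x)) (Q ν) := by
    rw [adj_iff] at h
    have hc : y - x = (1, 0) ∨ y - x = (-1, 0) ∨ y - x = (0, 1) ∨ y - x = (0, -1) := by
      obtain ⟨a, b⟩ := x
      obtain ⟨c, d⟩ := y
      simp only [Prod.mk_sub_mk, Prod.mk.injEq] at *
      rcases abs_cases (a - c) with h1 | h1 <;> rcases abs_cases (b - d) with h2 | h2 <;> omega
    rcases hc with hc | hc | hc | hc <;> rw [hc] <;> assumption
  refine (integrable_comp_act ν (trans x) h4).congr (Eventually.of_forall fun ω => ?_)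
  simp only [T_trans]; simp

theorem integrable_T (hI : Integrable (fun ω => T ω 0 (1, 0)) (Q ν)) (x y : V) :
    Integrable (fun ω => T ω x y) (Q ν) := by
  obtain ⟨w⟩ := nonempty_walk x y
  induction w with
  | nil => simp [T_self]
  | @cons u v w h p ih =>
    refine ((integrable_adj hI h).add ih).mono' (measurable_T _ _).aestronglyMeasurable ?_
    refine Eventually.of_forall fun ω => ?_
    rw [Real.norm_eq_abs, abs_of_nonneg (T_nonneg _ _ _)]
    exact T_triangle _ _ _ _

theorem integral_T (x y : V) : ∫ ω, T ω x y ∂(Q ν) = g ν (y - x) := by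
  rw [g, ← integral_comp_act ν (trans x) (fun ω => T ω 0 (y - x)) (measurable_T _ _)]
  refine integral_congr_ae (Eventually.of_forall fun ω => ?_)
  simp only [T_trans]; simp

theorem subSym_g (hI : Integrable (fun ω => T ω 0 (1, 0)) (Q ν)) : SubSym (g ν) where
  nonneg y := integral_nonneg fun ω => T_nonneg _ _ _
  zero := by simp [g, T_self]
  add_le x y := by
    have h1 := integral_T (ν := ν) x (x + y)
    rw [add_sub_cancel_left] at h1
    rw [← h1]
    unfold g
    rw [← integral_add (integrable_T hI _ _) (integrable_T hI _ _)]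
    exact integral_mono (integrable_T hI _ _) ((integrable_T hI _ _).add (integrable_T hI _ _))
      fun ω => T_triangle _ _ _ _
  flip1 a b := by
    unfold g
    rw [← integral_comp_act ν (refl1 0) (fun ω => T ω 0 (a, b)) (measurable_T _ _)]
    refine integral_congr_ae (Eventually.of_forall fun ω => ?_)
    simp only [T_refl1]; simp; rfl
  flip2 a b := by
    unfold g
    rw [← integral_comp_act ν refl2 (fun ω => T ω 0 (a, b)) (measurable_T _ _)]
    refine integral_congr_ae (Eventually.of_forall fun ω => ?_)
    simp only [T_refl2]; simp; rfl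
  swap a b := by
    unfold g
    rw [← integral_comp_act ν swp (fun ω => T ω 0 (a, b)) (measurable_T _ _)]
    refine integral_congr_ae (Eventually.of_forall fun ω => ?_)
    simp only [T_swp]; simp; rfl

end Pool.Agent.Work.MP_9a767b_pr
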