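import Pool.Agent.Work.MP_9a767b_pr.ULLN

/-!
# LineH: uniform control along a segment of a horizontal line, in probability
-/

open MeasureTheory ProbabilityTheory Filter Topology

namespace Pool.Agent.Work.MP_9a767b_pr

variable {ν : Measure ℝ} [IsProbabilityMeasure ν]

omit [IsProbabilityMeasure ν] in
/-- Markov's inequality. -/
theorem lh_markov {X : Cfg → ℝ} (hX : Integrable X (Q ν)) {c A : ℝ} (hc : 0 < c)
    (hA : ∫ ω, |X ω| ∂(Q ν) ≤ A) : (Q ν).real {ω | c ≤ |X ω|} ≤ A / c := by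
  have h := mul_meas_ge_le_integral_of_nonneg (μ := Q ν) (f := fun ω => |X ω|)
    (Eventually.of_forall fun _ => abs_nonneg _) hX.abs c
  rw [le_div_iff₀ hc]
  calc (Q ν).real {ω | c ≤ |X ω|} * c = c * (Q ν).real {ω | c ≤ |X ω|} := mul_comm _ _
    _ ≤ ∫ ω, |X ω| ∂(Q ν) := h
    _ ≤ A := hA

/-- Markov's inequality for the passage time between two points. -/
theorem lh_point (hI : Integrable (fun ω => T ω 0 (1, 0)) (Q ν)) {ε C δ c : ℝ} (hδ : 0 < δ)
    (hC : 0 < C) (hc : 0 < c) (hcd : c ≤ δ) (hε : 0 < ε) :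
    ∃ n0 : ℕ, ∀ n : ℕ, n0 ≤ n → ∀ x y : V, |(y.1 : ℝ) - x.1| ≤ C * n → |(y.2 : ℝ) - x.2| ≤ C * n →
      (Q ν).real {ω | δ * n ≤ |T ω x y - Nm (g ν) (y.1 - x.1) (y.2 - x.2)|} ≤ ε := by
  obtain ⟨n0, h0⟩ := ulln hI (ε := ε * c) (by positivity) hC
  refine ⟨max n0 1, fun n hn x y h1 h2 => ?_⟩
  have hn1 : (1 : ℝ) ≤ n := by exact_mod_cast (le_max_right _ _).trans hn
  have h3 := h0 n ((le_max_left _ _).trans hn) x y h1 h2
  have h4 := lh_markov ((integrable_T hI x y).sub (integrable_const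
    (Nm (g ν) (y.1 - x.1) (y.2 - x.2)))) (c := δ * n) (by positivity) h3
  refine h4.trans ?_
  rw [div_le_iff₀ (by positivity)]
  have : c * (n : ℝ) ≤ δ * n := by gcongr
  nlinarith

/-- Markov's inequality for a fixed pair of points. -/
theorem lh_fixed (hI : Integrable (fun ω => T ω 0 (1, 0)) (Q ν)) (x y : V) {δ ε : ℝ} (hδ : 0 < δ)
    (hε : 0 < ε) :
    ∃ n0 : ℕ, ∀ n : ℕ, n0 ≤ n → (Q ν).real {ω | δ * n ≤ |T ω x y|} ≤ ε := by
  set A : ℝ := ∫ ω, |T ω x y| ∂(Q ν) with hA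
  have hA0 : 0 ≤ A := integral_nonneg fun _ => abs_nonneg _
  refine ⟨⌈A / (δ * ε)⌉₊ + 1, fun n hn => ?_⟩
  have h1 : A / (δ * ε) ≤ n := (Nat.le_ceil _).trans (by exact_mod_cast (Nat.le_succ _).trans hn)
  have hn0 : (0 : ℝ) < n := by exact_mod_cast lt_of_lt_of_le (Nat.succ_pos _) hn
  rw [div_le_iff₀ (by positivity)] at h1
  refine (lh_markov (integrable_T hI x y) (c := δ * n) (by positivity) hA.ge).trans ?_
  rw [div_le_iff₀ (by positivity)]
  linarith

theorem lh_abs_sub (ω : Cfg) (p x y : V) : |T ω p x - T ω p y| ≤ T ω x y := by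
  rw [abs_le]
  have h1 := T_triangle ω p x y
  have h2 := T_triangle ω p y x
  rw [T_comm ω y x] at h2
  constructor <;> linarith

theorem lh_chain (ω : Cfg) (x u : V) (k : ℕ) :
    T ω x (x + (k : ℤ) • u) ≤
      ∑ j ∈ Finset.range k, T ω (x + (j : ℤ) • u) (x + ((j : ℤ) + 1) • u) := by
  induction k with
  | zero => simp [T_self]
  | succ k ih =>
    rw [Finset.sum_range_succ]
    have h1 := T_triangle ω x (x + (k : ℤ) • u) (x + ((k : ℤ) + 1) • u)
    push_cast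
    linarith

theorem lh_chain_le (ω : Cfg) (x u : V) {k L : ℕ} (hk : k ≤ L) :
    T ω x (x + (k : ℤ) • u) ≤
      ∑ j ∈ Finset.range L, T ω (x + (j : ℤ) • u) (x + ((j : ℤ) + 1) • u) := by
  refine (lh_chain ω x u k).trans ?_
  exact Finset.sum_le_sum_of_subset_of_nonneg (Finset.range_mono hk) fun j _ _ => T_nonneg _ _ _

theorem line_h {ν : Measure ℝ} [IsProbabilityMeasure ν]
    (hI : Integrable (fun ω => T ω 0 (1, 0)) (Q ν)) {ε C : ℝ} (hε : 0 < ε) (hC : 0 < C) :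
    ∃ n0 : ℕ, ∀ n : ℕ, n0 ≤ n → ∀ (p : V) (b : ℤ), |(p.1 : ℝ)| ≤ C * n → |(p.2 : ℝ)| ≤ C * n →
      |(b : ℝ)| ≤ C * n →
      (Q ν).real {ω | ∃ t : ℤ, |(t : ℝ)| ≤ C * n ∧
        ε * n < |T ω p (t, b) - Nm (g ν) (t - p.1) (b - p.2)|} ≤ ε := by
  set f1 : ℝ := g ν (1, 0) with hf1
  have hf0 : 0 ≤ f1 := (subSym_g hI).nonneg _
  set η : ℝ := ε / (4 * (2 * f1 + 1)) with hη
  have hη0 : 0 < η := by positivity
  have hη1 : (2 * f1 + 1) * η = ε / 4 := by rw [hη]; field_simp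
  set G : ℕ := ⌈C / η⌉₊ + 1 with hG
  set C' : ℝ := 2 * C + G * (η + 1) with hC'
  have hC'0 : 0 < C' := by positivity
  set N0 : ℝ := (2 * G + 1 : ℝ) with hN0
  set ε' : ℝ := ε / (2 * N0) with hε'
  have hN00 : 0 < N0 := by positivity
  have hε'0 : 0 < ε' := by positivity
  obtain ⟨n1, hn1⟩ := lh_point hI (δ := ε / 4) (c := ε / 4) (ε := ε') (C := C')
    (by positivity) hC'0 (by positivity) le_rfl hε'0
  obtain ⟨m0, hm0⟩ := step_lln hI (1, 0) hε'0
  refine ⟨max (max n1 1) (max ⌈(m0 : ℝ) / η⌉₊ ⌈4 * (2 * f1 + 1) / ε⌉₊), ?_⟩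
  intro n hn p b hp1 hp2 hb
  have hnn1 : n1 ≤ n := (le_max_left _ _).trans ((le_max_left _ _).trans hn)
  have hnn2 : 1 ≤ n := (le_max_right _ _).trans ((le_max_left _ _).trans hn)
  have hnn3 : (m0 : ℝ) / η ≤ n := (Nat.le_ceil _).trans
    (by exact_mod_cast (le_max_left _ _).trans ((le_max_right _ _).trans hn))
  have hnn4 : 4 * (2 * f1 + 1) / ε ≤ n := (Nat.le_ceil _).trans
    (by exact_mod_cast (le_max_right _ _).trans ((le_max_right _ _).trans hn))
  have hnr : (1 : ℝ) ≤ n := by exact_mod_cast hnn2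
  rw [div_le_iff₀ hη0] at hnn3
  rw [div_le_iff₀ hε] at hnn4
  set L : ℕ := ⌈η * n⌉₊ with hL
  have hLle : η * n ≤ (L : ℝ) := Nat.le_ceil _
  have hLlt : (L : ℝ) < η * n + 1 := Nat.ceil_lt_add_one (by positivity)
  have hLpos : 0 < (L : ℝ) := lt_of_lt_of_le (by positivity) hLle
  have hLposN : 0 < L := by exact_mod_cast hLpos
  have hLm0 : m0 ≤ L := by
    have : (m0 : ℝ) ≤ L := by linarith [mul_comm η (n : ℝ)]
    exact_mod_cast this
  -- the bad events
  let S : Finset ℤ := Finset.Icc (-(G : ℤ)) G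
  have hScard : (S.card : ℝ) = N0 := by
    have : S.card = 2 * G + 1 := by
      simp only [S, Int.card_Icc]
      omega
    rw [this, hN0]; push_cast; ring
  let A : ℤ → Set Cfg := fun i => {ω | ε / 4 * n ≤
    |T ω p (i * L, b) - Nm (g ν) (((i * L : ℤ) : ℝ) - p.1) ((b : ℝ) - p.2)|}
  let B : ℤ → Set Cfg := fun i => {ω | (L : ℝ) ≤
    |(∑ j ∈ Finset.range L, T ω (((i * L : ℤ), b) + (j : ℤ) • ((1, 0) : V))
      (((i * L : ℤ), b) + ((j : ℤ) + 1) • ((1, 0) : V))) - L * g ν (1, 0)|}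
  have hA : ∀ i ∈ S, (Q ν).real (A i) ≤ ε' := by
    intro i hi
    rw [Finset.mem_Icc] at hi
    have hi' : |(i : ℝ)| ≤ G := by
      rw [abs_le]; constructor
      · exact_mod_cast hi.1
      · exact_mod_cast hi.2
    refine hn1 n hnn1 p (i * L, b) ?_ ?_
    · have h1 : |((i * L : ℤ) : ℝ)| ≤ G * ((η + 1) * n) := by
        push_cast
        rw [abs_mul, abs_of_pos hLpos]
        have : (L : ℝ) ≤ (η + 1) * n := by nlinarith
        gcongr
      calc |(((i * L : ℤ)) : ℝ) - p.1| ≤ |((i * L : ℤ) : ℝ)| + |(p.1 : ℝ)| := abs_sub _ _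
        _ ≤ G * ((η + 1) * n) + C * n := add_le_add h1 hp1
        _ ≤ C' * n := by rw [hC']; nlinarith
    · calc |(b : ℝ) - p.2| ≤ |(b : ℝ)| + |(p.2 : ℝ)| := abs_sub _ _
        _ ≤ C * n + C * n := add_le_add hb hp2
        _ ≤ C' * n := by
          rw [hC']
          have : 0 ≤ (G : ℝ) * (η + 1) * n := by positivity
          nlinarith
  have hB : ∀ i ∈ S, (Q ν).real (B i) ≤ ε' := by
    intro i _
    have h1 := hm0 L hLm0 ((i * L : ℤ), b)
    have h2 := lh_markov (((integrable_finsetSum (Finset.range L) fun j _ =>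
      integrable_T hI (((i * L : ℤ), b) + (j : ℤ) • ((1, 0) : V))
        (((i * L : ℤ), b) + ((j : ℤ) + 1) • ((1, 0) : V)))).sub
        (integrable_const (L * g ν (1, 0)))) hLpos h1
    refine h2.trans (le_of_eq ?_)
    field_simp
  have hincl : {ω | ∃ t : ℤ, |(t : ℝ)| ≤ C * n ∧
      ε * n < |T ω p (t, b) - Nm (g ν) (t - p.1) (b - p.2)|} ⊆ ⋃ i ∈ S, (A i ∪ B i) := by
    rintro ω ⟨t, ht, hω⟩
    by_contra hcon
    simp only [Set.mem_iUnion, not_exists] at hcon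
    set i : ℤ := t / (L : ℤ) with hi
    have hLz : (0 : ℤ) < L := by exact_mod_cast hLposN
    have hr0 : 0 ≤ t - i * L := by
      have := Int.emod_nonneg t hLz.ne'
      have h2 := Int.emod_add_mul_ediv t L
      rw [hi]; linarith [mul_comm (L : ℤ) (t / L)]
    have hr1 : t - i * L < L := by
      have := Int.emod_lt_of_pos t hLz
      have h2 := Int.emod_add_mul_ediv t L
      rw [hi]; linarith [mul_comm (L : ℤ) (t / L)]
    have hr0' : (0 : ℝ) ≤ (t : ℝ) - i * L := by exact_mod_cast hr0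
    have hr1' : (t : ℝ) - i * L < L := by exact_mod_cast hr1
    have hCη : C / η ≤ ⌈C / η⌉₊ := Nat.le_ceil _
    have hGr : (G : ℝ) = ⌈C / η⌉₊ + 1 := by rw [hG]; push_cast; ring
    rw [div_le_iff₀ hη0] at hCη
    have hiS : i ∈ S := by
      have h1 := (abs_le.1 ht).1
      have h2 := (abs_le.1 ht).2
      have h3 : C * n ≤ ⌈C / η⌉₊ * L := by
        calc C * n ≤ (⌈C / η⌉₊ * η) * n := by gcongr
          _ = ⌈C / η⌉₊ * (η * n) := by ring
          _ ≤ _ := by gcongr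
      rw [Finset.mem_Icc]
      constructor
      · by_contra hlt
        push Not at hlt
        have h4 : (i : ℝ) + 1 ≤ -(G : ℝ) := by exact_mod_cast hlt
        have h5 : ((i : ℝ) + 1) * L ≤ -(G : ℝ) * L := by gcongr
        rw [hGr] at h5
        nlinarith
      · by_contra hlt
        push Not at hlt
        have h4 : (G : ℝ) + 1 ≤ (i : ℝ) := by exact_mod_cast hlt
        have h5 : ((G : ℝ) + 1) * L ≤ (i : ℝ) * L := by gcongr
        rw [hGr] at h5
        nlinarith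
    have hcc := hcon i hiS
    simp only [Set.mem_union, not_or, A, B, Set.mem_ofPred_eq, not_le] at hcc
    obtain ⟨c1, c2⟩ := hcc
    -- the chain
    obtain ⟨k, hk⟩ := Int.eq_ofNat_of_zero_le hr0
    have hkL : k ≤ L := by
      have : (k : ℤ) < L := by rw [← hk]; exact hr1
      omega
    have hpt : ((i * L : ℤ), b) + (k : ℤ) • ((1, 0) : V) = (t, b) := by
      ext
      · simp [← hk]
      · simp
    have d1 := lh_chain_le ω ((i * L : ℤ), b) (1, 0) hkL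
    rw [hpt] at d1
    have d2 := lh_abs_sub ω p (t, b) ((i * L : ℤ), b)
    rw [T_comm ω (t, b) ((i * L : ℤ), b)] at d2
    have d3 := nm_lip (subSym_g hI) ((t : ℝ) - p.1) ((b : ℝ) - p.2) (((i * L : ℤ) : ℝ) - p.1)
      ((b : ℝ) - p.2)
    have d4 : |((t : ℝ) - p.1) - (((i * L : ℤ) : ℝ) - p.1)| ≤ L := by
      push_cast
      rw [abs_le]; constructor <;> linarith
    rw [sub_self, abs_zero, add_zero] at d3
    have d5 : |Nm (g ν) ((t : ℝ) - p.1) ((b : ℝ) - p.2) -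
        Nm (g ν) (((i * L : ℤ) : ℝ) - p.1) ((b : ℝ) - p.2)| ≤ f1 * L :=
      d3.trans (by gcongr)
    have d6 := (abs_lt.1 c2).2
    rw [← hf1] at d6
    have d7 : (2 * f1 + 1) * L ≤ ε / 2 * n := by
      have : (2 * f1 + 1) * L ≤ (2 * f1 + 1) * (η * n + 1) := by gcongr
      nlinarith
    have d8 : |T ω p (t, b) - Nm (g ν) (t - p.1) (b - p.2)| ≤
        |T ω p (t, b) - T ω p ((i * L : ℤ), b)| +
        |T ω p ((i * L : ℤ), b) - Nm (g ν) (((i * L : ℤ) : ℝ) - p.1) ((b : ℝ) - p.2)| +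
        |Nm (g ν) ((t : ℝ) - p.1) ((b : ℝ) - p.2) -
          Nm (g ν) (((i * L : ℤ) : ℝ) - p.1) ((b : ℝ) - p.2)| := by
      rw [abs_sub_comm (Nm (g ν) ((t : ℝ) - p.1) ((b : ℝ) - p.2))]
      exact (abs_sub_le _ (Nm (g ν) (((i * L : ℤ) : ℝ) - p.1) ((b : ℝ) - p.2)) _).trans
        (by gcongr; exact abs_sub_le _ _ _)
    have d9 : 0 ≤ ε * n := by positivity
    linarith
  calc (Q ν).real _ ≤ (Q ν).real (⋃ i ∈ S, (A i ∪ B i)) := measureReal_mono hincl (measure_ne_top _ _)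
    _ ≤ ∑ i ∈ S, (Q ν).real (A i ∪ B i) := measureReal_biUnion_finset_le _ _
    _ ≤ ∑ i ∈ S, (ε' + ε') := Finset.sum_le_sum fun i hi =>
        (measureReal_union_le _ _).trans (add_le_add (hA i hi) (hB i hi))
    _ = N0 * (ε' + ε') := by rw [Finset.sum_const, nsmul_eq_mul, hScard]
    _ = ε := by rw [hε']; field_simp; ring

end Pool.Agent.Work.MP_9a767b_pr
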