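import Pool.Agent.Work.MP_9a767b_pr.Metric

/-!
# Meas: measurability of passage times
-/

open MeasureTheory ProbabilityTheory Filter Topology

namespace Pool.Agent.Work.MP_9a767b_pr

theorem countable_walk (x y : V) : Countable (lattice.Walk x y) := by
  have : Function.Injective (fun w : lattice.Walk x y => w.support) :=
    fun p q h => SimpleGraph.Walk.ext_support h
  exact this.countable

instance (x y : V) : Countable (lattice.Walk x y) := countable_walk x y

theorem measurable_listsum (l : List (Sym2 V)) :
    Measurable (fun c : Sym2 V → ℝ => (l.map c).sum) := by
  induction l with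
  | nil => simp
  | cons a l ih =>
    simp only [List.map_cons, List.sum_cons]
    exact (measurable_pi_apply a).add ih

theorem measurable_len {x y : V} (w : lattice.Walk x y) :
    Measurable (fun c : Sym2 V → ℝ => len c w) := measurable_listsum _

theorem measurable_pt (x y : V) : Measurable (fun c : Sym2 V → ℝ => pt c x y) :=
  Measurable.iInf fun w => measurable_len w

theorem measurable_T (x y : V) : Measurable (fun ω : Cfg => T ω x y) := by
  have h : Measurable (fun ω : Cfg => (fun e => |ω e| : Sym2 V → ℝ)) :=
    measurable_pi_lambda _ fun e => continuous_abs.measurable.comp (measurable_pi_apply e)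
  exact (measurable_pt x y).comp h

instance q_prob (ν : Measure ℝ) [IsProbabilityMeasure ν] : IsProbabilityMeasure (Q ν) := by
  unfold Q; infer_instance

end Pool.Agent.Work.MP_9a767b_pr
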