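import Pool.Agent.Work.MP_9a767b_pr.GFacts

/-!
# Transfer: from the canonical space to an arbitrary one
-/

open MeasureTheory ProbabilityTheory Filter Topology

namespace Pool.Agent.Work.MP_9a767b_pr

private theorem pt_congr {c c' : Sym2 V → ℝ} (h : ∀ e ∈ lattice.edgeSet, c e = c' e) (x y : V) :
    pt c x y = pt c' x y := by
  unfold pt
  congr 1
  funext w
  unfold len
  congr 1
  refine List.map_congr_left fun e he => h e ?_
  exact SimpleGraph.Walk.edges_subset_edgeSet w he

open Classical in
/-- extension by zero -/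
private noncomputable def extz (x : lattice.edgeSet → ℝ) : Sym2 V → ℝ :=
  fun e => if h : e ∈ lattice.edgeSet then x ⟨e, h⟩ else 0

private theorem extz_apply (x : lattice.edgeSet → ℝ) {e : Sym2 V} (h : e ∈ lattice.edgeSet) :
    extz x e = x ⟨e, h⟩ := by
  unfold extz
  exact dif_pos h

private theorem measurable_extz : Measurable extz := by
  refine measurable_pi_lambda _ fun e => ?_
  by_cases h : e ∈ lattice.edgeSet
  · have h1 : (fun x : lattice.edgeSet → ℝ => extz x e) = fun x => x ⟨e, h⟩ := by
      funext x
      exact extz_apply x h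
    rw [h1]
    exact measurable_pi_apply _
  · have h1 : (fun x : lattice.edgeSet → ℝ => extz x e) = fun _ => 0 := by
      funext x
      exact dif_neg h
    rw [h1]
    exact measurable_const

theorem transfer {Ω : Type*} [MeasurableSpace Ω] (P : Measure Ω) [IsProbabilityMeasure P]
    (ν : Measure ℝ) [IsProbabilityMeasure ν] (τ : Sym2 V → Ω → ℝ)
    (hτm : ∀ e ∈ lattice.edgeSet, AEMeasurable (τ e) P)
    (hind : iIndepFun (fun (e : lattice.edgeSet) => τ e.1) P)
    (hlaw : ∀ e ∈ lattice.edgeSet, Measure.map (τ e) P = ν)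
    (hpos : ∀ e ω, 0 ≤ τ e ω) {m : ℕ} (a b : Fin m → V) (f : (Fin m → ℝ) → ℝ)
    (hf : Measurable f) :
    ∫ ω, f (fun i => pt (fun e => τ e ω) (a i) (b i)) ∂P =
        ∫ ω, f (fun i => T ω (a i) (b i)) ∂(Q ν) ∧
      (Integrable (fun ω => f (fun i => pt (fun e => τ e ω) (a i) (b i))) P ↔
        Integrable (fun ω => f (fun i => T ω (a i) (b i))) (Q ν)) := by
  set X : Ω → (lattice.edgeSet → ℝ) := fun ω e => τ e.1 ω with hX
  have hXm : AEMeasurable X P := aemeasurable_pi_iff.2 fun e => hτm e.1 e.2
  have hXl : P.map X = Measure.infinitePi (fun _ : lattice.edgeSet => ν) := by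
    have h1 := hind.map_fun_eq_infinitePi_map₀ hXm
    rw [hX, h1]
    congr 1
    funext e
    exact hlaw e.1 e.2
  set R : Cfg → (lattice.edgeSet → ℝ) := lattice.edgeSet.domRestrict with hR
  have hRm : Measurable R := measurable_pi_lambda _ fun e => measurable_pi_apply _
  have hRl : (Q ν).map R = Measure.infinitePi (fun _ : lattice.edgeSet => ν) := by
    unfold Q
    exact Measure.infinitePi_map_restrict' (μ := fun _ : Sym2 V => ν) (I := lattice.edgeSet)
  set H : (lattice.edgeSet → ℝ) → ℝ :=
    fun x => f (fun i => pt (fun e => |extz x e|) (a i) (b i)) with hH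
  have hHm : Measurable H := by
    refine hf.comp (measurable_pi_lambda _ fun i => ?_)
    refine (measurable_pt (a i) (b i)).comp (measurable_pi_lambda _ fun e => ?_)
    exact continuous_abs.measurable.comp ((measurable_pi_apply e).comp measurable_extz)
  have e1 : ∀ ω, f (fun i => pt (fun e => τ e ω) (a i) (b i)) = H (X ω) := by
    intro ω
    rw [hH]
    congr 1
    funext i
    refine pt_congr (fun e he => ?_) _ _
    rw [extz_apply _ he, abs_of_nonneg (hpos e ω)]
  have e2 : ∀ ω, f (fun i => T ω (a i) (b i)) = H (R ω) := by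
    intro ω
    rw [hH]
    congr 1
    funext i
    refine pt_congr (fun e he => ?_) _ _
    rw [extz_apply _ he]
    rfl
  have e1' : (fun ω => f (fun i => pt (fun e => τ e ω) (a i) (b i))) = H ∘ X := funext e1
  have e2' : (fun ω => f (fun i => T ω (a i) (b i))) = H ∘ R := funext e2
  have hHX : AEStronglyMeasurable H (P.map X) := hHm.aestronglyMeasurable
  have hHR : AEStronglyMeasurable H ((Q ν).map R) := hHm.aestronglyMeasurable
  constructor
  · have i1 := integral_map hXm hHX
    have i2 := integral_map hRm.aemeasurable hHR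
    rw [hXl] at i1
    rw [hRl] at i2
    simp only [e1, e2]
    rw [← i1, ← i2]
  · have i1 := integrable_map_measure hHX hXm
    have i2 := integrable_map_measure hHR hRm.aemeasurable
    rw [hXl] at i1
    rw [hRl] at i2
    rw [e1', e2', ← i1, ← i2]

end Pool.Agent.Work.MP_9a767b_pr
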