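import Pool.Agent.Work.MP_9a767b_pr.Window
import Pool.Agent.Work.MP_9a767b_pr.Transfer

/-!
# Main: assembly
-/

open MeasureTheory ProbabilityTheory Filter Topology

namespace Pool.Agent.Work.MP_9a767b_pr

theorem main {Ω : Type*} [MeasurableSpace Ω] (P : Measure Ω) [IsProbabilityMeasure P]
    (ν : Measure ℝ) (τ : Sym2 (ℤ × ℤ) → Ω → ℝ) (a : ℕ → Ω → ℝ)
    (hτ : ∀ e ∈ lattice.edgeSet, Measurable (τ e))
    (hind : iIndepFun (fun (e : lattice.edgeSet) => τ e.1) P)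
    (hlaw : ∀ e ∈ lattice.edgeSet, Measure.map (τ e) P = ν)
    (hpos : ∀ e ω, 0 ≤ τ e ω)
    (ha : ∀ n ω, a n ω = ⨅ w : lattice.Walk ((0, 0) : ℤ × ℤ) ((n : ℤ), 0),
      (w.edges.map (fun e => τ e ω)).sum)
    (hint : Integrable (a 1) P) :
    ∃ μ : ℝ, Tendsto (fun n : ℕ => (∫ ω, a n ω ∂P) / n) atTop (𝓝 μ) ∧
      (∀ δ > 0, ∃ K₀ : ℕ, ∀ K ≥ K₀, ∀ n : ℕ, ∫ ω, |a (n + K) ω - a n ω - K * μ| ∂P ≤ δ * K) ∧
      (0 < μ → ∃ K₀ : ℕ, ∀ K ≥ K₀, ∀ n : ℕ, ∫ ω, a n ω ∂P < ∫ ω, a (n + K) ω ∂P) := by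
  have hpt : ∀ n ω, a n ω = pt (fun e => τ e ω) 0 ((n : ℤ), 0) := fun n ω => ha n ω
  have hedge : s(((0, 0) : ℤ × ℤ), ((1, 0) : ℤ × ℤ)) ∈ lattice.edgeSet := by
    rw [SimpleGraph.mem_edgeSet, adj_iff]; simp
  have : IsProbabilityMeasure ν := by
    rw [← hlaw _ hedge]; exact Measure.isProbabilityMeasure_map (hτ _ hedge).aemeasurable
  have hT := fun (m : ℕ) (x y : Fin m → V) (f : (Fin m → ℝ) → ℝ) (hf : Measurable f) =>
    transfer P ν τ (fun e he => (hτ e he).aemeasurable) hind hlaw hpos x y f hf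
  have hI : Integrable (fun ω => T ω 0 (1, 0)) (Q ν) := by
    have h := (hT 1 (fun _ => 0) (fun _ => (1, 0)) (fun v => v 0) (measurable_pi_apply 0)).2
    refine h.1 ?_
    refine hint.congr (Eventually.of_forall fun ω => ?_)
    simpa using hpt 1 ω
  have hgi : ∀ n : ℕ, Integrable (a n) P ∧ ∫ ω, a n ω ∂P = g ν (n, 0) := by
    intro n
    have h := hT 1 (fun _ => 0) (fun _ => ((n : ℤ), 0)) (fun v => v 0) (measurable_pi_apply 0)
    refine ⟨?_, ?_⟩
    · refine (h.2.2 (integrable_T hI _ _)).congr (Eventually.of_forall fun ω => ?_)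
      exact (hpt n ω).symm
    · rw [g, ← h.1]
      exact integral_congr_ae (Eventually.of_forall fun ω => hpt n ω)
  have hsub := subSym_g hI
  refine ⟨Nm (g ν) 1 0, ?_, ?_, ?_⟩
  · have h := nm_tendsto_int hsub 1 0
    simp only [mul_one, mul_zero, Int.cast_one, Int.cast_zero] at h
    refine h.congr fun n => ?_
    rw [(hgi n).2]
  · intro δ hδ
    obtain ⟨K0, hK0⟩ := window hI hδ
    refine ⟨K0, fun K hK n => ?_⟩
    refine le_trans (le_of_eq ?_) (hK0 K hK n)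
    have h := (hT 2 (fun _ => 0) ![((n : ℤ) + K, 0), ((n : ℤ), 0)]
      (fun v => |v 0 - v 1 - K * Nm (g ν) 1 0|) (by fun_prop)).1
    simp only [Matrix.cons_val_zero, Matrix.cons_val_one] at h
    rw [← h]
    refine integral_congr_ae (Eventually.of_forall fun ω => ?_)
    simp only [hpt]
    push_cast
    rfl
  · intro hμ
    obtain ⟨K0, hK0⟩ := window hI (half_pos hμ)
    refine ⟨K0 + 1, fun K hK n => ?_⟩
    have h1 := hK0 K (by omega) n
    have h2 : (∫ ω, (K * Nm (g ν) 1 0 - (T ω 0 ((n : ℤ) + K, 0) - T ω 0 (n, 0))) ∂(Q ν)) ≤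
        Nm (g ν) 1 0 / 2 * K := by
      refine le_trans (integral_mono ?_ ?_ ?_) h1
      · exact (integrable_const _).sub ((integrable_T hI _ _).sub (integrable_T hI _ _))
      · exact (((integrable_T hI _ _).sub (integrable_T hI _ _)).sub (integrable_const _)).abs
      · intro ω
        show _ ≤ |T ω 0 ((n : ℤ) + K, 0) - T ω 0 (n, 0) - K * Nm (g ν) 1 0|
        rw [abs_sub_comm]
        exact le_abs_self _
    have h3 : (∫ ω, (K * Nm (g ν) 1 0 - (T ω 0 ((n : ℤ) + K, 0) - T ω 0 (n, 0))) ∂(Q ν)) =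
        K * Nm (g ν) 1 0 - (g ν ((n : ℤ) + K, 0) - g ν (n, 0)) := by
      have e1 := integral_sub (μ := Q ν) (integrable_const (K * Nm (g ν) 1 0))
        ((integrable_T hI 0 ((n : ℤ) + K, 0)).sub (integrable_T hI 0 ((n : ℤ), 0)))
      have e2 := integral_sub (μ := Q ν) (integrable_T hI 0 ((n : ℤ) + K, 0))
        (integrable_T hI 0 ((n : ℤ), 0))
      simp only [Pi.sub_apply] at e1 e2
      rw [e1, e2]
      simp [g]
    rw [h3] at h2
    rw [(hgi n).2, (hgi (n + K)).2]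
    push_cast
    have hK' : (1 : ℝ) ≤ K := by exact_mod_cast (by omega : 1 ≤ K)
    nlinarith
 
end Pool.Agent.Work.MP_9a767b_pr
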