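import Pool.Agent.Work.MP_9a767b_pr.LineH

/-!
# LineV: uniform control along a segment of a vertical line, in probability

From `line_h` by `swp` (`T_swp`, `real_act`) and `nm_swap`.
-/

open MeasureTheory ProbabilityTheory Filter Topology

namespace Pool.Agent.Work.MP_9a767b_pr

theorem lv_meas (ν : Measure ℝ) (D δ : ℝ) (p : V) (b : ℤ) :
    MeasurableSet {ω : Cfg | ∃ t : ℤ, |(t : ℝ)| ≤ D ∧
        δ < |T ω p (t, b) - Nm (g ν) (t - p.1) (b - p.2)|} := by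
  have : {ω : Cfg | ∃ t : ℤ, |(t : ℝ)| ≤ D ∧
        δ < |T ω p (t, b) - Nm (g ν) (t - p.1) (b - p.2)|} =
      ⋃ t : ℤ, {ω : Cfg | |(t : ℝ)| ≤ D ∧
        δ < |T ω p (t, b) - Nm (g ν) (t - p.1) (b - p.2)|} := by
    ext ω; simp
  rw [this]
  refine MeasurableSet.iUnion fun t => ?_
  by_cases ht : |(t : ℝ)| ≤ D
  · simp only [ht, true_and]
    exact measurableSet_lt measurable_const ((measurable_T _ _).sub_const _).abs
  · simp only [ht, false_and]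
    exact MeasurableSet.empty

theorem line_v {ν : Measure ℝ} [IsProbabilityMeasure ν]
    (hI : Integrable (fun ω => T ω 0 (1, 0)) (Q ν)) {ε C : ℝ} (hε : 0 < ε) (hC : 0 < C) :
    ∃ n0 : ℕ, ∀ n : ℕ, n0 ≤ n → ∀ (p : V) (b : ℤ), |(p.1 : ℝ)| ≤ C * n → |(p.2 : ℝ)| ≤ C * n →
      |(b : ℝ)| ≤ C * n →
      (Q ν).real {ω | ∃ t : ℤ, |(t : ℝ)| ≤ C * n ∧
        ε * n < |T ω p (b, t) - Nm (g ν) (b - p.1) (t - p.2)|} ≤ ε := by
  obtain ⟨n0, h0⟩ := line_h hI hε hC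
  refine ⟨n0, fun n hn p b hp1 hp2 hb => ?_⟩
  have h1 := h0 n hn (p.2, p.1) b hp2 hp1 hb
  rw [← real_act ν swp _ (lv_meas ν (C * n) (ε * n) (p.2, p.1) b)] at h1
  have e : {ω : Cfg | ∃ t : ℤ, |(t : ℝ)| ≤ C * n ∧
        ε * n < |T ω p (b, t) - Nm (g ν) (b - p.1) (t - p.2)|} =
      {ω : Cfg | act swp ω ∈ {ω : Cfg | ∃ t : ℤ, |(t : ℝ)| ≤ C * n ∧
        ε * n < |T ω (p.2, p.1) (t, b) - Nm (g ν) (t - (p.2, p.1).1) (b - (p.2, p.1).2)|}} := by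
    ext ω
    simp only [Set.mem_ofPred_eq]
    refine exists_congr fun t => ?_
    rw [T_swp, nm_swap (subSym_g hI)]
  rw [e]
  exact h1

end Pool.Agent.Work.MP_9a767b_pr
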