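import Pool.Agent.Work.MP_9a767b_pr.Local
import Pool.Agent.Work.MP_9a767b_pr.GFacts

/-!
# LocLLN: law of large numbers for the translates of a bounded local function
-/

open MeasureTheory ProbabilityTheory Filter Topology

namespace Pool.Agent.Work.MP_9a767b_pr

namespace LocAux

/-- The unordered pairs of vertices of the box around `z`. -/
noncomputable def bx (R : ℕ) (z : V) : Finset (Sym2 V) :=
  (Finset.Icc ((z.1 - R, z.2 - R) : V) (z.1 + R, z.2 + R)).sym2

/-- Extension by zero. -/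
noncomputable def ext (S : Finset (Sym2 V)) (x : S → ℝ) : Cfg := by
  classical
  exact fun e => if h : e ∈ S then x ⟨e, h⟩ else 0

theorem measurable_ext (S : Finset (Sym2 V)) : Measurable (ext S) := by
  classical
  refine measurable_pi_lambda _ fun e => ?_
  unfold ext
  by_cases h : e ∈ S
  · simp only [h, dite_true]; exact measurable_pi_apply _
  · simp only [h, dite_false]; exact measurable_const

theorem ext_apply (S : Finset (Sym2 V)) (x : S → ℝ) {e : Sym2 V} (h : e ∈ S) :
    ext S x e = x ⟨e, h⟩ := by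
  classical
  unfold ext
  simp only [h, dite_true]

theorem map_mem_bx {R : ℕ} {e : Sym2 V} (he : InBox R e) (z : V) :
    e.map (trans z) ∈ bx R z := by
  unfold bx
  rw [Finset.mem_sym2_iff]
  intro a ha
  obtain ⟨b, hb, rfl⟩ := Sym2.mem_map.1 ha
  have h := he b hb
  rw [abs_le, abs_le] at h
  rw [Finset.mem_Icc, Prod.le_def, Prod.le_def]
  simp only [trans, Equiv.coe_addLeft, Prod.fst_add, Prod.snd_add]
  constructor <;> constructor <;> linarith [h.1.1, h.1.2, h.2.1, h.2.2]

theorem bx_disjoint {R : ℕ} {z z' : V}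
    (h : 2 * (R : ℤ) < |z.1 - z'.1| ∨ 2 * (R : ℤ) < |z.2 - z'.2|) :
    Disjoint (bx R z) (bx R z') := by
  rw [Finset.disjoint_left]
  intro e he he'
  unfold bx at he he'
  rw [Finset.mem_sym2_iff] at he he'
  induction e with
  | _ a b =>
    have h1 := he a (by simp)
    have h2 := he' a (by simp)
    rw [Finset.mem_Icc, Prod.le_def, Prod.le_def] at h1 h2
    obtain ⟨⟨h1a, h1b⟩, h1c, h1d⟩ := h1
    obtain ⟨⟨h2a, h2b⟩, h2c, h2d⟩ := h2
    simp only at h1a h1b h1c h1d h2a h2b h2c h2d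
    rcases h with h | h
    · rcases abs_cases (z.1 - z'.1) with h3 | h3 <;> omega
    · rcases abs_cases (z.2 - z'.2) with h3 | h3 <;> omega

variable {ν : Measure ℝ} [IsProbabilityMeasure ν]

theorem indep (Ψ : Cfg → ℝ) (R : ℕ) (hm : Measurable Ψ)
    (hloc : ∀ ω ω' : Cfg, (∀ e, InBox R e → ω e = ω' e) → Ψ ω = Ψ ω') {z z' : V}
    (h : 2 * (R : ℤ) < |z.1 - z'.1| ∨ 2 * (R : ℤ) < |z.2 - z'.2|) :
    IndepFun (fun ω => Ψ (act (trans z) ω)) (fun ω => Ψ (act (trans z') ω)) (Q ν) := by
  have h0 : iIndepFun (fun (e : Sym2 V) (ω : Cfg) => ω e) (Q ν) := by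
    unfold Q
    exact iIndepFun_infinitePi (P := fun _ : Sym2 V => ν) (X := fun _ (x : ℝ) => x)
      (fun _ => measurable_id)
  have h1 := h0.indepFun_finset (bx R z) (bx R z') (bx_disjoint h) (fun e => measurable_pi_apply e)
  have key : ∀ z : V, (fun ω : Cfg => Ψ (act (trans z) ω)) =
      (fun x : bx R z → ℝ => Ψ (act (trans z) (ext (bx R z) x))) ∘
        (fun (ω : Cfg) (e : bx R z) => ω e) := by
    intro z
    funext ω
    simp only [Function.comp]
    refine hloc _ _ fun e he => ?_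
    unfold act
    rw [ext_apply _ _ (map_mem_bx he z)]
  have hmm : ∀ z : V, Measurable (fun x : bx R z → ℝ => Ψ (act (trans z) (ext (bx R z) x))) :=
    fun z => hm.comp ((measurable_act _).comp (measurable_ext _))
  rw [key z, key z']
  exact h1.comp (hmm z) (hmm z')

end LocAux

open LocAux in
theorem loc_lln {ν : Measure ℝ} [IsProbabilityMeasure ν] (u : V) (hu : u ≠ 0) (Ψ : Cfg → ℝ) (M : ℝ)
    (R : ℕ) (hm : Measurable Ψ) (hb : ∀ ω, 0 ≤ Ψ ω ∧ Ψ ω ≤ M)
    (hloc : ∀ ω ω' : Cfg, (∀ e, InBox R e → ω e = ω' e) → Ψ ω = Ψ ω') {ε : ℝ} (hε : 0 < ε) :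
    ∃ m0 : ℕ, ∀ m : ℕ, m0 ≤ m →
      ∫ ω, |(∑ j ∈ Finset.range m, Ψ (act (trans ((j : ℤ) • u)) ω)) - m * ∫ ω', Ψ ω' ∂(Q ν)| ∂(Q ν)
        ≤ ε * m := by
  classical
  set E := ∫ ω', Ψ ω' ∂(Q ν) with hE
  have hiΨ : Integrable Ψ (Q ν) := by
    refine (integrable_const M).mono' hm.aestronglyMeasurable (Eventually.of_forall fun ω => ?_)
    rw [Real.norm_eq_abs, abs_of_nonneg (hb ω).1]; exact (hb ω).2
  have hE0 : 0 ≤ E := integral_nonneg fun ω => (hb ω).1
  have hEM : E ≤ M := by
    have := integral_mono hiΨ (integrable_const M) fun ω => (hb ω).2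
    simpa using this
  have hM0 : 0 ≤ M := hE0.trans hEM
  set Z : ℕ → Cfg → ℝ := fun j ω => Ψ (act (trans ((j : ℤ) • u)) ω) - E with hZ
  have hZm : ∀ j, Measurable (Z j) := fun j => (hm.comp (measurable_act _)).sub measurable_const
  have hZb : ∀ j ω, |Z j ω| ≤ M := by
    intro j ω
    have := hb (act (trans ((j : ℤ) • u)) ω)
    rw [abs_le]; constructor <;> simp only [hZ] <;> linarith
  have hZi : ∀ i j, Integrable (fun ω => Z i ω * Z j ω) (Q ν) := by
    intro i j
    refine (integrable_const (M * M)).mono' ((hZm i).mul (hZm j)).aestronglyMeasurable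
      (Eventually.of_forall fun ω => ?_)
    rw [Real.norm_eq_abs, abs_mul]
    exact mul_le_mul (hZb i ω) (hZb j ω) (abs_nonneg _) hM0
  have hcov : ∀ i j : ℕ, ∫ ω, Z i ω * Z j ω ∂(Q ν) ≤
      if |(i : ℤ) - j| ≤ 2 * (R : ℤ) then M * M else 0 := by
    intro i j
    split_ifs with hij
    · have := integral_mono (hZi i j) (integrable_const (M * M)) fun ω => by
        have h1 := abs_mul (Z i ω) (Z j ω)
        have h2 := mul_le_mul (hZb i ω) (hZb j ω) (abs_nonneg _) hM0
        exact (le_abs_self _).trans (h1.le.trans h2)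
      simpa using this
    · push Not at hij
      have hsep : 2 * (R : ℤ) < |((i : ℤ) • u).1 - ((j : ℤ) • u).1| ∨
          2 * (R : ℤ) < |((i : ℤ) • u).2 - ((j : ℤ) • u).2| := by
        simp only [Prod.smul_fst, Prod.smul_snd, smul_eq_mul, ← sub_mul, abs_mul]
        have hcases : u.1 ≠ 0 ∨ u.2 ≠ 0 := by
          by_contra hcon
          push Not at hcon
          exact hu (Prod.ext hcon.1 hcon.2)
        rcases hcases with h | h
        · left
          have : 1 ≤ |u.1| := Int.one_le_abs h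
          nlinarith [abs_nonneg ((i : ℤ) - j)]
        · right
          have : 1 ≤ |u.2| := Int.one_le_abs h
          nlinarith [abs_nonneg ((i : ℤ) - j)]
      have hind := (indep (ν := ν) Ψ R hm hloc hsep).comp (φ := fun x => x - E)
        (ψ := fun x => x - E) (measurable_id.sub_const E) (measurable_id.sub_const E)
      have h1 := hind.integral_fun_mul_eq_mul_integral (hZm i).aestronglyMeasurable
        (hZm j).aestronglyMeasurable
      have h2 : ∀ i : ℕ, ∫ ω, Z i ω ∂(Q ν) = 0 := by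
        intro i
        have hi : Integrable (fun ω => Ψ (act (trans ((i : ℤ) • u)) ω)) (Q ν) :=
          integrable_comp_act ν _ hiΨ
        simp only [hZ]
        rw [integral_sub hi (integrable_const _), integral_comp_act ν _ Ψ hm]
        simp [hE]
      have h3 : ∫ ω, Z i ω * Z j ω ∂(Q ν) = (∫ ω, Z i ω ∂(Q ν)) * ∫ ω, Z j ω ∂(Q ν) := h1
      rw [h3, h2 i, zero_mul]
  have hsq : ∀ m : ℕ, ∫ ω, (∑ j ∈ Finset.range m, Z j ω) ^ 2 ∂(Q ν) ≤ m * ((4 * R + 1) * (M * M)) := by
    intro m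
    have e1 : ∀ ω, (∑ j ∈ Finset.range m, Z j ω) ^ 2 =
        ∑ i ∈ Finset.range m, ∑ j ∈ Finset.range m, Z i ω * Z j ω := by
      intro ω; rw [sq, Finset.sum_mul_sum]
    simp_rw [e1]
    rw [integral_finsetSum _ fun i _ => integrable_finsetSum _ fun j _ => hZi i j]
    have : ∀ i ∈ Finset.range m, ∫ ω, ∑ j ∈ Finset.range m, Z i ω * Z j ω ∂(Q ν) ≤
        (4 * R + 1) * (M * M) := by
      intro i _
      rw [integral_finsetSum _ fun j _ => hZi i j]
      refine (Finset.sum_le_sum fun j _ => hcov i j).trans ?_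
      rw [← Finset.sum_filter, Finset.sum_const, nsmul_eq_mul]
      refine mul_le_mul_of_nonneg_right ?_ (mul_nonneg hM0 hM0)
      have hsub : (Finset.range m).filter (fun j => |(i : ℤ) - (j : ℕ)| ≤ 2 * (R : ℤ)) ⊆
          Finset.Icc (i - 2 * R) (i + 2 * R) := by
        intro j hj
        simp only [Finset.mem_filter, Finset.mem_Icc] at *
        have := abs_le.1 hj.2
        omega
      have hc := Finset.card_le_card hsub
      rw [Nat.card_Icc] at hc
      have : (((Finset.range m).filter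
        (fun j => |(i : ℤ) - (j : ℕ)| ≤ 2 * (R : ℤ))).card) ≤ 4 * R + 1 := by omega
      exact_mod_cast this
    refine (Finset.sum_le_sum this).trans ?_
    simp
  obtain ⟨m0, hm0⟩ := exists_nat_ge ((4 * R + 1) * (M * M) / ε ^ 2)
  refine ⟨m0 + 1, fun m hm' => ?_⟩
  have hmpos : (0 : ℝ) < m := by exact_mod_cast (by omega : 0 < m)
  have hmm0 : (m0 : ℝ) ≤ m := by exact_mod_cast (by omega : m0 ≤ m)
  have e2 : ∀ ω, (∑ j ∈ Finset.range m, Ψ (act (trans ((j : ℤ) • u)) ω)) - m * E =
      ∑ j ∈ Finset.range m, Z j ω := by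
    intro ω
    simp only [hZ, Finset.sum_sub_distrib, Finset.sum_const, Finset.card_range, nsmul_eq_mul]
  simp_rw [e2]
  have hSm : Measurable (fun ω => ∑ j ∈ Finset.range m, Z j ω) :=
    Finset.measurable_sum _ fun j _ => hZm j
  have hSi : Integrable (fun ω => (∑ j ∈ Finset.range m, Z j ω) ^ 2) (Q ν) := by
    have e1 : (fun ω => (∑ j ∈ Finset.range m, Z j ω) ^ 2) =
        fun ω => ∑ i ∈ Finset.range m, ∑ j ∈ Finset.range m, Z i ω * Z j ω := by
      funext ω; rw [sq, Finset.sum_mul_sum]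
    rw [e1]
    exact integrable_finsetSum _ fun i _ => integrable_finsetSum _ fun j _ => hZi i j
  set lam : ℝ := ε * m with hlam
  have hlam0 : 0 < lam := by positivity
  have h3 : ∫ ω, |∑ j ∈ Finset.range m, Z j ω| ∂(Q ν) ≤
      ∫ ω, ((∑ j ∈ Finset.range m, Z j ω) ^ 2 / (2 * lam) + lam / 2) ∂(Q ν) := by
    refine integral_mono_of_nonneg (Eventually.of_forall fun ω => abs_nonneg _)
      ((hSi.div_const _).add (integrable_const _)) (Eventually.of_forall fun ω => ?_)
    set s := ∑ j ∈ Finset.range m, Z j ω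
    show |s| ≤ s ^ 2 / (2 * lam) + lam / 2
    have : s ^ 2 / (2 * lam) + lam / 2 - |s| = (|s| - lam) ^ 2 / (2 * lam) := by
      rw [← sq_abs s]; field_simp; ring
    have h4 : 0 ≤ (|s| - lam) ^ 2 / (2 * lam) := by positivity
    linarith
  rw [integral_add (hSi.div_const _) (integrable_const _), integral_div] at h3
  simp only [integral_const, probReal_univ, one_smul] at h3
  have h5 : (∫ ω, (∑ j ∈ Finset.range m, Z j ω) ^ 2 ∂(Q ν)) / (2 * lam) ≤ lam / 2 := by
    rw [div_le_iff₀ (by positivity)]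
    refine (hsq m).trans ?_
    have h6 : (4 * R + 1) * (M * M) ≤ m * ε ^ 2 := by
      rw [← div_le_iff₀ (by positivity)]; exact hm0.trans hmm0
    calc (m : ℝ) * ((4 * R + 1) * (M * M)) ≤ m * (m * ε ^ 2) := by gcongr
      _ = lam / 2 * (2 * lam) := by rw [hlam]; ring
  linarith

end Pool.Agent.Work.MP_9a767b_pr
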