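import Pool.Agent.Work.MP_9a767b_pr.Act

/-!
# Local: approximation of a passage time by a bounded local function
-/

open MeasureTheory ProbabilityTheory Filter Topology

namespace Pool.Agent.Work.MP_9a767b_pr

/-- The unordered pairs of vertices of the box of radius `R`. -/
def InBox (R : ℕ) (e : Sym2 V) : Prop := ∀ x ∈ e, |x.1| ≤ (R : ℤ) ∧ |x.2| ≤ (R : ℤ)

namespace LocalAux

/-- All vertices of the walk are in the box. -/
def inb (R : ℕ) {x y : V} (w : lattice.Walk x y) : Prop :=
  ∀ v ∈ w.support, |v.1| ≤ (R : ℤ) ∧ |v.2| ≤ (R : ℤ)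

theorem inb_mono {R R' : ℕ} (h : R ≤ R') {x y : V} {w : lattice.Walk x y} (hw : inb R w) :
    inb R' w := fun v hv => by
  have := hw v hv
  have h' : (R : ℤ) ≤ R' := by exact_mod_cast h
  exact ⟨this.1.trans h', this.2.trans h'⟩

theorem exists_inb {x y : V} (w : lattice.Walk x y) : ∃ R : ℕ, inb R w := by
  have : ∀ l : List V, ∃ R : ℕ, ∀ v ∈ l, |v.1| ≤ (R : ℤ) ∧ |v.2| ≤ (R : ℤ) := by
    intro l
    induction l with
    | nil => exact ⟨0, by simp⟩
    | cons a l ih =>
      obtain ⟨R, hR⟩ := ih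
      refine ⟨R + a.1.natAbs + a.2.natAbs, ?_⟩
      intro v hv
      have p1 := abs_nonneg a.1
      have p2 := abs_nonneg a.2
      have hR' : (0 : ℤ) ≤ R := by positivity
      rcases List.mem_cons.1 hv with rfl | hv
      · push_cast; constructor <;> linarith
      · have := hR v hv
        push_cast; constructor <;> linarith [this.1, this.2]
  exact this w.support

open Classical in
/-- The terms of the truncated infimum. -/
noncomputable def term (R : ℕ) (M : ℝ) {x y : V} (w : lattice.Walk x y) (ω : Cfg) : ℝ :=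
  if inb R w then min (len (fun e => |ω e|) w) M else M

/-- The truncated local passage time. -/
noncomputable def psi (R : ℕ) (M : ℝ) (x y : V) (ω : Cfg) : ℝ :=
  ⨅ w : lattice.Walk x y, term R M w ω

variable {R : ℕ} {M : ℝ} {x y : V}

theorem term_nonneg (hM : 0 ≤ M) (w : lattice.Walk x y) (ω : Cfg) : 0 ≤ term R M w ω := by
  unfold term
  split_ifs
  · exact le_min (len_nonneg (fun _ => abs_nonneg _) w) hM
  · exact hM

theorem term_le (w : lattice.Walk x y) (ω : Cfg) : term R M w ω ≤ M := by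
  unfold term
  split_ifs
  · exact min_le_right _ _
  · exact le_rfl

theorem bdd (hM : 0 ≤ M) (ω : Cfg) :
    BddBelow (Set.range fun w : lattice.Walk x y => term R M w ω) :=
  ⟨0, by rintro _ ⟨w, rfl⟩; exact term_nonneg hM w ω⟩

theorem psi_nonneg (hM : 0 ≤ M) (ω : Cfg) : 0 ≤ psi R M x y ω :=
  le_ciInf fun w => term_nonneg hM w ω

theorem psi_le (hM : 0 ≤ M) (ω : Cfg) : psi R M x y ω ≤ M := by
  obtain ⟨w⟩ := nonempty_walk x y
  exact (ciInf_le (bdd hM ω) w).trans (term_le w ω)

theorem measurable_psi : Measurable (psi R M x y) := by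
  refine Measurable.iInf fun w => ?_
  unfold term
  split_ifs
  · have h : Measurable (fun ω : Cfg => (fun e => |ω e| : Sym2 V → ℝ)) :=
      measurable_pi_lambda _ fun e => continuous_abs.measurable.comp (measurable_pi_apply e)
    exact ((measurable_len w).comp h).min measurable_const
  · exact measurable_const

theorem psi_local {ω ω' : Cfg} (h : ∀ e, InBox R e → ω e = ω' e) :
    psi R M x y ω = psi R M x y ω' := by
  unfold psi
  congr 1
  funext w
  unfold term
  split_ifs with hw
  · congr 1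
    unfold len
    congr 1
    refine List.map_congr_left fun e he => ?_
    rw [h e]
    intro v hv
    refine hw v ?_
    induction e with
    | _ a b =>
      rcases Sym2.mem_iff.1 hv with rfl | rfl
      · exact w.fst_mem_support_of_mem_edges he
      · exact w.snd_mem_support_of_mem_edges he
  · rfl

theorem le_psi (ω : Cfg) : min (T ω x y) M ≤ psi R M x y ω := by
  refine le_ciInf fun w => ?_
  unfold term
  split_ifs
  · exact min_le_min_right _ (pt_le_len (fun _ => abs_nonneg _) w)
  · exact min_le_right _ _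

theorem psi_tendsto (hM : 0 ≤ M) (ω : Cfg) :
    Tendsto (fun R : ℕ => psi R M x y ω) atTop (𝓝 (min (T ω x y) M)) := by
  rw [Metric.tendsto_atTop]
  intro δ hδ
  obtain ⟨w, hw⟩ := exists_near (fun e => |ω e|) x y hδ
  obtain ⟨R0, hR0⟩ := exists_inb w
  refine ⟨R0, fun R hR => ?_⟩
  have h1 := le_psi (R := R) (M := M) (x := x) (y := y) ω
  have h2 : psi R M x y ω ≤ term R M w ω := ciInf_le (bdd hM ω) w
  have h3 : term R M w ω = min (len (fun e => |ω e|) w) M := by
    unfold term; rw [if_pos (inb_mono hR hR0)]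
  have h4 : min (len (fun e => |ω e|) w) M < min (T ω x y) M + δ := by
    rw [← min_add_add_right]
    refine lt_min ?_ ?_
    · exact (min_le_left _ _).trans_lt hw
    · exact (min_le_right _ _).trans_lt (lt_add_of_pos_right _ hδ)
  rw [Real.dist_eq, abs_of_nonneg (by linarith)]
  linarith

end LocalAux

open LocalAux in
theorem local_approx {ν : Measure ℝ} [IsProbabilityMeasure ν] (u : V)
    (hu : Integrable (fun ω => T ω 0 u) (Q ν)) {ε : ℝ} (hε : 0 < ε) :
    ∃ (Ψ : Cfg → ℝ) (M : ℝ) (R : ℕ), Measurable Ψ ∧ (∀ ω, 0 ≤ Ψ ω ∧ Ψ ω ≤ M) ∧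
      (∀ ω ω' : Cfg, (∀ e, InBox R e → ω e = ω' e) → Ψ ω = Ψ ω') ∧
      ∫ ω, |T ω 0 u - Ψ ω| ∂(Q ν) ≤ ε := by
  have h1 : Tendsto (fun M : ℕ => ∫ ω, |T ω 0 u - min (T ω 0 u) M| ∂(Q ν)) atTop (𝓝 0) := by
    rw [← integral_zero Cfg ℝ (μ := Q ν)]
    refine tendsto_integral_of_dominated_convergence (fun ω => T ω 0 u) ?_ hu ?_ ?_
    · intro M
      exact ((measurable_T _ _).sub ((measurable_T _ _).min measurable_const)).abs.aestronglyMeasurable
    · intro M
      refine Eventually.of_forall fun ω => ?_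
      have := T_nonneg ω 0 u
      rw [Real.norm_eq_abs, abs_abs, abs_of_nonneg (by linarith [min_le_left (T ω 0 u) (M : ℝ)])]
      have : 0 ≤ min (T ω 0 u) (M : ℝ) := le_min this (by positivity)
      linarith
    · refine Eventually.of_forall fun ω => ?_
      refine tendsto_const_nhds.congr' ?_
      obtain ⟨M0, hM0⟩ := exists_nat_ge (T ω 0 u)
      filter_upwards [eventually_ge_atTop M0] with M hM
      have : T ω 0 u ≤ M := hM0.trans (by exact_mod_cast hM)
      rw [min_eq_left this]; simp
  obtain ⟨M, hM⟩ := (h1.eventually_le_const (half_pos hε)).exists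
  have hM0 : (0 : ℝ) ≤ M := by positivity
  have h2 : Tendsto (fun R : ℕ => ∫ ω, |psi R M 0 u ω - min (T ω 0 u) M| ∂(Q ν)) atTop (𝓝 0) := by
    rw [← integral_zero Cfg ℝ (μ := Q ν)]
    refine tendsto_integral_of_dominated_convergence (fun ω => (M : ℝ)) ?_ (integrable_const _) ?_ ?_
    · intro R
      exact (measurable_psi.sub ((measurable_T _ _).min measurable_const)).abs.aestronglyMeasurable
    · intro R
      refine Eventually.of_forall fun ω => ?_
      have e1 := le_psi (R := R) (M := M) (x := 0) (y := u) ω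
      have e2 := psi_le (R := R) (x := 0) (y := u) hM0 ω
      have e3 : 0 ≤ min (T ω 0 u) (M : ℝ) := le_min (T_nonneg ω 0 u) hM0
      rw [Real.norm_eq_abs, abs_abs, abs_of_nonneg (by linarith)]
      linarith
    · refine Eventually.of_forall fun ω => ?_
      have := ((psi_tendsto (x := 0) (y := u) hM0 ω).sub_const (min (T ω 0 u) (M : ℝ))).abs
      simpa using this
  obtain ⟨R, hR⟩ := (h2.eventually_le_const (half_pos hε)).exists
  refine ⟨psi R M 0 u, M, R, measurable_psi, fun ω => ⟨psi_nonneg hM0 ω, psi_le hM0 ω⟩,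
    fun ω ω' h => psi_local h, ?_⟩
  have i1 : Integrable (fun ω => |T ω 0 u - min (T ω 0 u) M|) (Q ν) :=
    (hu.sub (hu.inf (integrable_const _))).abs
  have i2 : Integrable (fun ω => |psi R M 0 u ω - min (T ω 0 u) M|) (Q ν) := by
    refine Integrable.abs (Integrable.sub ?_ (hu.inf (integrable_const _)))
    refine (integrable_const (M : ℝ)).mono' measurable_psi.aestronglyMeasurable ?_
    refine Eventually.of_forall fun ω => ?_
    rw [Real.norm_eq_abs, abs_of_nonneg (psi_nonneg hM0 ω)]
    exact psi_le hM0 ω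
  calc ∫ ω, |T ω 0 u - psi R M 0 u ω| ∂(Q ν)
      ≤ ∫ ω, (|T ω 0 u - min (T ω 0 u) M| + |psi R M 0 u ω - min (T ω 0 u) M|) ∂(Q ν) := by
        refine integral_mono_of_nonneg (Eventually.of_forall fun ω => abs_nonneg _) (i1.add i2) ?_
        refine Eventually.of_forall fun ω => ?_
        have := abs_sub_le (T ω 0 u) (min (T ω 0 u) (M : ℝ)) (psi R M 0 u ω)
        rw [abs_sub_comm (min (T ω 0 u) (M : ℝ)) (psi R M 0 u ω)] at this
        exact this
    _ = ∫ ω, |T ω 0 u - min (T ω 0 u) M| ∂(Q ν) +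
        ∫ ω, |psi R M 0 u ω - min (T ω 0 u) M| ∂(Q ν) := integral_add i1 i2
    _ ≤ ε := by linarith

end Pool.Agent.Work.MP_9a767b_pr
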