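import Pool.Agent.Work.MP_9a767b_pr.NormUnif

/-!
# SlopeSum: the average increment of `g` in a window
-/

open MeasureTheory ProbabilityTheory Filter Topology

namespace Pool.Agent.Work.MP_9a767b_pr

/-- Telescoping on an integer interval. -/
private theorem tele_int (F : ℤ → ℝ) (a b : ℤ) (hab : a ≤ b + 1) :
    ∑ X ∈ Finset.Icc a b, (F X - F (X - 1)) = F b - F (a - 1) := by
  obtain ⟨n, hn⟩ : ∃ n : ℕ, b = a - 1 + n := ⟨(b + 1 - a).toNat, by omega⟩
  subst hn
  induction n with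
  | zero => simp
  | succ n ih =>
    have h1 : Finset.Icc a (a - 1 + ((n + 1 : ℕ) : ℤ)) =
        insert (a - 1 + ((n + 1 : ℕ) : ℤ)) (Finset.Icc a (a - 1 + (n : ℤ))) := by
      ext x
      simp only [Finset.mem_Icc, Finset.mem_insert]
      push_cast
      omega
    rw [h1, Finset.sum_insert (by simp [Finset.mem_Icc]), ih (by omega)]
    have : (a - 1 + ((n + 1 : ℕ) : ℤ)) - 1 = a - 1 + (n : ℤ) := by push_cast; ring
    rw [this]
    ring

private theorem tele_K (F : ℤ → ℝ) (a b : ℤ) (hab : a ≤ b + 1) (K : ℕ) :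
    ∑ X ∈ Finset.Icc a b, (F X - F (X - K)) =
      ∑ j ∈ Finset.range K, (F (b - j) - F (a - 1 - j)) := by
  induction K with
  | zero => simp
  | succ K ih =>
    have h1 : F (b - K) - F (a - 1 - K) = ∑ X ∈ Finset.Icc a b, (F (X - K) - F (X - 1 - K)) :=
      (tele_int (fun X => F (X - K)) a b hab).symm
    rw [Finset.sum_range_succ, ← ih, h1, ← Finset.sum_add_distrib]
    refine Finset.sum_congr rfl fun X _ => ?_
    have : X - ((K + 1 : ℕ) : ℤ) = X - 1 - K := by push_cast; ring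
    rw [this]
    ring

open NormAux in
theorem slope_sum {h : V → ℝ} (hh : SubSym h) {x1 x2 ε : ℝ} (hx : x1 < x2) (hε : 0 < ε)
    (hs : (Nm h 1 0 - ε) * (x2 - x1) ≤ Nm h x2 1 - Nm h x1 1) (K : ℕ) (hK : 0 < K) :
    ∃ n0 : ℕ, ∀ n : ℕ, n0 ≤ n →
      (Nm h 1 0 - 2 * ε) * K * ((x2 - x1) * n) ≤
        ∑ X ∈ Finset.Icc ⌈x1 * n⌉ ⌊x2 * n⌋, (h (X, n) - h (X - K, n)) := by
  set f1 := h (1, 0) with hf1
  have hf0 : 0 ≤ f1 := hh.nonneg _
  have hd : 0 < x2 - x1 := by linarith
  set C := |x1| + |x2| + 1 with hC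
  have hC0 : 0 < C := by positivity
  obtain ⟨n1, hn1⟩ := nm_unif hh (ε := ε * (x2 - x1) / 2) (C := C) (by positivity) hC0
  obtain ⟨n2, hn2⟩ := exists_nat_ge ((2 * f1 + 2 * K * f1) / (ε * (x2 - x1) / 2))
  obtain ⟨n3, hn3⟩ := exists_nat_ge (1 / (x2 - x1))
  refine ⟨max (max n1 n2) (max n3 1), fun n hn => ?_⟩
  have m1 : n1 ≤ n := le_trans (le_trans (le_max_left _ _) (le_max_left _ _)) hn
  have m2 : (n2 : ℝ) ≤ n := by
    exact_mod_cast le_trans (le_trans (le_max_right n1 n2) (le_max_left _ _)) hn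
  have m3 : (n3 : ℝ) ≤ n := by
    exact_mod_cast le_trans (le_trans (le_max_left n3 1) (le_max_right _ _)) hn
  have m4 : 1 ≤ n := le_trans (le_trans (le_max_right n3 1) (le_max_right _ _)) hn
  have hn1' : (1 : ℝ) ≤ n := by exact_mod_cast m4
  have q2 : 2 * f1 + 2 * K * f1 ≤ ε * (x2 - x1) / 2 * n := by
    have h1 := hn2.trans m2
    rw [div_le_iff₀ (by positivity)] at h1
    linarith
  have q3 : 1 ≤ (x2 - x1) * n := by
    have h1 := hn3.trans m3
    rw [div_le_iff₀ hd] at h1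
    linarith
  set a := ⌈x1 * n⌉ with ha
  set b := ⌊x2 * n⌋ with hb
  have a1 : x1 * n ≤ a := Int.le_ceil _
  have a2 : (a : ℝ) < x1 * n + 1 := Int.ceil_lt_add_one _
  have b1 : (b : ℝ) ≤ x2 * n := Int.floor_le _
  have b2 : x2 * n < b + 1 := Int.lt_floor_add_one _
  have hab : a ≤ b + 1 := by
    have : (a : ℝ) < ((b + 1 : ℤ) : ℝ) := by push_cast; linarith
    exact le_of_lt (by exact_mod_cast this)
  rw [tele_K (fun X => h (X, n)) a b hab K]
  have hu := hn1 n m1 (a, n) (by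
    show |(a : ℝ)| ≤ C * n
    have h1 : |x1 * n| = |x1| * n := by rw [abs_mul, Nat.abs_cast]
    have h2 := neg_abs_le (x1 * n)
    have h3 := le_abs_self (x1 * n)
    have h4 : 0 ≤ |x2| * n := by positivity
    rw [h1] at h2 h3
    rw [abs_le, hC]
    constructor <;> nlinarith) (by
    show |((n : ℤ) : ℝ)| ≤ C * n
    rw [Int.cast_natCast, Nat.abs_cast, hC]
    have h4 : 0 ≤ |x2| * n := by positivity
    have h5 : 0 ≤ |x1| * n := by positivity
    nlinarith)
  simp only at hu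
  have e1 : h (a, (n : ℤ)) ≤ Nm h a n + ε * (x2 - x1) / 2 * n := by
    have := (abs_le.1 hu).2
    push_cast at this
    linarith
  have e2 : Nm h a n ≤ n * Nm h x1 1 + f1 := by
    have h1 := (abs_le.1 (nm_lip hh a n (n * x1) (n * 1))).2
    rw [nm_smul hh n (by positivity)] at h1
    have h2 : |(a : ℝ) - n * x1| + |(n : ℝ) - n * 1| ≤ 1 := by
      rw [mul_one, sub_self, abs_zero, add_zero, abs_le]
      constructor <;> linarith
    have h3 := mul_le_mul_of_nonneg_left h2 hf0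
    linarith
  have e3 : Nm h b n ≤ h (b, (n : ℤ)) := by
    have := nm_le hh (b, (n : ℤ))
    simpa using this
  have e4 : n * Nm h x2 1 - f1 ≤ Nm h b n := by
    have h1 := (abs_le.1 (nm_lip hh b n (n * x2) (n * 1))).1
    rw [nm_smul hh n (by positivity)] at h1
    have h2 : |(b : ℝ) - n * x2| + |(n : ℝ) - n * 1| ≤ 1 := by
      rw [mul_one, sub_self, abs_zero, add_zero, abs_le]
      constructor <;> linarith
    have h3 := mul_le_mul_of_nonneg_left h2 hf0
    linarith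
  have e5 : n * ((Nm h 1 0 - ε) * (x2 - x1)) ≤ n * (Nm h x2 1 - Nm h x1 1) :=
    mul_le_mul_of_nonneg_left hs (by positivity)
  have hterm : ∀ j ∈ Finset.range K, (Nm h 1 0 - 2 * ε) * ((x2 - x1) * n) ≤
      h (b - j, (n : ℤ)) - h (a - 1 - j, (n : ℤ)) := by
    intro j hj
    rw [Finset.mem_range] at hj
    have hj' : (j : ℝ) + 1 ≤ K := by exact_mod_cast hj
    have h1 := (abs_le.1 (h_diff hh (b - j) n b n)).1
    have h2 := (abs_le.1 (h_diff hh (a - 1 - j) n a n)).2
    have c1 : |((b - j : ℤ) : ℝ) - b| + |((n : ℤ) : ℝ) - (n : ℤ)| = j := by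
      rw [sub_self, abs_zero, add_zero]
      push_cast
      have : (b : ℝ) - j - b = -j := by ring
      rw [this, abs_neg, Nat.abs_cast]
    have c2 : |((a - 1 - j : ℤ) : ℝ) - a| + |((n : ℤ) : ℝ) - (n : ℤ)| = j + 1 := by
      rw [sub_self, abs_zero, add_zero]
      push_cast
      have : (a : ℝ) - 1 - j - a = -(j + 1) := by ring
      rw [this, abs_neg, abs_of_nonneg (by positivity)]
    rw [c1] at h1
    rw [c2] at h2
    have c3 : f1 * ((j : ℝ) + (j + 1)) ≤ f1 * (2 * K) := by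
      gcongr
      linarith
    nlinarith
  calc (Nm h 1 0 - 2 * ε) * K * ((x2 - x1) * n)
      = ∑ _j ∈ Finset.range K, (Nm h 1 0 - 2 * ε) * ((x2 - x1) * n) := by
        rw [Finset.sum_const, Finset.card_range, nsmul_eq_mul]; ring
    _ ≤ _ := Finset.sum_le_sum hterm

end Pool.Agent.Work.MP_9a767b_pr
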