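import Pool.Agent.Work.MP_9a767b_pr.Defs

/-!
# Slopes: the choice of the direction (deterministic, real analysis)
-/

namespace Pool.Agent.Work.MP_9a767b_pr

namespace SlopesAux

variable {N : ℝ → ℝ → ℝ} {μ : ℝ}

theorem lip (hN : IsNm N μ) (x y : ℝ) : N x 1 ≤ N y 1 + μ * |x - y| := by
  have h1 := hN.add_le y 1 (x - y) 0
  have h2 := hN.le (x - y) 0
  rw [add_zero, add_sub_cancel] at h1
  rw [abs_zero, add_zero] at h2
  linarith

theorem conv (hN : IsNm N μ) (x y : ℝ) {s : ℝ} (hs0 : 0 ≤ s) (hs1 : s ≤ 1) :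
    N (s * x + (1 - s) * y) 1 ≤ s * N x 1 + (1 - s) * N y 1 := by
  have h1 := hN.add_le (s * x) (s * 1) ((1 - s) * y) ((1 - s) * 1)
  rw [hN.smul s hs0, hN.smul (1 - s) (by linarith)] at h1
  have : s * 1 + (1 - s) * 1 = 1 := by ring
  rw [this] at h1
  exact h1

/-- Increments of a convex function are nondecreasing. -/
theorem incr (hN : IsNm N μ) {x y h : ℝ} (hxy : x ≤ y) (hh : 0 ≤ h) :
    N (x + h) 1 - N x 1 ≤ N (y + h) 1 - N y 1 := by
  rcases eq_or_lt_of_le (by linarith : 0 ≤ y - x + h) with h0 | h0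
  · have h1 : h = 0 := by linarith
    subst h1
    simp
  · set s := h / (y - x + h) with hs
    have hs0 : 0 ≤ s := by positivity
    have hs1 : s ≤ 1 := by rw [hs, div_le_one h0]; linarith
    have hsm : s * (y - x + h) = h := by rw [hs]; field_simp
    have e1 : x + h = s * (y + h) + (1 - s) * x := by linear_combination -hsm
    have e2 : y = (1 - s) * (y + h) + (1 - (1 - s)) * x := by linear_combination hsm
    have c1 := conv hN (y + h) x hs0 hs1
    have c2 := conv hN (y + h) x (s := 1 - s) (by linarith) (by linarith)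
    rw [← e1] at c1
    rw [← e2] at c2
    linarith

end SlopesAux

open SlopesAux in
theorem slopes {N : ℝ → ℝ → ℝ} {μ : ℝ} (hN : IsNm N μ) (hμ : 0 < μ) {ε : ℝ} (hε : 0 < ε) :
    ∃ x1 x3 c : ℝ, 0 < x1 ∧ x1 < x3 ∧ 0 < c ∧ (μ - ε) * (x3 - x1) ≤ N x3 1 - N x1 1 ∧
      ∀ x, x1 ≤ x → x ≤ x3 → N x 1 - N (x - 1) 1 ≤ μ - c := by
  set φ : ℝ → ℝ := fun x => N x 1 - N (x - 1) 1 with hφ
  have hmono : Monotone φ := by
    intro x y hxy
    have := incr hN (x := x - 1) (y := y - 1) (h := 1) (by linarith) zero_le_one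
    simp only [sub_add_cancel] at this
    exact this
  have hle : ∀ x, φ x ≤ μ := by
    intro x
    have := lip hN x (x - 1)
    simp only [sub_sub_cancel, abs_one, mul_one] at this
    simp only [hφ]; linarith
  by_cases hcase : ∀ x, φ x < μ
  · -- case A
    obtain ⟨x1, hx1, hs⟩ : ∃ x1 : ℝ, 0 < x1 ∧ (μ - ε) / 2 ≤ N (x1 + 1 / 2) 1 - N x1 1 := by
      by_contra hcon
      push Not at hcon
      have h1 : ∀ j : ℕ, N (1 + j / 2) 1 ≤ N 1 1 + j * ((μ - ε) / 2) := by
        intro j
        induction j with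
        | zero => simp
        | succ j ih =>
          have := hcon (1 + j / 2) (by positivity)
          have e : (1 : ℝ) + ((j + 1 : ℕ) : ℝ) / 2 = 1 + j / 2 + 1 / 2 := by push_cast; ring
          rw [e]
          push_cast
          linarith
      obtain ⟨j, hj⟩ := exists_nat_gt ((N 1 1 - μ) / (ε / 2))
      rw [div_lt_iff₀ (by positivity)] at hj
      have h2 := h1 j
      have h3 := hN.ge1 (1 + j / 2) 1
      rw [abs_of_nonneg (by positivity)] at h3
      nlinarith
    refine ⟨x1, x1 + 1 / 2, μ - φ (x1 + 1 / 2), hx1, by linarith, by linarith [hcase (x1 + 1 / 2)],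
      by linarith, fun x _ h2 => ?_⟩
    have := hmono h2
    simp only [hφ] at this ⊢
    linarith
  · -- case B
    push Not at hcase
    obtain ⟨y, hy⟩ := hcase
    have hcont : Continuous (fun x => N x 1) := by
      have : LipschitzWith (Real.toNNReal μ) (fun x => N x 1) := by
        refine LipschitzWith.of_dist_le_mul fun x y => ?_
        rw [Real.dist_eq, Real.dist_eq, abs_le, Real.coe_toNNReal μ hμ.le]
        have h1 := lip hN x y
        have h2 := lip hN y x
        rw [abs_sub_comm] at h2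
        constructor <;> linarith
      exact this.continuous
    have hφc : Continuous φ := hcont.sub (hcont.comp (continuous_id.sub continuous_const))
    set S : Set ℝ := {x | μ ≤ φ x} with hS
    have hSc : IsClosed S := isClosed_le continuous_const hφc
    have hhalf : φ (1 / 2) = 0 := by
      simp only [hφ]
      have : (1 / 2 - 1 : ℝ) = -(1 / 2) := by norm_num
      rw [this, hN.neg1]; ring
    have hSb : ∀ x ∈ S, 1 / 2 ≤ x := by
      intro x hx
      by_contra hcon
      push Not at hcon
      have h1 := hmono hcon.le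
      rw [hhalf] at h1
      have h2 : μ ≤ φ x := hx
      linarith
    have hbdd : BddBelow S := ⟨1 / 2, hSb⟩
    have hmem := hSc.csInf_mem ⟨y, hy⟩ hbdd
    set z := sInf S with hz
    have hz1 : 1 / 2 ≤ z := hSb _ hmem
    have hlt : ∀ x < z, φ x < μ := by
      intro x hx
      by_contra hcon
      push Not at hcon
      exact absurd (csInf_le hbdd (show x ∈ S from hcon)) (by linarith)
    have hz2 : μ ≤ N z 1 - N (z - 1) 1 := hmem
    refine ⟨z - 3 / 8, z - 1 / 8, μ - φ (z - 1 / 8), by linarith, by linarith,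
      by linarith [hlt (z - 1 / 8) (by linarith)], ?_, fun x _ h2 => ?_⟩
    · have h1 := lip hN z (z - 1 / 8)
      have h2 := lip hN (z - 3 / 8) (z - 1)
      have e1 : |z - (z - 1 / 8)| = 1 / 8 := by
        rw [abs_of_nonneg] <;> linarith
      have e2 : |z - 3 / 8 - (z - 1)| = 5 / 8 := by
        rw [abs_of_nonneg] <;> linarith
      rw [e1] at h1
      rw [e2] at h2
      nlinarith
    · have := hmono h2
      simp only [hφ] at this ⊢
      linarith

end Pool.Agent.Work.MP_9a767b_pr
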