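import Pool.Agent.Work.MP_9a767b_pr.OneWindow
import Pool.Agent.Work.MP_9a767b_pr.Slopes
import Pool.Agent.Work.MP_9a767b_pr.EvP
import Pool.Agent.Work.MP_9a767b_pr.EvR
import Pool.Agent.Work.MP_9a767b_pr.EvL
import Pool.Agent.Work.MP_9a767b_pr.BadSum
import Pool.Agent.Work.MP_9a767b_pr.SlopeSum

/-!
# Lower: the lower bound for the increments over long windows
-/

open MeasureTheory ProbabilityTheory Filter Topology

namespace Pool.Agent.Work.MP_9a767b_pr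

/-- Averaging: some term is small. -/
private theorem pick {s : Finset ℤ} {f : ℤ → ℝ} {w e : ℝ} (he : 0 < e) (hw : 91 < w)
    (hc : w - 1 ≤ s.card) (hf : ∑ X ∈ s, f X ≤ 90 * e * w) : ∃ X ∈ s, f X ≤ 91 * e := by
  by_contra hcon
  push Not at hcon
  have h1 : ∑ _X ∈ s, 91 * e ≤ ∑ X ∈ s, f X := Finset.sum_le_sum fun X hX => (hcon X hX).le
  rw [Finset.sum_const, nsmul_eq_mul] at h1
  have h2 : (w - 1) * (91 * e) ≤ s.card * (91 * e) := mul_le_mul_of_nonneg_right hc (by positivity)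
  nlinarith

private theorem card_bounds (x1 x2 : ℝ) (hx : 1 ≤ x2 - x1) :
    (x2 - x1) - 1 ≤ ((Finset.Icc ⌈x1⌉ ⌊x2⌋).card : ℝ) ∧
      ((Finset.Icc ⌈x1⌉ ⌊x2⌋).card : ℝ) ≤ (x2 - x1) + 1 := by
  have a1 : x1 ≤ ⌈x1⌉ := Int.le_ceil _
  have a2 : (⌈x1⌉ : ℝ) < x1 + 1 := Int.ceil_lt_add_one _
  have b1 : (⌊x2⌋ : ℝ) ≤ x2 := Int.floor_le _
  have b2 : x2 < ⌊x2⌋ + 1 := Int.lt_floor_add_one _
  have hab : ⌈x1⌉ ≤ ⌊x2⌋ + 1 := by
    have : (⌈x1⌉ : ℝ) < ((⌊x2⌋ + 1 : ℤ) : ℝ) := by push_cast; linarith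
    exact le_of_lt (by exact_mod_cast this)
  have h1 : ((Finset.Icc ⌈x1⌉ ⌊x2⌋).card : ℝ) = (⌊x2⌋ : ℝ) + 1 - ⌈x1⌉ := by
    rw [Int.card_Icc]
    have : (((⌊x2⌋ + 1 - ⌈x1⌉).toNat : ℤ) : ℝ) = ((⌊x2⌋ + 1 - ⌈x1⌉ : ℤ) : ℝ) := by
      rw [Int.toNat_of_nonneg (by omega)]
    push_cast at this
    exact this
  rw [h1]
  constructor <;> linarith

theorem lower {ν : Measure ℝ} [IsProbabilityMeasure ν]
    (hI : Integrable (fun ω => T ω 0 (1, 0)) (Q ν)) (hμ : 0 < Nm (g ν) 1 0) {ε : ℝ} (hε : 0 < ε) :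
    ∃ K0 : ℕ, ∀ K : ℕ, K0 ≤ K → ∃ n0 : ℕ, ∀ n : ℕ, n0 ≤ n →
      (Nm (g ν) 1 0 - ε) * K ≤ g ν ((n : ℤ) + K, 0) - g ν (n, 0) := by
  have hg := subSym_g hI
  have hN := isNm hg
  set μ := Nm (g ν) 1 0 with hμd
  set e := ε / 700 with he
  have he0 : 0 < e := by positivity
  obtain ⟨x1, x3, c, hx1, hx, hc, hsl, hcs⟩ := slopes hN hμ he0
  have hd : 0 < (x1 + x3) / 2 - x1 := by linarith
  -- the slope on the first half
  have hsl2 : (μ - 2 * e) * ((x1 + x3) / 2 - x1) ≤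
      Nm (g ν) ((x1 + x3) / 2) 1 - Nm (g ν) x1 1 := by
    have h1 := hN.add_le ((x1 + x3) / 2) 1 (x3 - (x1 + x3) / 2) 0
    have h2 := hN.le (x3 - (x1 + x3) / 2) 0
    rw [add_zero, add_sub_cancel] at h1
    rw [abs_zero, add_zero, abs_of_nonneg (by linarith)] at h2
    nlinarith
  obtain ⟨K1, hK1⟩ := bad_sum hI hμ hx1 hx he0 hsl
  obtain ⟨K2, hK2⟩ := lln hI (1, 0) he0
  obtain ⟨K3, hK3⟩ := exists_nat_ge (2 / e)
  refine ⟨max (max K1 K2) (max K3 1), fun K hK => ?_⟩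
  have k1 : K1 ≤ K := le_trans (le_trans (le_max_left _ _) (le_max_left _ _)) hK
  have k2 : K2 ≤ K := le_trans (le_trans (le_max_right _ _) (le_max_left _ _)) hK
  have k3 : (K3 : ℝ) ≤ K := by
    exact_mod_cast le_trans (le_trans (le_max_left K3 1) (le_max_right _ _)) hK
  have k4 : 0 < K := le_trans (le_trans (le_max_right K3 1) (le_max_right _ _)) hK
  have hK0 : (0 : ℝ) < K := by exact_mod_cast k4
  have q3 : 2 ≤ e * K := by
    have h1 := hK3.trans k3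
    rw [div_le_iff₀ he0] at h1
    linarith
  have hL := hK2 K k2
  have hL' : ∫ ω, |T ω 0 ((K : ℤ), 0) - μ * K| ∂(Q ν) ≤ e * K := by
    have : ((K : ℤ) • ((1 : ℤ), (0 : ℤ)) : V) = ((K : ℤ), 0) := by simp
    rw [this] at hL
    have h2 : ((K : ℝ) * Nm (g ν) ((((1 : ℤ), (0 : ℤ)) : V).1 : ℝ) ((((1 : ℤ), (0 : ℤ)) : V).2 : ℝ))
        = μ * K := by
      rw [hμd, mul_comm]; simp
    simp only at h2
    rw [h2] at hL
    exact hL
  have hgK : g ν ((K : ℤ), 0) ≤ K * (μ + e) := by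
    have h1 : g ν ((K : ℤ), 0) - μ * K ≤ ∫ ω, |T ω 0 ((K : ℤ), 0) - μ * K| ∂(Q ν) := by
      have h2 : g ν ((K : ℤ), 0) - μ * K = ∫ ω, (T ω 0 ((K : ℤ), 0) - μ * K) ∂(Q ν) := by
        rw [integral_sub (integrable_T hI _ _) (integrable_const _), integral_const]
        simp [g]
      rw [h2]
      exact integral_mono ((integrable_T hI _ _).sub (integrable_const _))
        (((integrable_T hI _ _).sub (integrable_const _)).abs) fun ω => le_abs_self _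
    linarith
  obtain ⟨n1, hn1⟩ := hK1 K k1
  obtain ⟨n2, hn2⟩ := slope_sum hg (x1 := x1) (x2 := (x1 + x3) / 2) (ε := 2 * e) (by linarith)
    (by positivity) hsl2 K k4
  have hq0 : 0 < e / (10 * μ) := by positivity
  obtain ⟨n3, hn3⟩ := ev_p hI hμ hq0 (show 0 < x3 by linarith)
  obtain ⟨n4, hn4⟩ := ev_r hI hμ hc hcs K hq0
  obtain ⟨n5, hn5⟩ := ev_l hI hμ (x3 := x3) (κ := (x3 - x1) / 2) (by linarith) K hq0
  obtain ⟨n6, hn6⟩ := exists_nat_gt ((91 + (μ + e) / (5 * e)) / ((x1 + x3) / 2 - x1))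
  refine ⟨max (max (max n1 n2) (max n3 n4)) (max n5 n6), fun m hm => ?_⟩
  -- the statement for `n = m + K`
  set n := m + K with hnd
  have hmn : m ≤ n := by omega
  have m1 : n1 ≤ n := by
    refine le_trans ?_ hmn; refine le_trans ?_ hm; simp
  have m2 : n2 ≤ n := by
    refine le_trans ?_ hmn; refine le_trans ?_ hm; simp
  have m3 : n3 ≤ n := by
    refine le_trans ?_ hmn; refine le_trans ?_ hm; simp
  have m4 : n4 ≤ n := by
    refine le_trans ?_ hmn; refine le_trans ?_ hm; simp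
  have m5 : n5 ≤ n := by
    refine le_trans ?_ hmn; refine le_trans ?_ hm; simp
  have m6 : (n6 : ℝ) ≤ n := by
    have : n6 ≤ n := by
      refine le_trans ?_ hmn; refine le_trans ?_ hm; simp
    exact_mod_cast this
  have hn0 : 0 < n := by omega
  have hn0' : (0 : ℝ) < n := by exact_mod_cast hn0
  set w := ((x1 + x3) / 2 - x1) * n with hw
  have hw1 : 91 + (μ + e) / (5 * e) < w := by
    have h1 := hn6.trans_le m6
    rw [div_lt_iff₀ hd] at h1
    rw [hw]; linarith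
  have hw2 : 0 ≤ (μ + e) / (5 * e) := by positivity
  have hw3 : 91 < w := by linarith
  have hw4 : μ + e ≤ 5 * e * w := by
    have h1 : (μ + e) / (5 * e) ≤ w := by linarith
    rw [div_le_iff₀ (by positivity)] at h1
    linarith
  set s := Finset.Icc ⌈x1 * n⌉ ⌊(x1 + x3) / 2 * n⌋ with hs
  have hcard := card_bounds (x1 * n) ((x1 + x3) / 2 * n) (by
    have : (x1 + x3) / 2 * n - x1 * n = w := by rw [hw]; ring
    rw [this]; linarith)
  have hwn : (x1 + x3) / 2 * n - x1 * n = w := by rw [hw]; ring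
  rw [hwn, ← hs] at hcard
  set BB : ℤ → ℝ := fun X => (Q ν).real {ω | ∃ i : ℤ, -((x3 - x1) / 2 * n) ≤ (i : ℝ) ∧ i ≤ 0 ∧
          T ω (K, 0) (i, 0) + T ω (i, 0) (X, n) ≤ T ω (K, 0) (X, n) + 1} with hBB
  have hbad : ∑ X ∈ s, BB X ≤ 40 * (e / μ) * ((x3 - x1) * n) := hn1 n m1
  have hslo : (μ - 2 * (2 * e)) * K * (((x1 + x3) / 2 - x1) * n) ≤
        ∑ X ∈ s, (g ν (X, n) - g ν (X - K, n)) := hn2 n m2
  have hsum : ∑ X ∈ s, ((μ + e) - (g ν (X, n) - g ν (X - K, n)) / K + μ * BB X) ≤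
      90 * e * w := by
    rw [Finset.sum_add_distrib, Finset.sum_sub_distrib, Finset.sum_const, nsmul_eq_mul,
      ← Finset.sum_div, ← Finset.mul_sum]
    have h1 : (s.card : ℝ) * (μ + e) ≤ (w + 1) * (μ + e) :=
      mul_le_mul_of_nonneg_right hcard.2 (by positivity)
    have h2 : (μ - 4 * e) * w ≤ (∑ X ∈ s, (g ν (X, n) - g ν (X - K, n))) / K := by
      rw [le_div_iff₀ hK0]
      have : (μ - 4 * e) * w * K = (μ - 2 * (2 * e)) * K * (((x1 + x3) / 2 - x1) * n) := by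
        rw [hw]; ring
      rw [this]; exact hslo
    have h3 : μ * ∑ X ∈ s, BB X ≤ 80 * e * w := by
      have h4 := mul_le_mul_of_nonneg_left hbad hμ.le
      have : μ * (40 * (e / μ) * ((x3 - x1) * n)) = 80 * e * w := by
        rw [hw]; field_simp; ring
      rw [this] at h4; exact h4
    nlinarith
  obtain ⟨X, hX, hXs⟩ := pick he0 hw3 hcard.1 hsum
  rw [hs, Finset.mem_Icc] at hX
  have X1 : x1 * n ≤ X := Int.ceil_le.1 hX.1
  have X2 : (X : ℝ) ≤ (x1 + x3) / 2 * n := Int.le_floor.1 hX.2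
  have X3 : (X : ℝ) ≤ x3 * n := X2.trans (by gcongr; linarith)
  have X4 : (0 : ℝ) ≤ X := le_trans (by positivity) X1
  have X5 : 0 ≤ X := by exact_mod_cast X4
  have P1 := hn3 n m3 X (by rw [abs_of_nonneg X4]; exact X3)
  have P2 := hn4 n m4 X X1 X3
  have P3 := hn5 n m5 X X5 X3
  have key := one_window hI n K hn0 X ((x3 - x1) / 2) μ hμ.le _ _ _ (BB X) P1 P2 P3 le_rfl
  have hlast : ((n : ℤ)) - K = m := by rw [hnd]; push_cast; ring
  rw [hlast] at key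
  have hfirst : ((n : ℤ)) = (m : ℤ) + K := by rw [hnd]; push_cast; ring
  have hrhs : g ν ((n : ℤ), 0) = g ν ((m : ℤ) + K, 0) := by rw [hfirst]
  rw [← hrhs]
  refine le_trans ?_ key
  have hB0 : 0 ≤ BB X := measureReal_nonneg
  set aX := g ν (X, (n : ℤ)) - g ν (X - K, (n : ℤ)) with haX
  have r1 : K * ((μ + e) - aX / K + μ * BB X) ≤ K * (91 * e) :=
    mul_le_mul_of_nonneg_left hXs hK0.le
  have r2 : K * ((μ + e) - aX / K + μ * BB X) = K * (μ + e) - aX + K * μ * BB X := by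
    field_simp
  rw [r2] at r1
  have r3 : aX ≤ K * (μ + e) := by
    have h1 := (abs_le.1 (sub_lip hg (X, (n : ℤ)) (X - K, (n : ℤ)))).2
    have h2 : ((X, (n : ℤ)) : V) - (X - K, (n : ℤ)) = ((K : ℤ), 0) := by simp
    rw [h2] at h1
    exact h1.trans hgK
  have r4 : 2 * μ * K * (e / (10 * μ) + 2 * (e / (10 * μ)) + 2 * (e / (10 * μ)) + 2 * BB X) =
      e * K + 4 * (K * μ * BB X) := by
    field_simp
    ring
  rw [r4]
  have hε : ε = 700 * e := by rw [he]; ring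
  rw [hε]
  linarith

end Pool.Agent.Work.MP_9a767b_pr
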