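import Pool.Agent.Work.MP_9a767b_pr.Defs

/-!
# NormA: existence of the limiting norm (deterministic)
-/

open Filter Topology

namespace Pool.Agent.Work.MP_9a767b_pr

private theorem sub_nat {h : V → ℝ} (hh : SubSym h) (n : ℕ) : h ((n : ℤ), 0) ≤ h (1, 0) * n := by
  induction n with
  | zero =>
    have : h ((0 : ℤ), (0 : ℤ)) = 0 := hh.zero
    simp [this]
  | succ n ih =>
    have h1 := hh.add_le ((n : ℤ), 0) (1, 0)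
    simp only [Prod.mk_add_mk, add_zero] at h1
    push_cast
    linarith

private theorem sub_int {h : V → ℝ} (hh : SubSym h) (a : ℤ) : h (a, 0) ≤ h (1, 0) * |(a : ℝ)| := by
  rcases le_total 0 a with ha | ha
  · have h1 := sub_nat hh a.toNat
    rw [Int.toNat_of_nonneg ha] at h1
    have h2 : ((a.toNat : ℕ) : ℝ) = |(a : ℝ)| := by
      rw [abs_of_nonneg (by exact_mod_cast ha)]
      exact_mod_cast Int.toNat_of_nonneg ha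
    rw [h2] at h1; exact h1
  · have h1 := sub_nat hh (-a).toNat
    rw [Int.toNat_of_nonneg (by omega), hh.flip1] at h1
    have h2 : (((-a).toNat : ℕ) : ℝ) = |(a : ℝ)| := by
      rw [abs_of_nonpos (by exact_mod_cast ha)]
      exact_mod_cast Int.toNat_of_nonneg (by omega : 0 ≤ -a)
    rw [h2] at h1; exact h1

theorem sub_le {h : V → ℝ} (hh : SubSym h) (a b : ℤ) :
    h (a, b) ≤ h (1, 0) * (|(a : ℝ)| + |(b : ℝ)|) := by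
  have h1 := hh.add_le (a, 0) (0, b)
  simp only [Prod.mk_add_mk, add_zero, zero_add] at h1
  have h2 := sub_int hh a
  have h3 := sub_int hh b
  rw [← hh.swap] at h3
  linarith

theorem sub_lip {h : V → ℝ} (hh : SubSym h) (x y : V) : |h x - h y| ≤ h (x - y) := by
  have h1 := hh.add_le y (x - y)
  have h2 := hh.add_le x (y - x)
  rw [add_sub_cancel] at h1 h2
  have h3 : h (y - x) = h (x - y) := by
    obtain ⟨a, b⟩ := x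
    obtain ⟨c, d⟩ := y
    simp only [Prod.mk_sub_mk]
    rw [← hh.flip1, ← hh.flip2]
    simp
  rw [abs_le]
  constructor <;> linarith

theorem nm_tendsto {h : V → ℝ} (hh : SubSym h) (a b : ℝ) :
    Tendsto (fun n : ℕ => h (⌊(n : ℝ) * a⌋, ⌊(n : ℝ) * b⌋) / (n : ℝ)) atTop (𝓝 (Nm h a b)) := by
  set f1 := h (1, 0) with hf1
  have hf0 : 0 ≤ f1 := hh.nonneg _
  set u : ℕ → ℝ := fun n => h (⌊(n : ℝ) * a⌋, ⌊(n : ℝ) * b⌋) + 2 * f1 with hu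
  have hfl : ∀ (m n : ℕ) (c : ℝ), 0 ≤ ⌊((m + n : ℕ) : ℝ) * c⌋ - ⌊(m : ℝ) * c⌋ - ⌊(n : ℝ) * c⌋ ∧
      ⌊((m + n : ℕ) : ℝ) * c⌋ - ⌊(m : ℝ) * c⌋ - ⌊(n : ℝ) * c⌋ ≤ 1 := by
    intro m n c
    have e : ((m + n : ℕ) : ℝ) * c = (m : ℝ) * c + (n : ℝ) * c := by push_cast; ring
    rw [e]
    have h1 := Int.le_floor_add ((m : ℝ) * c) ((n : ℝ) * c)
    have h2 := Int.le_floor_add_floor ((m : ℝ) * c) ((n : ℝ) * c)
    constructor <;> linarith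
  have hsub : Subadditive u := by
    intro m n
    simp only [hu]
    have h1 := hh.add_le (⌊(m : ℝ) * a⌋, ⌊(m : ℝ) * b⌋) (⌊(n : ℝ) * a⌋, ⌊(n : ℝ) * b⌋)
    have h2 := hh.add_le ((⌊(m : ℝ) * a⌋, ⌊(m : ℝ) * b⌋) + (⌊(n : ℝ) * a⌋, ⌊(n : ℝ) * b⌋))
      (⌊((m + n : ℕ) : ℝ) * a⌋ - ⌊(m : ℝ) * a⌋ - ⌊(n : ℝ) * a⌋,
       ⌊((m + n : ℕ) : ℝ) * b⌋ - ⌊(m : ℝ) * b⌋ - ⌊(n : ℝ) * b⌋)
    have e : (((⌊(m : ℝ) * a⌋, ⌊(m : ℝ) * b⌋) : V) + (⌊(n : ℝ) * a⌋, ⌊(n : ℝ) * b⌋)) +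
      (⌊((m + n : ℕ) : ℝ) * a⌋ - ⌊(m : ℝ) * a⌋ - ⌊(n : ℝ) * a⌋,
       ⌊((m + n : ℕ) : ℝ) * b⌋ - ⌊(m : ℝ) * b⌋ - ⌊(n : ℝ) * b⌋) =
       (⌊((m + n : ℕ) : ℝ) * a⌋, ⌊((m + n : ℕ) : ℝ) * b⌋) := by
      simp only [Prod.mk_add_mk, Prod.mk.injEq]
      constructor <;> ring
    rw [e] at h2
    have h3 := sub_le hh (⌊((m + n : ℕ) : ℝ) * a⌋ - ⌊(m : ℝ) * a⌋ - ⌊(n : ℝ) * a⌋)
      (⌊((m + n : ℕ) : ℝ) * b⌋ - ⌊(m : ℝ) * b⌋ - ⌊(n : ℝ) * b⌋)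
    have b1 := hfl m n a
    have b2 := hfl m n b
    have c1 : |(((⌊((m + n : ℕ) : ℝ) * a⌋ - ⌊(m : ℝ) * a⌋ - ⌊(n : ℝ) * a⌋ : ℤ)) : ℝ)| ≤ 1 := by
      rw [abs_of_nonneg (by exact_mod_cast b1.1)]; exact_mod_cast b1.2
    have c2 : |(((⌊((m + n : ℕ) : ℝ) * b⌋ - ⌊(m : ℝ) * b⌋ - ⌊(n : ℝ) * b⌋ : ℤ)) : ℝ)| ≤ 1 := by
      rw [abs_of_nonneg (by exact_mod_cast b2.1)]; exact_mod_cast b2.2
    have c3 : f1 * (|(((⌊((m + n : ℕ) : ℝ) * a⌋ - ⌊(m : ℝ) * a⌋ - ⌊(n : ℝ) * a⌋ : ℤ)) : ℝ)| +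
      |(((⌊((m + n : ℕ) : ℝ) * b⌋ - ⌊(m : ℝ) * b⌋ - ⌊(n : ℝ) * b⌋ : ℤ)) : ℝ)|) ≤ f1 * 2 := by
      gcongr; linarith
    linarith
  have hbdd : BddBelow (Set.range fun n => u n / n) := by
    refine ⟨0, ?_⟩
    rintro _ ⟨n, rfl⟩
    have := hh.nonneg (⌊(n : ℝ) * a⌋, ⌊(n : ℝ) * b⌋)
    simp only [hu]
    positivity
  have h1 := hsub.tendsto_lim hbdd
  have h2 : Tendsto (fun n : ℕ => (2 * f1) / (n : ℝ)) atTop (𝓝 0) :=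
    tendsto_const_div_atTop_nhds_zero_nat _
  have h3 := h1.sub h2
  rw [sub_zero] at h3
  have h4 : Tendsto (fun n : ℕ => h (⌊(n : ℝ) * a⌋, ⌊(n : ℝ) * b⌋) / (n : ℝ)) atTop
      (𝓝 hsub.lim) := by
    refine h3.congr fun n => ?_
    simp only [hu]; ring
  unfold Nm
  exact tendsto_nhds_limUnder ⟨_, h4⟩

theorem nm_tendsto_int {h : V → ℝ} (hh : SubSym h) (a b : ℤ) :
    Tendsto (fun n : ℕ => h ((n : ℤ) * a, (n : ℤ) * b) / (n : ℝ)) atTop (𝓝 (Nm h a b)) := by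
  refine (nm_tendsto hh a b).congr fun n => ?_
  have e : ∀ c : ℤ, ⌊(n : ℝ) * (c : ℝ)⌋ = (n : ℤ) * c := by
    intro c
    have : (n : ℝ) * (c : ℝ) = (((n : ℤ) * c : ℤ) : ℝ) := by push_cast; ring
    rw [this, Int.floor_intCast]
  rw [e, e]

end Pool.Agent.Work.MP_9a767b_pr
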