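import Pool.Agent.Work.MP_9a767b_pr.CrossIneq
import Pool.Agent.Work.MP_9a767b_pr.GFacts

/-!
# OneWindow: the lower bound for one increment in terms of the probabilities of the events
-/

open MeasureTheory ProbabilityTheory Filter Topology

namespace Pool.Agent.Work.MP_9a767b_pr

private theorem meas_ev (P : ℤ → Prop) (f g h : ℤ → Cfg → ℝ) (hf : ∀ i, Measurable (f i))
    (hg : ∀ i, Measurable (g i)) (hh : ∀ i, Measurable (h i)) :
    MeasurableSet {ω : Cfg | ∃ i : ℤ, P i ∧ f i ω + g i ω ≤ h i ω + 1} := by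
  rw [Set.ofPred_exists]
  refine MeasurableSet.iUnion fun i => ?_
  rw [Set.ofPred_and]
  refine (MeasurableSet.const _).inter ?_
  exact measurableSet_le ((hf i).add (hg i)) ((hh i).add_const 1)

private theorem T_le_left (ω : Cfg) (x y z : V) : T ω x z - T ω y z ≤ T ω x y := by
  have := T_triangle ω x y z
  linarith

theorem one_window {ν : Measure ℝ} [IsProbabilityMeasure ν]
    (hI : Integrable (fun ω => T ω 0 (1, 0)) (Q ν)) (n K : ℕ) (hn : 0 < n) (X : ℤ) (κ μ : ℝ)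
    (hμ : 0 ≤ μ) (p r l s : ℝ)
    (hp : (Q ν).real {ω | ∃ y : ℤ, (n : ℤ) ≤ |y| ∧
        T ω 0 (X, y) + T ω (X, y) (n, 0) ≤ T ω 0 (n, 0) + 1} ≤ p)
    (hr : (Q ν).real {ω | ∃ t : ℤ, (n : ℤ) ≤ t ∧
        T ω (K, 0) (t, 0) + T ω (t, 0) (X, n) ≤ T ω (K, 0) (X, n) + 1} ≤ r)
    (hl : (Q ν).real {ω | ∃ i : ℤ, (i : ℝ) ≤ -κ * n ∧
        T ω (K, 0) (i, 0) + T ω (i, 0) (X, n) ≤ T ω (K, 0) (X, n) + 1} ≤ l)
    (hs : (Q ν).real {ω | ∃ i : ℤ, -(κ * n) ≤ (i : ℝ) ∧ i ≤ 0 ∧
        T ω (K, 0) (i, 0) + T ω (i, 0) (X, n) ≤ T ω (K, 0) (X, n) + 1} ≤ s) :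
    2 * (g ν (X, n) - g ν (X - K, n)) - g ν (K, 0) - 2
      - 2 * (∫ ω, |T ω 0 (K, 0) - μ * K| ∂(Q ν)) - 2 * μ * K * (p + 2 * r + 2 * l + 2 * s)
      ≤ g ν (n, 0) - g ν ((n : ℤ) - K, 0) := by
  set Ep : Set Cfg := {ω | ∃ y : ℤ, (n : ℤ) ≤ |y| ∧
        T ω 0 (X, y) + T ω (X, y) (n, 0) ≤ T ω 0 (n, 0) + 1} with hEp
  set Er : Set Cfg := {ω | ∃ t : ℤ, (n : ℤ) ≤ t ∧
        T ω (K, 0) (t, 0) + T ω (t, 0) (X, n) ≤ T ω (K, 0) (X, n) + 1} with hEr
  set El : Set Cfg := {ω | ∃ i : ℤ, (i : ℝ) ≤ -κ * n ∧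
        T ω (K, 0) (i, 0) + T ω (i, 0) (X, n) ≤ T ω (K, 0) (X, n) + 1} with hEl
  set Es : Set Cfg := {ω | ∃ i : ℤ, -(κ * n) ≤ (i : ℝ) ∧ i ≤ 0 ∧
        T ω (K, 0) (i, 0) + T ω (i, 0) (X, n) ≤ T ω (K, 0) (X, n) + 1} with hEs
  have mp : MeasurableSet Ep := meas_ev _ (fun y ω => T ω 0 (X, y)) (fun y ω => T ω (X, y) (n, 0))
    (fun y ω => T ω 0 (n, 0)) (fun _ => measurable_T _ _) (fun _ => measurable_T _ _)
    (fun _ => measurable_T _ _)
  have mr : MeasurableSet Er := meas_ev _ (fun t ω => T ω (K, 0) (t, 0))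
    (fun t ω => T ω (t, 0) (X, n)) (fun t ω => T ω (K, 0) (X, n)) (fun _ => measurable_T _ _)
    (fun _ => measurable_T _ _) (fun _ => measurable_T _ _)
  have ml : MeasurableSet El := meas_ev _ (fun t ω => T ω (K, 0) (t, 0))
    (fun t ω => T ω (t, 0) (X, n)) (fun t ω => T ω (K, 0) (X, n)) (fun _ => measurable_T _ _)
    (fun _ => measurable_T _ _) (fun _ => measurable_T _ _)
  have ms : MeasurableSet Es := by
    have e : Es = {ω | ∃ i : ℤ, (-(κ * n) ≤ (i : ℝ) ∧ i ≤ 0) ∧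
        T ω (K, 0) (i, 0) + T ω (i, 0) (X, n) ≤ T ω (K, 0) (X, n) + 1} := by
      ext ω; simp only [hEs, Set.mem_ofPred_eq, and_assoc]
    rw [e]
    exact meas_ev _ (fun t ω => T ω (K, 0) (t, 0))
      (fun t ω => T ω (t, 0) (X, n)) (fun t ω => T ω (K, 0) (X, n)) (fun _ => measurable_T _ _)
      (fun _ => measurable_T _ _) (fun _ => measurable_T _ _)
  -- the reflected events
  set B : Set Cfg := Ep ∪ (Er ∪ {ω | act refl2 ω ∈ Er}) ∪ (El ∪ {ω | act refl2 ω ∈ El}) ∪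
    (Es ∪ {ω | act refl2 ω ∈ Es}) with hB
  have mB : MeasurableSet B := by
    have hm := measurable_act refl2
    exact ((mp.union (mr.union (hm mr))).union (ml.union (hm ml))).union (ms.union (hm ms))
  have hBr : (Q ν).real B ≤ p + 2 * r + 2 * l + 2 * s := by
    have h1 : ∀ A : Set Cfg, MeasurableSet A →
        (Q ν).real (A ∪ {ω | act refl2 ω ∈ A}) ≤ 2 * (Q ν).real A := by
      intro A hA
      have := measureReal_union_le (μ := Q ν) A {ω | act refl2 ω ∈ A}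
      rw [real_act ν refl2 A hA] at this
      linarith
    have e1 := measureReal_union_le (μ := Q ν) (Ep ∪ (Er ∪ {ω | act refl2 ω ∈ Er}) ∪
      (El ∪ {ω | act refl2 ω ∈ El})) (Es ∪ {ω | act refl2 ω ∈ Es})
    have e2 := measureReal_union_le (μ := Q ν) (Ep ∪ (Er ∪ {ω | act refl2 ω ∈ Er}))
      (El ∪ {ω | act refl2 ω ∈ El})
    have e3 := measureReal_union_le (μ := Q ν) Ep (Er ∪ {ω | act refl2 ω ∈ Er})
    have e4 := h1 Er mr
    have e5 := h1 El ml
    have e6 := h1 Es ms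
    linarith
  -- the pointwise inequality
  have hpt : ∀ ω : Cfg, (T ω 0 (X, n) - T ω (K, 0) (X, n)) + (T ω 0 (X, -n) - T ω (K, 0) (X, -n))
      - T ω 0 (K, 0) - 2 - 2 * (B.indicator (fun ω => T ω 0 (K, 0)) ω) ≤
        T ω 0 (n, 0) - T ω (K, 0) (n, 0) := by
    intro ω
    by_cases hω : ω ∈ B
    · rw [Set.indicator_of_mem hω]
      have e1 := T_le_left ω 0 (K, 0) (X, n)
      have e2 := T_le_left ω 0 (K, 0) (X, -n)
      have e3 := T_triangle ω (K, 0) 0 (n, 0)
      have e4 : T ω (K, 0) 0 = T ω 0 (K, 0) := T_comm _ _ _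
      linarith
    · rw [Set.indicator_of_notMem hω]
      have h1 : ω ∉ Ep := fun h => hω (Or.inl (Or.inl (Or.inl h)))
      have h2 : ω ∉ Er := fun h => hω (Or.inl (Or.inl (Or.inr (Or.inl h))))
      have h2' : act refl2 ω ∉ Er := fun h => hω (Or.inl (Or.inl (Or.inr (Or.inr h))))
      have h3 : ω ∉ El := fun h => hω (Or.inl (Or.inr (Or.inl h)))
      have h3' : act refl2 ω ∉ El := fun h => hω (Or.inl (Or.inr (Or.inr h)))
      have h4 : ω ∉ Es := fun h => hω (Or.inr (Or.inl h))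
      have h4' : act refl2 ω ∉ Es := fun h => hω (Or.inr (Or.inr h))
      have hn' : (0 : ℤ) < n := by exact_mod_cast hn
      have key := cross_ineq (c := fun e => |ω e|) (fun e => abs_nonneg _) (n := n) (X := X)
        (m := n) (K := K) hn' hn' (δ := 1) one_pos
        (fun i hi => by
          by_contra hc
          rw [not_lt] at hc
          rcases le_total (i : ℝ) (-(κ * n)) with hh | hh
          · exact h3 ⟨i, by rw [neg_mul]; exact hh, hc⟩
          · exact h4 ⟨i, hh, hi, hc⟩)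
        (fun i hi => by
          by_contra hc
          rw [not_lt] at hc
          have hc' : T (act refl2 ω) (K, 0) (i, 0) + T (act refl2 ω) (i, 0) (X, n) ≤
              T (act refl2 ω) (K, 0) (X, n) + 1 := by
            rw [T_refl2, T_refl2, T_refl2]; simp only [neg_zero]; exact hc
          rcases le_total (i : ℝ) (-(κ * n)) with hh | hh
          · exact h3' ⟨i, by rw [neg_mul]; exact hh, hc'⟩
          · exact h4' ⟨i, hh, hi, hc'⟩)
        (fun i hi => by
          by_contra hc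
          rw [not_lt] at hc
          exact h2 ⟨i, hi, hc⟩)
        (fun i hi => by
          by_contra hc
          rw [not_lt] at hc
          have hc' : T (act refl2 ω) (K, 0) (i, 0) + T (act refl2 ω) (i, 0) (X, n) ≤
              T (act refl2 ω) (K, 0) (X, n) + 1 := by
            rw [T_refl2, T_refl2, T_refl2]; simp only [neg_zero]; exact hc
          exact h2' ⟨i, hi, hc'⟩)
        (fun y hy => by
          by_contra hc
          rw [not_lt] at hc
          exact h1 ⟨y, hy, hc⟩)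
      have key' : (T ω 0 (X, n) - T ω (K, 0) (X, n)) + (T ω 0 (X, -n) - T ω (K, 0) (X, -n))
        - T ω 0 (K, 0) - 2 * 1 ≤ T ω 0 (n, 0) - T ω (K, 0) (n, 0) := key
      linarith
  have iT : ∀ x y : V, Integrable (fun ω => T ω x y) (Q ν) := fun x y => integrable_T hI x y
  -- the error term
  have hind : ∫ ω, B.indicator (fun ω => T ω 0 (K, 0)) ω ∂(Q ν) ≤
      (∫ ω, |T ω 0 (K, 0) - μ * K| ∂(Q ν)) + μ * K * (p + 2 * r + 2 * l + 2 * s) := by
    have iabs : Integrable (fun ω => |T ω 0 (K, 0) - μ * K|) (Q ν) :=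
      ((iT _ _).sub (integrable_const _)).abs
    have h1 : ∫ ω, B.indicator (fun ω => T ω 0 (K, 0)) ω ∂(Q ν) ≤
        ∫ ω, (|T ω 0 (K, 0) - μ * K| + B.indicator (fun _ => μ * K) ω) ∂(Q ν) := by
      refine integral_mono ((iT _ _).indicator mB)
        (iabs.add ((integrable_const _).indicator mB)) fun ω => ?_
      by_cases hω : ω ∈ B
      · simp only [Set.indicator_of_mem hω]
        have := le_abs_self (T ω 0 (K, 0) - μ * K)
        linarith
      · simp only [Set.indicator_of_notMem hω]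
        have := abs_nonneg (T ω 0 (K, 0) - μ * K)
        linarith
    rw [integral_add iabs ((integrable_const _).indicator mB), integral_indicator_const _ mB,
      smul_eq_mul] at h1
    have h2 : (Q ν).real B * (μ * K) ≤ (p + 2 * r + 2 * l + 2 * s) * (μ * K) :=
      mul_le_mul_of_nonneg_right hBr (by positivity)
    linarith
  have iind : Integrable (fun ω => B.indicator (fun ω => T ω 0 (K, 0)) ω) (Q ν) :=
    (iT _ _).indicator mB
  have hg := subSym_g hI
  have iF : ∀ z : V, Integrable (fun ω => T ω 0 z - T ω (K, 0) z) (Q ν) := fun z =>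
    (iT _ _).sub (iT _ _)
  have vF : ∀ a b : ℤ, ∫ ω, (T ω 0 (a, b) - T ω (K, 0) (a, b)) ∂(Q ν) =
      g ν (a, b) - g ν (a - K, b) := by
    intro a b
    rw [integral_sub (iT _ _) (iT _ _), integral_T, integral_T]
    simp
  have i1 : Integrable (fun ω => (T ω 0 (X, n) - T ω (K, 0) (X, n)) +
      (T ω 0 (X, -n) - T ω (K, 0) (X, -n))) (Q ν) := (iF (X, n)).add (iF (X, -n))
  have i2 : Integrable (fun ω => (T ω 0 (X, n) - T ω (K, 0) (X, n)) +
      (T ω 0 (X, -n) - T ω (K, 0) (X, -n)) - T ω 0 (K, 0)) (Q ν) := i1.sub (iT 0 (K, 0))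
  have i3 : Integrable (fun ω => (T ω 0 (X, n) - T ω (K, 0) (X, n)) +
      (T ω 0 (X, -n) - T ω (K, 0) (X, -n)) - T ω 0 (K, 0) - 2) (Q ν) :=
    i2.sub (integrable_const (2 : ℝ))
  have i4 : Integrable (fun ω => 2 * B.indicator (fun ω => T ω 0 (K, 0)) ω) (Q ν) :=
    iind.const_mul 2
  have hint := integral_mono (μ := Q ν) (i3.sub i4) (iF (n, 0)) hpt
  have hint2 : ∫ ω, ((T ω 0 (X, n) - T ω (K, 0) (X, n)) +
      (T ω 0 (X, -n) - T ω (K, 0) (X, -n)) - T ω 0 (K, 0) - 2 -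
      2 * B.indicator (fun ω => T ω 0 (K, 0)) ω) ∂(Q ν) ≤
      ∫ ω, (T ω 0 (n, 0) - T ω (K, 0) (n, 0)) ∂(Q ν) := hint
  rw [vF, integral_sub i3 i4, integral_sub i2 (integrable_const (2 : ℝ)),
    integral_sub i1 (iT 0 (K, 0)), integral_add (iF (X, n)) (iF (X, -n)), vF, vF,
    integral_const_mul, integral_T, hg.flip2, hg.flip2, integral_const] at hint2
  simp only [probReal_univ, smul_eq_mul, one_mul, sub_zero] at hint2
  linarith

end Pool.Agent.Work.MP_9a767b_pr
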