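import Pool.Agent.Work.MP_9a767b_pr.LocLLN
import Pool.Agent.Work.MP_9a767b_pr.GFacts

/-!
# StepLLN: law of large numbers for the passage times of the steps of a line
-/

open MeasureTheory ProbabilityTheory Filter Topology

namespace Pool.Agent.Work.MP_9a767b_pr

private theorem int_add_const {ν : Measure ℝ} [IsProbabilityMeasure ν] {A B : Cfg → ℝ}
    (hA : Integrable A (Q ν)) (hB : Integrable B (Q ν)) (c : ℝ) :
    ∫ ω, (A ω + (B ω + c)) ∂(Q ν) = ∫ ω, A ω ∂(Q ν) + (∫ ω, B ω ∂(Q ν) + c) := by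
  have h1 : ∫ ω, (A ω + (B ω + c)) ∂(Q ν) = ∫ ω, A ω ∂(Q ν) + ∫ ω, (B ω + c) ∂(Q ν) :=
    integral_add hA (hB.add (integrable_const c))
  have h2 : ∫ ω, (B ω + c) ∂(Q ν) = ∫ ω, B ω ∂(Q ν) + ∫ _, c ∂(Q ν) :=
    integral_add hB (integrable_const c)
  rw [h1, h2]; simp

theorem step_lln {ν : Measure ℝ} [IsProbabilityMeasure ν]
    (hI : Integrable (fun ω => T ω 0 (1, 0)) (Q ν)) (u : V) {ε : ℝ} (hε : 0 < ε) :
    ∃ m0 : ℕ, ∀ m : ℕ, m0 ≤ m → ∀ x : V,
      ∫ ω, |(∑ j ∈ Finset.range m, T ω (x + (j : ℤ) • u) (x + ((j : ℤ) + 1) • u)) - m * g ν u|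
        ∂(Q ν) ≤ ε * m := by
  by_cases hu : u = 0
  · refine ⟨0, fun m _ x => ?_⟩
    subst hu
    simp only [smul_zero, add_zero, T_self, Finset.sum_const_zero, (subSym_g hI).zero, mul_zero,
      sub_zero, abs_zero, integral_zero]
    positivity
  have hε3 : 0 < ε / 3 := by positivity
  obtain ⟨Ψ, M, R, hm, hb, hloc, happ⟩ := local_approx u (integrable_T hI 0 u) hε3
  obtain ⟨m0, hm0⟩ := loc_lln (ν := ν) u hu Ψ M R hm hb hloc hε3
  refine ⟨m0, fun m hmm x => ?_⟩
  have hiΨ : Integrable Ψ (Q ν) := by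
    refine (integrable_const M).mono' hm.aestronglyMeasurable (Eventually.of_forall fun ω => ?_)
    rw [Real.norm_eq_abs, abs_of_nonneg (hb ω).1]; exact (hb ω).2
  have hTi := integrable_T hI 0 u
  -- reduce to x = 0
  have hG : Measurable (fun ω : Cfg =>
      |(∑ j ∈ Finset.range m, T (act (trans ((j : ℤ) • u)) ω) 0 u) - m * g ν u|) := by
    refine Measurable.abs (Measurable.sub_const (Finset.measurable_sum _ fun j _ => ?_) _)
    exact (measurable_T 0 u).comp (measurable_act _)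
  have e1 : ∫ ω, |(∑ j ∈ Finset.range m, T ω (x + (j : ℤ) • u) (x + ((j : ℤ) + 1) • u)) -
      m * g ν u| ∂(Q ν) =
      ∫ ω, |(∑ j ∈ Finset.range m, T (act (trans ((j : ℤ) • u)) ω) 0 u) - m * g ν u| ∂(Q ν) := by
    rw [← integral_comp_act ν (trans x) _ hG]
    refine integral_congr_ae (Eventually.of_forall fun ω => ?_)
    simp only
    congr 2
    refine Finset.sum_congr rfl fun j _ => ?_
    rw [T_trans, T_trans, add_zero, add_smul, one_smul]
  rw [e1]
  have hd : ∀ j : ℕ, ∫ ω, |T (act (trans ((j : ℤ) • u)) ω) 0 u -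
      Ψ (act (trans ((j : ℤ) • u)) ω)| ∂(Q ν) ≤ ε / 3 := by
    intro j
    rw [integral_comp_act ν (trans ((j : ℤ) • u)) (fun ω => |T ω 0 u - Ψ ω|)
      ((measurable_T 0 u).sub hm).abs]
    exact happ
  have hdi : ∀ j : ℕ, Integrable (fun ω => |T (act (trans ((j : ℤ) • u)) ω) 0 u -
      Ψ (act (trans ((j : ℤ) • u)) ω)|) (Q ν) := fun j =>
    integrable_comp_act ν (trans ((j : ℤ) • u)) (hTi.sub hiΨ).abs
  have hE : |(∫ ω', Ψ ω' ∂(Q ν)) - g ν u| ≤ ε / 3 := by
    refine le_trans ?_ happ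
    unfold g
    rw [← integral_sub hiΨ hTi]
    refine (abs_integral_le_integral_abs).trans (le_of_eq ?_)
    refine integral_congr_ae (Eventually.of_forall fun ω => ?_)
    simp only [abs_sub_comm]
  have hΨi : Integrable (fun ω => |(∑ j ∈ Finset.range m, Ψ (act (trans ((j : ℤ) • u)) ω)) -
      m * ∫ ω', Ψ ω' ∂(Q ν)|) (Q ν) := by
    refine Integrable.abs (Integrable.sub (integrable_finsetSum _ fun j _ => ?_)
      (integrable_const _))
    exact integrable_comp_act ν _ hiΨ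
  calc ∫ ω, |(∑ j ∈ Finset.range m, T (act (trans ((j : ℤ) • u)) ω) 0 u) - m * g ν u| ∂(Q ν)
      ≤ ∫ ω, ((∑ j ∈ Finset.range m, |T (act (trans ((j : ℤ) • u)) ω) 0 u -
          Ψ (act (trans ((j : ℤ) • u)) ω)|) + (|(∑ j ∈ Finset.range m,
          Ψ (act (trans ((j : ℤ) • u)) ω)) - m * ∫ ω', Ψ ω' ∂(Q ν)| + m * (ε / 3))) ∂(Q ν) := by
        refine integral_mono_of_nonneg (Eventually.of_forall fun ω => abs_nonneg _)
          ((integrable_finsetSum _ fun j _ => hdi j).add (hΨi.add (integrable_const _)))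
          (Eventually.of_forall fun ω => ?_)
        simp only
        have a1 := Finset.abs_sum_le_sum_abs (s := Finset.range m) (f := fun j : ℕ =>
          T (act (trans ((j : ℤ) • u)) ω) 0 u - Ψ (act (trans ((j : ℤ) • u)) ω))
        rw [Finset.sum_sub_distrib] at a1
        have a2 : |(m : ℝ) * ((∫ ω', Ψ ω' ∂(Q ν)) - g ν u)| ≤ m * (ε / 3) := by
          rw [abs_mul, abs_of_nonneg (by positivity : (0 : ℝ) ≤ m)]
          gcongr
        have a3 : (∑ j ∈ Finset.range m, T (act (trans ((j : ℤ) • u)) ω) 0 u) - m * g ν u =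
            ((∑ j ∈ Finset.range m, T (act (trans ((j : ℤ) • u)) ω) 0 u) -
              ∑ j ∈ Finset.range m, Ψ (act (trans ((j : ℤ) • u)) ω)) +
            (((∑ j ∈ Finset.range m, Ψ (act (trans ((j : ℤ) • u)) ω)) -
              m * ∫ ω', Ψ ω' ∂(Q ν)) + m * ((∫ ω', Ψ ω' ∂(Q ν)) - g ν u)) := by ring
        rw [a3]
        refine (abs_add_le _ _).trans (add_le_add a1 ((abs_add_le _ _).trans ?_))
        gcongr
    _ = (∑ j ∈ Finset.range m, ∫ ω, |T (act (trans ((j : ℤ) • u)) ω) 0 u -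
          Ψ (act (trans ((j : ℤ) • u)) ω)| ∂(Q ν)) + (∫ ω, |(∑ j ∈ Finset.range m,
          Ψ (act (trans ((j : ℤ) • u)) ω)) - m * ∫ ω', Ψ ω' ∂(Q ν)| ∂(Q ν) + m * (ε / 3)) := by
        rw [← integral_finsetSum _ fun j _ => hdi j]
        exact int_add_const (integrable_finsetSum _ fun j _ => hdi j) hΨi _
    _ ≤ m * (ε / 3) + (ε / 3 * m + m * (ε / 3)) := by
        refine add_le_add ?_ (add_le_add (hm0 m hmm) le_rfl)
        refine (Finset.sum_le_sum fun j _ => hd j).trans ?_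
        simp
    _ = ε * m := by ring

end Pool.Agent.Work.MP_9a767b_pr
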