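import Pool.Agent.Work.MP_9a767b_pr.LLN
import Pool.Agent.Work.MP_9a767b_pr.NormUnif

/-!
# ULLN: uniform L¹ law of large numbers
-/

open MeasureTheory ProbabilityTheory Filter Topology

namespace Pool.Agent.Work.MP_9a767b_pr

private theorem ulln0 {ν : Measure ℝ} [IsProbabilityMeasure ν]
    (hI : Integrable (fun ω => T ω 0 (1, 0)) (Q ν)) {ε C : ℝ} (hε : 0 < ε) (hC : 0 < C) :
    ∃ n0 : ℕ, ∀ n : ℕ, n0 ≤ n → ∀ z : V, |(z.1 : ℝ)| ≤ C * n → |(z.2 : ℝ)| ≤ C * n →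
      ∫ ω, |T ω 0 z - Nm (g ν) z.1 z.2| ∂(Q ν) ≤ ε * n := by
  have hsub := subSym_g hI
  set f1 := g ν (1, 0) with hf1
  have hf0 : 0 ≤ f1 := hsub.nonneg _
  obtain ⟨J, hJ⟩ := exists_nat_gt (16 * f1 / ε)
  have hJ0 : (0 : ℝ) < J := lt_of_le_of_lt (by positivity) hJ
  have hJn : 0 < J := by exact_mod_cast hJ0
  obtain ⟨D, hD⟩ := exists_nat_ge (C * J + 1)
  have hev : ∀ᶠ k : ℕ in atTop, ∀ a ∈ Finset.Icc (-(D : ℤ)) D, ∀ b ∈ Finset.Icc (-(D : ℤ)) D,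
      ∫ ω, |T ω 0 ((k : ℤ) • ((a, b) : V)) - k * Nm (g ν) a b| ∂(Q ν) ≤ ε / 4 * k := by
    rw [eventually_all_finset]
    intro a _
    rw [eventually_all_finset]
    intro b _
    obtain ⟨m0, hm0⟩ := lln hI (a, b) (show 0 < ε / 4 by positivity)
    filter_upwards [eventually_ge_atTop m0] with k hk
    exact hm0 k hk
  obtain ⟨k0, hk0⟩ := eventually_atTop.1 hev
  obtain ⟨n1, hn1⟩ := exists_nat_ge (16 * f1 * (C * J + 1) / ε)
  refine ⟨J * k0 + n1 + 1, fun n hn x hx1 hx2 => ?_⟩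
  have hn0 : 0 < n := by omega
  have hn' : (0 : ℝ) < n := by exact_mod_cast hn0
  obtain ⟨a, ha1, ha2⟩ := grid_pt hC hJn hn0 x.1 hx1
  obtain ⟨b, hb1, hb2⟩ := grid_pt hC hJn hn0 x.2 hx2
  set k := n / J with hk
  have hkk : k0 ≤ k := by
    rw [hk, Nat.le_div_iff_mul_le hJn]; nlinarith
  have hmem : ∀ c : ℤ, |(c : ℝ)| ≤ C * J + 1 → c ∈ Finset.Icc (-(D : ℤ)) D := by
    intro c hc
    have := abs_le.1 (hc.trans hD)
    rw [Finset.mem_Icc]
    constructor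
    · exact_mod_cast this.1
    · exact_mod_cast this.2
  have h1 := hk0 k hkk a (hmem a ha1) b (hmem b hb1)
  set w : V := (k : ℤ) • ((a, b) : V) with hw
  have hg : g ν (x - w) ≤ f1 * (|(x.1 : ℝ) - (k : ℝ) * a| + |(x.2 : ℝ) - (k : ℝ) * b|) := by
    have e : x - w = (x.1 - k * a, x.2 - k * b) := by
      rw [hw]; ext <;> simp
    rw [e]
    refine (sub_le hsub _ _).trans (le_of_eq ?_)
    push_cast; rfl
  have h3 := nm_lip hsub ((k : ℝ) * a) ((k : ℝ) * b) (x.1 : ℝ) (x.2 : ℝ)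
  rw [(isNm hsub).smul k (by positivity)] at h3
  have ha2' : |(x.1 : ℝ) - (k : ℝ) * a| ≤ (n : ℝ) / J + C * J + 1 := by
    push_cast at ha2; exact ha2
  have hb2' : |(x.2 : ℝ) - (k : ℝ) * b| ≤ (n : ℝ) / J + C * J + 1 := by
    push_cast at hb2; exact hb2
  have h4 : f1 * (|(x.1 : ℝ) - (k : ℝ) * a| + |(x.2 : ℝ) - (k : ℝ) * b|) ≤
      f1 * (((n : ℝ) / J + C * J + 1) + ((n : ℝ) / J + C * J + 1)) := by gcongr
  rw [abs_sub_comm ((k : ℝ) * a), abs_sub_comm ((k : ℝ) * b)] at h3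
  have hkn : (k : ℝ) ≤ n := by exact_mod_cast Nat.div_le_self n J
  have i1 : Integrable (fun ω => |T ω 0 w - k * Nm (g ν) a b|) (Q ν) :=
    ((integrable_T hI _ _).sub (integrable_const _)).abs
  have i2 := integrable_T hI w x
  have hpt : ∀ ω, |T ω 0 x - Nm (g ν) x.1 x.2| ≤ (|T ω 0 w - k * Nm (g ν) a b| + T ω w x) +
      |k * Nm (g ν) a b - Nm (g ν) x.1 x.2| := by
    intro ω
    have t1 := T_triangle ω 0 w x
    have t2 := T_triangle ω 0 x w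
    rw [T_comm ω x w] at t2
    have t3 : |T ω 0 x - T ω 0 w| ≤ T ω w x := by rw [abs_le]; constructor <;> linarith
    have e : T ω 0 x - Nm (g ν) x.1 x.2 = (T ω 0 w - k * Nm (g ν) a b) + (T ω 0 x - T ω 0 w) +
      (k * Nm (g ν) a b - Nm (g ν) x.1 x.2) := by ring
    rw [e]
    exact (abs_add_le _ _).trans (add_le_add ((abs_add_le _ _).trans (by linarith)) le_rfl)
  have hint := integral_mono (((integrable_T hI 0 x).sub (integrable_const _)).abs)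
    ((i1.add i2).add (integrable_const _)) hpt
  have e1 : ∫ ω, ((|T ω 0 w - k * Nm (g ν) a b| + T ω w x) +
      |k * Nm (g ν) a b - Nm (g ν) x.1 x.2|) ∂(Q ν) =
      ∫ ω, |T ω 0 w - k * Nm (g ν) a b| ∂(Q ν) + g ν (x - w) +
        |k * Nm (g ν) a b - Nm (g ν) x.1 x.2| := by
    have a1 := integral_add (μ := Q ν) (i1.add i2)
      (integrable_const |k * Nm (g ν) a b - Nm (g ν) x.1 x.2|)
    have a2 := integral_add (μ := Q ν) i1 i2
    simp only [Pi.add_apply] at a1 a2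
    rw [a1, a2, integral_T]
    simp
  have hint2 : ∫ ω, |T ω 0 x - Nm (g ν) x.1 x.2| ∂(Q ν) ≤ _ := hint.trans (le_of_eq e1)
  have h6 : 4 * f1 * ((n : ℝ) / J) ≤ ε / 4 * n := by
    have : 16 * f1 / ε < J := hJ
    rw [div_lt_iff₀ hε] at this
    rw [← mul_div_assoc, div_le_iff₀ hJ0]
    nlinarith
  have h7 : 4 * f1 * (C * J + 1) ≤ ε / 4 * n := by
    have : 16 * f1 * (C * J + 1) / ε ≤ n := hn1.trans (by exact_mod_cast (by omega : n1 ≤ n))
    rw [div_le_iff₀ hε] at this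
    linarith
  have h8 : ε / 4 * (k : ℝ) ≤ ε / 4 * n := by gcongr
  nlinarith

theorem ulln {ν : Measure ℝ} [IsProbabilityMeasure ν]
    (hI : Integrable (fun ω => T ω 0 (1, 0)) (Q ν)) {ε C : ℝ} (hε : 0 < ε) (hC : 0 < C) :
    ∃ n0 : ℕ, ∀ n : ℕ, n0 ≤ n → ∀ x y : V, |(y.1 : ℝ) - x.1| ≤ C * n → |(y.2 : ℝ) - x.2| ≤ C * n →
      ∫ ω, |T ω x y - Nm (g ν) (y.1 - x.1) (y.2 - x.2)| ∂(Q ν) ≤ ε * n := by
  obtain ⟨n0, hn0⟩ := ulln0 hI hε hC
  refine ⟨n0, fun n hn x y h1 h2 => ?_⟩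
  have h := hn0 n hn (y - x) (by push_cast [Prod.fst_sub]; exact h1)
    (by push_cast [Prod.snd_sub]; exact h2)
  refine le_trans (le_of_eq ?_) h
  have hm : Measurable (fun ω : Cfg => |T ω 0 (y - x) - Nm (g ν) ((y - x).1 : ℤ) ((y - x).2 : ℤ)|) :=
    ((measurable_T _ _).sub measurable_const).abs
  rw [← integral_comp_act ν (trans x) _ hm]
  refine integral_congr_ae (Eventually.of_forall fun ω => ?_)
  simp only [T_trans, add_zero, add_sub_cancel, Prod.fst_sub, Prod.snd_sub, Int.cast_sub]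

end Pool.Agent.Work.MP_9a767b_pr
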