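import Pool.Agent.Work.MP_9a767b_pr.FixedK

/-!
# Window: the uniform window theorem on the canonical space
-/

open MeasureTheory ProbabilityTheory Filter Topology

namespace Pool.Agent.Work.MP_9a767b_pr

private noncomputable def wd (ν : Measure ℝ) (n K : ℕ) : ℝ :=
  ∫ ω, |T ω 0 ((n : ℤ) + K, 0) - T ω 0 (n, 0) - K * Nm (g ν) 1 0| ∂(Q ν)

private theorem wd_add {ν : Measure ℝ} [IsProbabilityMeasure ν]
    (hI : Integrable (fun ω => T ω 0 (1, 0)) (Q ν)) (n K K' : ℕ) :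
    wd ν n (K + K') ≤ wd ν n K + wd ν (n + K) K' := by
  unfold wd
  have i1 : Integrable (fun ω : Cfg => |T ω 0 ((n : ℤ) + K, 0) - T ω 0 (n, 0) -
      K * Nm (g ν) 1 0|) (Q ν) :=
    (((integrable_T hI _ _).sub (integrable_T hI _ _)).sub (integrable_const _)).abs
  have i2 : Integrable (fun ω : Cfg => |T ω 0 (((n + K : ℕ) : ℤ) + K', 0) -
      T ω 0 (((n + K : ℕ) : ℤ), 0) - K' * Nm (g ν) 1 0|) (Q ν) :=
    (((integrable_T hI _ _).sub (integrable_T hI _ _)).sub (integrable_const _)).abs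
  have i3 : Integrable (fun ω : Cfg => |T ω 0 ((n : ℤ) + ((K + K' : ℕ) : ℤ), 0) - T ω 0 (n, 0) -
      ((K + K' : ℕ) : ℝ) * Nm (g ν) 1 0|) (Q ν) :=
    (((integrable_T hI _ _).sub (integrable_T hI _ _)).sub (integrable_const _)).abs
  rw [← integral_add i1 i2]
  refine integral_mono i3 (i1.add i2) fun ω => ?_
  show |T ω 0 ((n : ℤ) + ((K + K' : ℕ) : ℤ), 0) - T ω 0 (n, 0) -
      ((K + K' : ℕ) : ℝ) * Nm (g ν) 1 0| ≤ |T ω 0 ((n : ℤ) + K, 0) - T ω 0 (n, 0) -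
      K * Nm (g ν) 1 0| + |T ω 0 (((n + K : ℕ) : ℤ) + K', 0) -
      T ω 0 (((n + K : ℕ) : ℤ), 0) - K' * Nm (g ν) 1 0|
  have e1 : ((n : ℤ) + ((K + K' : ℕ) : ℤ)) = ((n + K : ℕ) : ℤ) + K' := by push_cast; ring
  have e2 : ((n + K : ℕ) : ℤ) = (n : ℤ) + K := by push_cast; ring
  rw [e1, e2]
  refine le_trans (le_of_eq ?_) (abs_add_le _ _)
  congr 1
  push_cast
  ring

private theorem wd_le {ν : Measure ℝ} [IsProbabilityMeasure ν]
    (hI : Integrable (fun ω => T ω 0 (1, 0)) (Q ν)) (hμ : 0 ≤ Nm (g ν) 1 0) (n r : ℕ) :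
    wd ν n r ≤ r * (g ν (1, 0) + Nm (g ν) 1 0) := by
  unfold wd
  have i1 : Integrable (fun ω : Cfg => |T ω 0 ((n : ℤ) + r, 0) - T ω 0 (n, 0) -
      r * Nm (g ν) 1 0|) (Q ν) :=
    (((integrable_T hI _ _).sub (integrable_T hI _ _)).sub (integrable_const _)).abs
  have i2 : Integrable (fun ω : Cfg => T ω (n, 0) ((n : ℤ) + r, 0) + r * Nm (g ν) 1 0) (Q ν) :=
    (integrable_T hI _ _).add (integrable_const _)
  have hr : (0 : ℝ) ≤ r * Nm (g ν) 1 0 := mul_nonneg (Nat.cast_nonneg _) hμ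
  have h := integral_mono i1 i2 (fun ω => by
    show |T ω 0 ((n : ℤ) + r, 0) - T ω 0 (n, 0) - r * Nm (g ν) 1 0| ≤
      T ω (n, 0) ((n : ℤ) + r, 0) + r * Nm (g ν) 1 0
    have h3 := T_triangle ω 0 (n, 0) ((n : ℤ) + r, 0)
    have h4 := T_triangle ω 0 ((n : ℤ) + r, 0) (n, 0)
    rw [T_comm ω ((n : ℤ) + r, 0) (n, 0)] at h4
    rw [abs_le]
    constructor <;> linarith)
  refine h.trans ?_
  rw [integral_add (integrable_T hI _ _) (integrable_const _), integral_T]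
  have e : (((n : ℤ) + r, 0) : V) - ((n : ℤ), 0) = ((r : ℤ), 0) := by ext <;> simp
  rw [e]
  have h5 := sub_le (subSym_g hI) (r : ℤ) 0
  simp at h5 ⊢
  linarith

private theorem wd_mul {ν : Measure ℝ} [IsProbabilityMeasure ν]
    (hI : Integrable (fun ω => T ω 0 (1, 0)) (Q ν)) (K1 n1 : ℕ) (a : ℝ)
    (h : ∀ n, n1 ≤ n → wd ν n K1 ≤ a) (j n : ℕ) (hn : n1 ≤ n) : wd ν n (j * K1) ≤ j * a := by
  induction j generalizing n with
  | zero => simp [wd]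
  | succ j ih =>
    have e : (j + 1) * K1 = K1 + j * K1 := by ring
    rw [e]
    refine (wd_add hI n K1 (j * K1)).trans ?_
    have h1 := h n hn
    have h2 := ih (n + K1) (by omega)
    push_cast
    linarith

theorem window {ν : Measure ℝ} [IsProbabilityMeasure ν]
    (hI : Integrable (fun ω => T ω 0 (1, 0)) (Q ν)) {δ : ℝ} (hδ : 0 < δ) :
    ∃ K0 : ℕ, ∀ K : ℕ, K0 ≤ K → ∀ n : ℕ,
      ∫ ω, |T ω 0 ((n : ℤ) + K, 0) - T ω 0 (n, 0) - K * Nm (g ν) 1 0| ∂(Q ν) ≤ δ * K := by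
  have hsub := subSym_g hI
  have hμ : 0 ≤ Nm (g ν) 1 0 := by
    refine ge_of_tendsto (nm_tendsto hsub 1 0) (Eventually.of_forall fun n => ?_)
    have := hsub.nonneg (⌊(n : ℝ) * 1⌋, ⌊(n : ℝ) * 0⌋)
    positivity
  set c : ℝ := g ν (1, 0) + Nm (g ν) 1 0 with hc
  have hc0 : 0 ≤ c := add_nonneg (hsub.nonneg _) hμ
  obtain ⟨K0, hK0⟩ := fixed_K hI (show 0 < δ / 4 by positivity)
  set K1 := max K0 1 with hK1
  have hK1p : 0 < K1 := lt_of_lt_of_le one_pos (le_max_right _ _)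
  obtain ⟨n1, hn1⟩ := hK0 K1 (le_max_left _ _)
  have hA : ∀ n K, n1 ≤ n → wd ν n K ≤ δ / 4 * K + K1 * c := by
    intro n K hn
    have e : K = (K / K1) * K1 + K % K1 := (Nat.div_add_mod' K K1).symm
    have h1 := wd_add hI n ((K / K1) * K1) (K % K1)
    rw [← e] at h1
    have h2 := wd_mul hI K1 n1 (δ / 4 * K1) (fun n hn => hn1 n hn) (K / K1) n hn
    have h3 := wd_le hI hμ (n + K / K1 * K1) (K % K1)
    have h4 : ((K % K1 : ℕ) : ℝ) * c ≤ K1 * c := by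
      have : ((K % K1 : ℕ) : ℝ) ≤ K1 := by exact_mod_cast (Nat.mod_lt K hK1p).le
      gcongr
    have h5 : ((K / K1 : ℕ) : ℝ) * (δ / 4 * K1) ≤ δ / 4 * K := by
      have h6 : (((K / K1 * K1 : ℕ)) : ℝ) ≤ K := by exact_mod_cast Nat.div_mul_le_self K K1
      push_cast at h6
      have h7 : ((K / K1 : ℕ) : ℝ) * (δ / 4 * K1) = δ / 4 * (((K / K1 : ℕ) : ℝ) * K1) := by ring
      rw [h7]
      gcongr
    linarith
  obtain ⟨M, hM⟩ := exists_nat_ge ((K1 + n1) * c / (δ / 2))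
  refine ⟨max M n1, fun K hK n => ?_⟩
  have hKn : n1 ≤ K := le_trans (le_max_right _ _) hK
  have hKM : (M : ℝ) ≤ K := by exact_mod_cast le_trans (le_max_left _ _) hK
  have hbig : (K1 + n1) * c ≤ δ / 2 * K := by
    have h1 := hM.trans hKM
    rw [div_le_iff₀ (by positivity)] at h1
    linarith
  have hn1c : (0 : ℝ) ≤ n1 * c := mul_nonneg (Nat.cast_nonneg _) hc0
  have hK1c : (0 : ℝ) ≤ K1 * c := mul_nonneg (Nat.cast_nonneg _) hc0
  have hδK : (0 : ℝ) ≤ δ * K := by positivity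
  show wd ν n K ≤ δ * K
  by_cases hn : n1 ≤ n
  · have h1 := hA n K hn
    nlinarith
  · have e : K = (n1 - n) + (K - (n1 - n)) := by omega
    have h1 := wd_add hI n (n1 - n) (K - (n1 - n))
    rw [← e] at h1
    have h2 := wd_le hI hμ n (n1 - n)
    have h3 := hA (n + (n1 - n)) (K - (n1 - n)) (by omega)
    have h4 : ((n1 - n : ℕ) : ℝ) * c ≤ n1 * c := by
      have : ((n1 - n : ℕ) : ℝ) ≤ n1 := by exact_mod_cast Nat.sub_le _ _
      gcongr
    have h5 : δ / 4 * ((K - (n1 - n) : ℕ) : ℝ) ≤ δ / 4 * K := by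
      have : ((K - (n1 - n) : ℕ) : ℝ) ≤ K := by exact_mod_cast Nat.sub_le _ _
      gcongr
    nlinarith

end Pool.Agent.Work.MP_9a767b_pr
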